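import Pool.Agent.H839R3.Nas.Stmts2

/-!
# The concrete forcing
-/

namespace Pool.Agent.H839R3.Nas

open Nm

/-- The conditions. -/
structure Cn : Type where
  /-- the function -/
  f : (V × ℕ) →₀ ZMod 3

namespace Cn

instance : _root_.Countable Cn := by
  have h : Function.Injective Cn.f := fun a b h => by
    cases a
    cases b
    cases h
    rfl
  exact h.countable

/-- The value of a condition. -/
def at' (p : Cn) (c : V × ℕ) : ZMod 3 := p.f c

instance : Preorder Cn where
  le q p := ∀ c, p.at' c ≠ 0 → q.at' c = p.at' c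
  le_refl _ _ _ := rfl
  le_trans a b c h1 h2 x hx := by
    have h3 := h2 x hx
    exact (h1 x (by rw [h3]; exact hx)).trans h3

theorem le_iff {p q : Cn} : q ≤ p ↔ ∀ c, p.at' c ≠ 0 → q.at' c = p.at' c := Iff.rfl

theorem ext' {p q : Cn} (h : ∀ c, p.at' c = q.at' c) : p = q := by
  cases p
  cases q
  congr 1
  exact Finsupp.ext h

instance : OrderTop Cn where
  top := ⟨0⟩
  le_top _ _ hc := absurd rfl hc

theorem fin (p : Cn) : {c | p.at' c ≠ 0}.Finite := by
  refine (p.f.support.finite_toSet).subset fun c hc => ?_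
  exact Finset.mem_coe.2 (Finsupp.mem_support_iff.2 hc)

/-- A condition from a function. -/
noncomputable def of (f : V × ℕ → ZMod 3) (h : {c | f c ≠ 0}.Finite) : Cn :=
  ⟨Finsupp.ofSupportFinite f h⟩

@[simp] theorem of_at (f : V × ℕ → ZMod 3) (h : {c | f c ≠ 0}.Finite) (c : V × ℕ) :
    (of f h).at' c = f c := rfl

/-- The flip. -/
def fl (b : Bool) (x : ZMod 3) : ZMod 3 := bif b then -x else x

theorem fl_fl (b b' : Bool) (x : ZMod 3) : fl b (fl b' x) = fl (xor b b') x := by
  cases b <;> cases b' <;> simp [fl]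

theorem fl_zero (b : Bool) (x : ZMod 3) : fl b x = 0 ↔ x = 0 := by
  cases b <;> simp [fl]

theorem fl_inj (b : Bool) (x y : ZMod 3) : fl b x = fl b y ↔ x = y := by
  cases b <;> simp [fl]

/-- The action. -/
noncomputable def mkF (h : V ≃+ V) (t : V × ℕ → Bool) (p : Cn) : Cn :=
  of (fun c => fl (t c) (p.at' (h.symm c.1, c.2))) (by
    refine Set.Finite.subset ((p.fin).preimage
      (f := fun c : V × ℕ => (h.symm c.1, c.2)) ?_) ?_
    · intro a _ b _ hab
      have h1 : h.symm a.1 = h.symm b.1 := (Prod.ext_iff.1 hab).1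
      have h2 : a.2 = b.2 := (Prod.ext_iff.1 hab).2
      exact Prod.ext (h.symm.injective h1) h2
    · intro c hc
      have hc' : fl (t c) (p.at' (h.symm c.1, c.2)) ≠ 0 := hc
      exact fun h0 => hc' ((fl_zero _ _).2 h0))

theorem mkF_at (h : V ≃+ V) (t : V × ℕ → Bool) (p : Cn) (c : V × ℕ) :
    (mkF h t p).at' c = fl (t c) (p.at' (h.symm c.1, c.2)) := rfl

/-- The automorphism. -/
noncomputable def sm (h : V ≃+ V) (t : V × ℕ → Bool) : Cn ≃o Cn where
  toFun := mkF h t
  invFun := mkF h.symm fun c => t (h c.1, c.2)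
  left_inv p := ext' fun c => by
    rw [mkF_at, mkF_at, fl_fl]
    simp [fl]
  right_inv p := ext' fun c => by
    rw [mkF_at, mkF_at, fl_fl]
    simp [fl]
  map_rel_iff' := by
    intro q p
    change mkF h t q ≤ mkF h t p ↔ q ≤ p
    rw [le_iff, le_iff]
    constructor
    · intro h1 c hc
      have h2 := h1 (h c.1, c.2)
      simp only [mkF_at, AddEquiv.symm_apply_apply, ne_eq, fl_zero, fl_inj] at h2
      exact h2 hc
    · intro h1 c hc
      rw [mkF_at, ne_eq, fl_zero] at hc
      rw [mkF_at, mkF_at, fl_inj]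
      exact h1 _ hc

theorem mk_at (h : V ≃+ V) (t : V × ℕ → Bool) (p : Cn) (c : V × ℕ) :
    (sm h t p).at' c = fl (t c) (p.at' (h.symm c.1, c.2)) := rfl

theorem mk_inv (h : V ≃+ V) (t : V × ℕ → Bool) :
    (sm h t)⁻¹ = sm h.symm fun c => t (h c.1, c.2) := by
  ext p
  rfl

theorem mk_mul (h h' : V ≃+ V) (t t' : V × ℕ → Bool) :
    sm h t * sm h' t' = sm (h'.trans h) fun c => xor (t c) (t' (h.symm c.1, c.2)) := by
  refine RelIso.ext fun p => ext' fun c => ?_
  change (sm h t (sm h' t' p)).at' c = _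
  rw [mk_at, mk_at, mk_at, fl_fl]
  rfl

theorem mk_one : sm (AddEquiv.refl V) (fun _ => false) = 1 := by
  refine RelIso.ext fun p => ext' fun c => ?_
  rw [mk_at]
  rfl

open Classical in
/-- One cell. -/
noncomputable def sg (c : V × ℕ) (x : ZMod 3) : Cn :=
  of (fun d => if d = c then x else 0) ((Set.finite_singleton c).subset fun d hd => by
    by_contra h
    exact hd (if_neg h))

open Classical in
theorem sg_at (c : V × ℕ) (x : ZMod 3) (d : V × ℕ) :
    (sg c x).at' d = if d = c then x else 0 := rfl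

theorem le_sg {c : V × ℕ} {x : ZMod 3} {p : Cn} (hx : x ≠ 0) : p ≤ sg c x ↔ p.at' c = x := by
  classical
  rw [le_iff]
  constructor
  · intro h
    have h1 := h c
    rw [sg_at, if_pos rfl] at h1
    exact h1 hx
  · intro h d hd
    rw [sg_at] at hd ⊢
    by_cases hdc : d = c
    · subst hdc
      rw [if_pos rfl]
      exact h
    · rw [if_neg hdc] at hd
      exact absurd rfl hd

theorem mk_sg (h : V ≃+ V) (t : V × ℕ → Bool) (a : V) (n : ℕ) (x : ZMod 3) :
    sm h t (sg (a, n) x) = sg (h a, n) (fl (t (h a, n)) x) := by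
  classical
  refine ext' fun c => ?_
  rw [mk_at, sg_at, sg_at]
  by_cases hc : c = (h a, n)
  · subst hc
    simp
  · rw [if_neg hc, if_neg, (fl_zero _ _).2 rfl]
    intro h1
    apply hc
    have h2 : h.symm c.1 = a := (Prod.ext_iff.1 h1).1
    have h3 : c.2 = n := (Prod.ext_iff.1 h1).2
    refine Prod.ext ?_ h3
    rw [← h2]
    simp

theorem mk_inj {h h' : V ≃+ V} {t t' : V × ℕ → Bool} (he : sm h t = sm h' t') (a : V) :
    h a = h' a := by
  classical
  have h1 : sm h t (sg (a, 0) 1) = sm h' t' (sg (a, 0) 1) := by rw [he]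
  rw [mk_sg, mk_sg] at h1
  have h2 : (sg (h a, 0) (fl (t (h a, 0)) 1)).at' (h a, 0) =
    (sg (h' a, 0) (fl (t' (h' a, 0)) 1)).at' (h a, 0) := by rw [h1]
  rw [sg_at, sg_at, if_pos rfl] at h2
  by_contra hne
  rw [if_neg] at h2
  · rw [fl_zero] at h2
    exact absurd h2 (by decide)
  · intro h3
    exact hne (Prod.ext_iff.1 h3).1

end Cn

open Cn

/-- The group that fixes `e`. -/
def FxC (U : V → Prop) (e : Finset V) : Set (Cn ≃o Cn) :=
  {σ | ∃ (h : V ≃+ V) (t : V × ℕ → Bool), Aut U e h ∧ {c | t c = true}.Finite ∧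
    (∀ a ∈ e, ∀ n, t (a, n) = false) ∧ σ = Cn.sm h t}

open Classical in
/-- The map of the atoms. -/
noncomputable def hmC (σ : Cn ≃o Cn) : V → V :=
  if hh : ∃ (h : V ≃+ V) (t : V × ℕ → Bool), σ = Cn.sm h t then hh.choose else id

theorem hmC_mk (h : V ≃+ V) (t : V × ℕ → Bool) (a : V) : hmC (Cn.sm h t) a = h a := by
  have hh : ∃ (h' : V ≃+ V) (t' : V × ℕ → Bool), Cn.sm h t = Cn.sm h' t' := ⟨h, t, rfl⟩
  rw [hmC, dif_pos hh]
  obtain ⟨t', ht'⟩ := hh.choose_spec
  exact (mk_inj ht' a).symm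

theorem fin_pre {t : V × ℕ → Bool} (ht : {c | t c = true}.Finite) (h : V ≃+ V) :
    {c : V × ℕ | t (h c.1, c.2) = true}.Finite := by
  refine ht.preimage (f := fun c : V × ℕ => (h c.1, c.2)) ?_
  intro a _ b _ hab
  have h1 : h a.1 = h b.1 := (Prod.ext_iff.1 hab).1
  have h2 : a.2 = b.2 := (Prod.ext_iff.1 hab).2
  exact Prod.ext (h.injective h1) h2

theorem FxC_mul {U : V → Prop} {e : Finset V} {σ τ : Cn ≃o Cn} (hσ : σ ∈ FxC U e)
    (hτ : τ ∈ FxC U e) : σ * τ ∈ FxC U e := by
  obtain ⟨h, t, h1, h2, h3, rfl⟩ := hσ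
  obtain ⟨h', t', h1', h2', h3', rfl⟩ := hτ
  refine ⟨h'.trans h, _, ⟨fun v => ?_, fun v hv => ?_⟩, ?_, fun a ha n => ?_, mk_mul _ _ _ _⟩
  · rw [AddEquiv.trans_apply, h1.1, h1'.1]
  · rw [AddEquiv.trans_apply, h1'.2 v hv, h1.2 v hv]
  · refine (h2.union (fin_pre h2' h.symm)).subset fun c hc => ?_
    have hc' : xor (t c) (t' (h.symm c.1, c.2)) = true := hc
    by_contra hn
    have h4 : t c ≠ true ∧ t' (h.symm c.1, c.2) ≠ true :=
      ⟨fun h5 => hn (Or.inl h5), fun h5 => hn (Or.inr h5)⟩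
    rw [Bool.eq_false_iff.2 h4.1, Bool.eq_false_iff.2 h4.2] at hc'
    exact absurd hc' (by decide)
  · have h4 : h.symm a = a := h.symm_apply_eq.2 (h1.2 a ha).symm
    change xor (t (a, n)) (t' (h.symm a, n)) = false
    rw [h4, h3 a ha, h3' a ha]
    rfl

theorem FxC_inv {U : V → Prop} {e : Finset V} {σ : Cn ≃o Cn} (hσ : σ ∈ FxC U e) :
    σ⁻¹ ∈ FxC U e := by
  obtain ⟨h, t, h1, h2, h3, rfl⟩ := hσ
  refine ⟨h.symm, _, ⟨fun v => ?_, fun v hv => ?_⟩, fin_pre h2 h, fun a ha n => ?_, mk_inv _ _⟩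
  · rw [← h1.1 (h.symm v), h.apply_symm_apply]
  · exact h.symm_apply_eq.2 (h1.2 v hv).symm
  · change t (h a, n) = false
    rw [h1.2 a ha]
    exact h3 a ha n

/-- The symmetric system. -/
noncomputable def sysC (U : V → Prop) : Sys Cn V where
  Fx := FxC U
  one e := ⟨AddEquiv.refl V, fun _ => false, ⟨fun _ => Iff.rfl, fun _ _ => rfl⟩, by simp,
    fun _ _ _ => rfl, mk_one.symm⟩
  mul _ _ _ := FxC_mul
  inv _ _ := FxC_inv
  mono e e' he := by
    rintro σ ⟨h, t, h1, h2, h3, rfl⟩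
    exact ⟨h, t, ⟨h1.1, fun v hv => h1.2 v (he hv)⟩, h2, fun a ha => h3 a (he ha), rfl⟩
  hm := hmC
  conj := by
    rintro σ ⟨h, t, h1, h2, h3, rfl⟩ e τ ⟨k, s, h1', h2', h3', rfl⟩
    have hσ0 : Cn.sm h t ∈ FxC U ∅ := ⟨h, t, h1, h2, h3, rfl⟩
    have hτ0 : Cn.sm k s ∈ FxC U ∅ := ⟨k, s, ⟨h1'.1, fun v hv => absurd hv (by simp)⟩, h2',
      fun a ha => absurd ha (by simp), rfl⟩
    have hall : (Cn.sm h t)⁻¹ * Cn.sm k s * Cn.sm h t ∈ FxC U ∅ :=
      FxC_mul (FxC_mul (FxC_inv hσ0) hτ0) hσ0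
    have he : ∀ a ∈ e, k (h a) = h a ∧ (∀ n, s (h a, n) = false) := by
      intro a ha
      have h4 : h a ∈ e.image (hmC (Cn.sm h t)) := Finset.mem_image.2 ⟨a, ha, hmC_mk h t a⟩
      exact ⟨h1'.2 _ h4, fun n => h3' _ h4 n⟩
    rw [mk_inv, mk_mul, mk_mul]
    refine ⟨_, _, ⟨fun v => ?_, fun v hv => ?_⟩, ?_, fun a ha n => ?_, rfl⟩
    · change U (h.symm (k (h v))) ↔ U v
      rw [← h1.1 (h.symm (k (h v))), h.apply_symm_apply, h1'.1, h1.1]
    · change h.symm (k (h v)) = v
      rw [(he v hv).1, h.symm_apply_apply]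
    · have hf1 := fin_pre h2 h
      have hf2 := fin_pre h2' h
      have hf3 := fin_pre h2 (h.trans k.symm)
      refine ((hf1.union hf2).union hf3).subset fun c hc => ?_
      have hc' : xor (xor (t (h c.1, c.2)) (s (h c.1, c.2))) (t (k.symm (h c.1), c.2)) =
        true := hc
      by_contra hn
      have h5 : t (h c.1, c.2) = false :=
        Bool.eq_false_iff.2 fun h6 => hn (Or.inl (Or.inl h6))
      have h6 : s (h c.1, c.2) = false :=
        Bool.eq_false_iff.2 fun h6 => hn (Or.inl (Or.inr h6))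
      have h7 : t (k.symm (h c.1), c.2) = false :=
        Bool.eq_false_iff.2 fun h6 => hn (Or.inr h6)
      rw [h5, h6, h7] at hc'
      exact absurd hc' (by decide)
    · change xor (xor (t (h a, n)) (s (h a, n))) (t (k.symm (h a), n)) = false
      have h4 : k.symm (h a) = h a := k.symm_apply_eq.2 (he a ha).1.symm
      rw [h4, (he a ha).2]
      cases t (h a, n) <;> rfl

/-! ### The names -/

open Classical in
/-- The digit. -/
noncomputable def dg (s : Finset ℕ) (n : ℕ) : ZMod 3 := if n ∈ s then 1 else 2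

theorem dg_ne (s : Finset ℕ) (n : ℕ) : dg s n ≠ 0 := by
  unfold dg
  split_ifs <;> decide

variable (U : V → Prop)

/-- The modified reals. -/
noncomputable def ra (a : V) (s : Finset ℕ) : (sysC U).H :=
  mkH (sysC U) (ι := ℕ) (fun n => nnH (sysC U) n) (fun n => sg (a, n) (dg s n)) {a} (by
    rintro σ hσ n q hq q' hq'
    have h0 := hσ
    obtain ⟨h, t, h1, h2, h3, rfl⟩ := hσ
    refine ⟨q', le_rfl, n, ?_, nnH_sp n _ (Sys.mem0 _ h0) q'⟩
    have h4 : Cn.sm h t (sg (a, n) (dg s n)) = sg (a, n) (dg s n) := by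
      rw [mk_sg, h1.2 a (by simp), h3 a (by simp)]
      rfl
    exact hq'.trans (hq.trans (le_of_eq h4)))

theorem act_ra {h : V ≃+ V} {t : V × ℕ → Bool} (h0 : Cn.sm h t ∈ (sysC U).Fx ∅) (a : V)
    {s s' : Finset ℕ} (hs : ∀ n, fl (t (h a, n)) (dg s n) = dg s' n) (p : Cn) :
    feq (act (Cn.sm h t) (ra U a s).1) (ra U (h a) s').1 p := by
  have h4 : ∀ n, Cn.sm h t (sg (a, n) (dg s n)) = sg (h a, n) (dg s' n) := fun n => by
    rw [mk_sg, hs]
  refine feq_of_mem (fun i q hq h5 => ?_) (fun n q hq h5 => ?_)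
  · obtain ⟨n, rfl⟩ := ai_surj _ (ra U a s).1 i
    rw [act_B] at h5
    rw [act_A]
    have h6 : q ≤ sg (h a, n) (dg s' n) := le_trans h5 (le_of_eq (h4 n))
    exact fmem_of (y := (ra U (h a) s').1) n h6 (nnH_sp n _ h0 q)
  · have h6 : q ≤ Cn.sm h t (sg (a, n) (dg s n)) := le_trans h5 (le_of_eq (h4 n).symm)
    exact fmem_act_el (x := (ra U a s).1) n h6 (feq_symm (nnH_sp n _ h0 q))

theorem exists_sd {t : V × ℕ → Bool} (ht : {c | t c = true}.Finite) (b : V) (s : Finset ℕ) :
    ∃ s' : Finset ℕ, (∀ n, fl (t (b, n)) (dg s n) = dg s' n) ∧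
      ∀ n, fl (t (b, n)) (dg s' n) = dg s n := by
  classical
  have h1 : {n : ℕ | t (b, n) = true}.Finite := by
    refine ht.preimage (f := fun n : ℕ => (b, n)) ?_
    intro m _ n _ h
    exact (Prod.ext_iff.1 h).2
  have key : ∀ n, fl (t (b, n)) (dg s n) = dg (symmDiff s h1.toFinset) n := by
    intro n
    simp only [dg, Finset.mem_symmDiff, Set.Finite.mem_toFinset, Set.mem_ofPred_eq]
    cases htn : t (b, n) with
    | false => simp [fl]
    | true =>
      by_cases hn : n ∈ s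
      · simp only [fl, hn]
        simp
        decide
      · simp only [fl, hn]
        simp
        decide
  refine ⟨symmDiff s h1.toFinset, key, fun n => ?_⟩
  rw [← key, fl_fl]
  simp [fl]

/-- The atoms. -/
noncomputable def ptC (a : V) : (sysC U).H :=
  mkH (sysC U) (ι := Finset ℕ) (fun s => ra U a s) (fun _ => ⊤) {a} (by
    intro σ hσ s q _ q' hq'
    have h0 := Sys.mem0 _ hσ
    obtain ⟨h, t, h1, h2, h3, rfl⟩ := hσ
    obtain ⟨s', hs, _⟩ := exists_sd h2 (h a) s
    refine ⟨q', le_rfl, s', le_top, ?_⟩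
    have h5 := act_ra U h0 a hs q'
    rw [h1.2 a (by simp)] at h5
    exact h5)

theorem act_ptC (σ : Cn ≃o Cn) (hσ : σ ∈ (sysC U).Fx ∅) (a : V) (p : Cn) :
    feq (act σ (ptC U a).1) (ptC U ((sysC U).hm σ a)).1 p := by
  have h0 := hσ
  obtain ⟨h, t, h1, h2, h3, rfl⟩ := hσ
  have h4 : (sysC U).hm (Cn.sm h t) a = h a := hmC_mk h t a
  rw [h4]
  refine feq_of_mem (fun i q hq _ => ?_) (fun s q hq _ => ?_)
  · obtain ⟨s, rfl⟩ := ai_surj _ (ptC U a).1 i
    rw [act_A]
    obtain ⟨s', hs, _⟩ := exists_sd h2 (h a) s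
    exact fmem_of (y := (ptC U (h a)).1) s' le_top (act_ra U h0 a hs q)
  · obtain ⟨s', _, hs⟩ := exists_sd h2 (h a) s
    exact fmem_act_el (x := (ptC U a).1) s' ((OrderIso.symm_apply_le _).1 le_top)
      (feq_symm (act_ra U h0 a hs q))

theorem not_self {P : Type} [Preorder P] (x : Nm P) : ∀ p, ¬ fmem x x p := by
  induction x with
  | mk ι A B ih =>
    intro p h
    obtain ⟨r, hr, j, h1, h2⟩ := h p le_rfl
    have h3 := fmem_mono h hr
    exact ih j r (fmem_congr_left h2 (fmem_congr_right h2 h3))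

theorem nn_mem {m n : ℕ} (h : m < n) (p : Cn) :
    fmem (nnH (sysC U) m).1 (nnH (sysC U) n).1 p := by
  induction n with
  | zero => exact absurd h (Nat.not_lt_zero m)
  | succ n ih =>
    rcases Nat.lt_succ_iff_lt_or_eq.1 h with h | rfl
    · intro q hq
      obtain ⟨r, hr, i, h1, h2⟩ := ih h q hq
      exact ⟨r, hr, some i, h1, h2⟩
    · exact fmem_of (y := (sucH (nnH (sysC U) m)).1) none le_top (feq_refl _ _)

theorem nn_inj {m n : ℕ} {p : Cn} (h : feq (nnH (sysC U) m).1 (nnH (sysC U) n).1 p) : m = n := by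
  rcases lt_trichotomy m n with h1 | h1 | h1
  · exact absurd (fmem_congr_left h (nn_mem U h1 p)) (not_self _ p)
  · exact h1
  · exact absurd (fmem_congr_left (feq_symm h) (nn_mem U h1 p)) (not_self _ p)

theorem ne_ptC (a b : V) (p : Cn) (h : feq (ptC U a).1 (ptC U b).1 p) : a = b := by
  classical
  by_contra hab
  have h1 : fmem (ra U a ∅).1 (ptC U a).1 p :=
    fmem_of (y := (ptC U a).1) (∅ : Finset ℕ) le_top (feq_refl _ _)
  have h2 : ∃ r, r ≤ p ∧ ∃ s : Finset ℕ, feq (ra U a ∅).1 (ra U b s).1 r := by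
    obtain ⟨r, hr, s, _, h2⟩ := (fmem_congr_right h h1) p le_rfl
    exact ⟨r, hr, s, h2⟩
  obtain ⟨r, hr, s, h2'⟩ := h2
  -- a new place
  have h3 : ({n | r.at' (a, n) ≠ 0} ∪ {n | r.at' (b, n) ≠ 0} ∪ (s : Set ℕ)).Finite := by
    refine (Set.Finite.union ?_ ?_).union s.finite_toSet
    · refine r.fin.preimage (f := fun n : ℕ => (a, n)) ?_
      intro m _ n _ h
      exact (Prod.ext_iff.1 h).2
    · refine r.fin.preimage (f := fun n : ℕ => (b, n)) ?_
      intro m _ n _ h
      exact (Prod.ext_iff.1 h).2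
  obtain ⟨n, hn⟩ := h3.exists_notMem
  have hna : r.at' (a, n) = 0 := by
    by_contra h4
    exact hn (Or.inl (Or.inl h4))
  have hnb : r.at' (b, n) = 0 := by
    by_contra h4
    exact hn (Or.inl (Or.inr h4))
  have hns : n ∉ s := fun h4 => hn (Or.inr h4)
  let r' : Cn := Cn.of (fun c => if c = (a, n) then 2 else if c = (b, n) then 1 else r.at' c) (by
    refine (r.fin.union ((Set.finite_singleton (a, n)).union
      (Set.finite_singleton (b, n)))).subset fun c hc => ?_
    by_contra h4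
    have h5 : c ≠ (a, n) := fun h5 => h4 (Or.inr (Or.inl h5))
    have h6 : c ≠ (b, n) := fun h5 => h4 (Or.inr (Or.inr h5))
    have h7 : r.at' c = 0 := by
      by_contra h7
      exact h4 (Or.inl h7)
    have hc' : (if c = (a, n) then (2 : ZMod 3) else if c = (b, n) then 1 else r.at' c) ≠ 0 := hc
    rw [if_neg h5, if_neg h6] at hc'
    exact hc' h7)
  have hr' : r' ≤ r := by
    rw [le_iff]
    intro c hc
    have h5 : c ≠ (a, n) := fun h5 => by rw [h5] at hc; exact hc hna
    have h6 : c ≠ (b, n) := fun h5 => by rw [h5] at hc; exact hc hnb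
    change (if c = (a, n) then (2 : ZMod 3) else if c = (b, n) then 1 else r.at' c) = _
    rw [if_neg h5, if_neg h6]
  have ha' : r'.at' (a, n) = 2 := by
    change (if (a, n) = (a, n) then (2 : ZMod 3) else _) = _
    rw [if_pos rfl]
  have hb' : r'.at' (b, n) = 1 := by
    change (if (b, n) = (a, n) then (2 : ZMod 3) else if (b, n) = (b, n) then 1 else _) = _
    rw [if_neg, if_pos rfl]
    intro h5
    exact hab (Prod.ext_iff.1 h5).1.symm
  have h4 : fmem (nnH (sysC U) n).1 (ra U a ∅).1 r' := by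
    refine fmem_of (y := (ra U a ∅).1) n ?_ (feq_refl _ _)
    change r' ≤ sg (a, n) (dg ∅ n)
    rw [le_sg (dg_ne _ _), ha']
    simp [dg]
  obtain ⟨r2, hr2, m, h5, h6⟩ := (fmem_congr_right (feq_mono h2' hr') h4) r' le_rfl
  have h7 : n = m := nn_inj U h6
  subst h7
  have h8 : r2 ≤ sg (b, n) (dg s n) := h5
  rw [le_sg (dg_ne _ _)] at h8
  have h9 : r2.at' (b, n) = r'.at' (b, n) := hr2 (b, n) (by
    change r'.at' (b, n) ≠ 0
    rw [hb']
    decide)
  rw [h8, hb'] at h9
  simp only [dg, if_neg hns] at h9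
  exact absurd h9 (by decide)

open Classical in
/-- The restriction. -/
noncomputable def rsC (e : Finset V) (p : Cn) : Cn :=
  of (fun c => if c.1 ∈ e then p.at' c else 0) (p.fin.subset fun c hc h => hc (by
    change p.at' c = 0 at h
    simp only [h]
    split_ifs <;> rfl))

open Classical in
theorem rsC_at (e : Finset V) (p : Cn) (c : V × ℕ) :
    (rsC e p).at' c = if c.1 ∈ e then p.at' c else 0 := rfl

theorem neg_eq : ∀ x y : ZMod 3, x ≠ 0 → y ≠ 0 → x ≠ y → -x = y := by decide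

/-- The structure. -/
noncomputable def psC : PS U (sysC U) where
  pt := ptC U
  act_pt := act_ptC U
  ne_pt := ne_ptC U
  hm_fix := by
    rintro e σ ⟨h, t, h1, h2, h3, rfl⟩ a ha
    change hmC _ a = a
    rw [hmC_mk]
    exact h1.2 a ha
  hm_add := by
    rintro σ ⟨h, t, h1, h2, h3, rfl⟩ a b
    change hmC _ _ = hmC _ _ + hmC _ _
    rw [hmC_mk, hmC_mk, hmC_mk]
    exact map_add h a b
  hm_U := by
    rintro σ ⟨h, t, h1, h2, h3, rfl⟩ a
    change U (hmC _ _) ↔ _
    rw [hmC_mk]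
    exact h1.1 a
  rs := rsC
  le_rs e p := by
    classical
    rw [le_iff]
    intro c hc
    rw [rsC_at] at hc ⊢
    by_cases h : c.1 ∈ e
    · rw [if_pos h]
    · rw [if_neg h] at hc
      exact absurd rfl hc
  ex e h hh := by
    classical
    refine ⟨Cn.sm h fun _ => false, ⟨h, _, hh, by simp, fun _ _ _ => rfl, rfl⟩,
      fun a => hmC_mk _ _ a, fun p => ext' fun c => ?_⟩
    rw [mk_at, rsC_at, rsC_at]
    change (if h.symm c.1 ∈ e then p.at' (h.symm c.1, c.2) else 0) = _
    by_cases hc : c.1 ∈ e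
    · have h4 : h.symm c.1 = c.1 := h.symm_apply_eq.2 (hh.2 _ hc).symm
      rw [h4]
    · rw [if_neg hc, if_neg]
      intro h4
      have h5 := hh.2 _ h4
      rw [h.apply_symm_apply] at h5
      rw [← h5] at h4
      exact hc h4
  compat e p q hq := by
    classical
    let t : V × ℕ → Bool := fun c => decide (c.1 ∉ e ∧ p.at' c ≠ 0 ∧ q.at' c ≠ 0 ∧
      p.at' c ≠ q.at' c)
    have ht : {c | t c = true}.Finite := p.fin.subset fun c hc => by
      have h1 : t c = true := hc
      simp only [t, decide_eq_true_eq] at h1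
      exact h1.2.1
    refine ⟨Cn.sm (AddEquiv.refl V) t, ⟨_, t, ⟨fun _ => Iff.rfl, fun _ _ => rfl⟩, ht,
      fun a ha n => ?_, rfl⟩, fun a => hmC_mk _ _ a, ?_⟩
    · simp [t, ha]
    · refine ⟨of (fun c => if q.at' c ≠ 0 then q.at' c else fl (t c) (p.at' c)) ?_, ?_, ?_⟩
      · refine (p.fin.union q.fin).subset fun c hc => ?_
        by_contra hn
        have h1 : p.at' c = 0 := by
          by_contra h1
          exact hn (Or.inl h1)
        have h2 : q.at' c = 0 := by
          by_contra h1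
          exact hn (Or.inr h1)
        apply hc
        simp only [h1, h2]
        simp [fl_zero]
      · rw [le_iff]
        intro c hc
        rw [mk_at] at hc
        rw [mk_at, of_at]
        change fl (t c) (p.at' c) ≠ 0 at hc
        change _ = fl (t c) (p.at' c)
        by_cases hqc : q.at' c ≠ 0
        · rw [if_pos hqc]
          rw [ne_eq, fl_zero] at hc
          by_cases hce : c.1 ∈ e
          · have h1 := le_iff.1 hq c (by
              change (rsC e p).at' c ≠ 0
              rw [rsC_at, if_pos hce]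
              exact hc)
            have h2 : q.at' c = (rsC e p).at' c := h1
            rw [rsC_at, if_pos hce] at h2
            have h3 : t c = false := by simp [t, hce]
            rw [h2, h3]
            rfl
          · by_cases heq : p.at' c = q.at' c
            · have h3 : t c = false := by simp [t, heq]
              rw [h3, heq]
              rfl
            · have h3 : t c = true := by
                simp only [t, decide_eq_true_eq]
                exact ⟨hce, hc, hqc, heq⟩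
              rw [h3]
              exact (neg_eq _ _ hc hqc heq).symm
        · rw [if_neg hqc]
      · rw [le_iff]
        intro c hc
        rw [of_at, if_pos hc]

theorem taskPS : TaskPS := fun U => ⟨Cn, inferInstance, inferInstance, inferInstance, sysC U,
  ⟨psC U⟩⟩

end Pool.Agent.H839R3.Nas
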