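import Pool.Agent.H839R3.Nas.Stmts2

/-!
# Definability and supports
-/

namespace Pool.Agent.H839R3.Nas

open Nm GenD FirstOrder FirstOrder.Language
open Pool.Agent.Helper672.Plain (LSet Mem Sym IsPair IsOrdPair)
open Pool.Agent.H310Cards

theorem upd_trans {P : Type} [Preorder P] {S : Sys P V} {ψ : Fm} {w w' : ℕ → S.H} {i : ℕ}
    {x : S.H} {q : P} (h : ∀ n, n < ψ.bd → feq (w n).1 (w' n).1 q)
    (h1 : forces ψ (Function.update w i x) q) : forces ψ (Function.update w' i x) q := by
  classical
  have h2 : forces ψ (Function.update (fun n => if n < ψ.bd then w' n else w n) i x) q := by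
    refine forces_congr (fun n => ?_) h1
    by_cases hn : n = i
    · subst hn
      simp only [Function.update_self]
      exact feq_refl _ _
    · simp only [Function.update_of_ne hn]
      by_cases hb : n < ψ.bd
      · rw [if_pos hb]
        exact h n hb
      · rw [if_neg hb]
        exact feq_refl _ _
  refine (forces_bd fun n hn => ?_).1 h2
  by_cases hni : n = i
  · subst hni
    simp
  · simp only [Function.update_of_ne hni]
    rw [if_pos hn]

theorem taskDfn : TaskDfn := by
  classical
  intro P _ _ S O J op pr g e ι p hp v z hv h0 huniq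
  obtain ⟨φ, hφ⟩ := (Set.empty_definable_iff).1 hp
  have hφ' : ∀ u, p u ↔ φ.Realize u := fun u => by
    have h1 : u ∈ {v | p v} ↔ u ∈ Set.ofPred φ.Realize := by rw [hφ]
    exact h1
  have hc : _root_.Countable (g.N ⊕ Unit) := by
    have := g.countable_N
    infer_instance
  obtain ⟨enc, henc⟩ := hc.exists_injective_nat
  obtain ⟨zn, hzT, rfl⟩ := g.exists_vl z
  let em : g.N := g.vl _ g.emp
  let ψ : Fm := conv enc (φ.relabel (Sum.map v id))
  let i0 : ℕ := 2 * enc (Sum.inr ())
  have hdata : ∀ a : g.N, ∃ (w y : S.H) (hw : w ∈ g.T),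
      g.vl w hw = (if supN g e a then a else em) ∧ S.Sp e y.1 ∧
        ∃ q, q ∈ g.G ∧ feq w.1 y.1 q := by
    intro a
    by_cases ha : supN g e a
    · obtain ⟨x, hx, rfl⟩ := g.exists_vl a
      have ha' := ha
      rw [supN_iff] at ha'
      obtain ⟨y, h1, q, hq, h2⟩ := ha'
      exact ⟨x, y, hx, by rw [if_pos ha], h1, q, hq, h2⟩
    · obtain ⟨q, hq⟩ := g.ne
      exact ⟨S.emp, S.emp, g.emp, by rw [if_neg ha], (emp_sp (S := S)).mono S
        (Finset.empty_subset _), q, hq, feq_refl _ _⟩
  choose dw dy hdw hd1 hd2 hd3 using hdata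
  let dc : ℕ → g.N := fun n => if hn : ∃ a : g.N, n = 2 * enc (Sum.inl a) then hn.choose else em
  have hdc : ∀ a, dc (2 * enc (Sum.inl a)) = a := by
    intro c
    have hn : ∃ c', 2 * enc (Sum.inl c) = 2 * enc (Sum.inl c') := ⟨c, rfl⟩
    simp only [dc, dif_pos hn]
    have h1 := hn.choose_spec
    exact (Sum.inl_injective (henc (by omega))).symm
  let wn : ℕ → S.H := fun n => dw (dc n)
  have hwn : ∀ n, wn n ∈ g.T := fun n => hdw _
  have hkey : ∀ a, Sat ψ (Function.update (fun n => g.vl (wn n) (hwn n)) i0 a) ↔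
      p (Sum.elim v fun _ => a) := by
    intro a
    rw [hφ']
    refine (conv_spec enc (φ.relabel (Sum.map v id))
      (Sum.elim (fun b => if supN g e b then b else em) (fun _ => a)) default _
      (fun c => ?_) (fun i => i.elim0)).symm.trans ?_
    · rcases c with b | u
      · have h1 : 2 * enc (Sum.inl b) ≠ i0 := by
          intro h2
          have h3 : enc (Sum.inl b) = enc (Sum.inr ()) := by
            change 2 * enc (Sum.inl b) = 2 * enc (Sum.inr ()) at h2
            omega
          exact absurd (henc h3) (by simp)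
        rw [Function.update_of_ne h1]
        change g.vl (dw (dc (2 * enc (Sum.inl b)))) _ = if supN g e b then b else em
        have h4 := hd1 (dc (2 * enc (Sum.inl b)))
        rw [h4, hdc]
      · cases u
        have h5 : (Function.update (fun n => g.vl (wn n) (hwn n)) i0 a) i0 = a :=
          Function.update_self _ _ _
        exact h5
    · refine Formula.realize_relabel.trans ?_
      have h1 : (Sum.elim (fun b => if supN g e b then b else em) (fun _ => a)) ∘ (Sum.map v id) =
          (Sum.elim v fun _ => a : ι ⊕ Unit → g.N) := by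
        funext c
        rcases c with i | u
        · simp only [Function.comp, Sum.map_inl, Sum.elim_inl]
          rw [if_pos (hv i)]
        · rfl
      rw [h1]
  -- the formula is forced
  obtain ⟨p1, hp1, hF1⟩ := (g.truth_upd hwn hzT i0).1 ((hkey _).2 h0)
  -- uniqueness is forced
  let m : ℕ := ψ.bd + i0 + 1
  have hm0 : m ≠ i0 := by
    change ψ.bd + i0 + 1 ≠ i0
    omega
  have hF2' : ∃ p, p ∈ g.G ∧ forces (.all i0 (.imp ψ (.eq i0 m))) (Function.update wn m zn) p := by
    refine (g.truth_upd hwn hzT m).1 ?_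
    intro a h1
    have h2 : Sat ψ (Function.update (fun n => g.vl (wn n) (hwn n)) i0 a) := by
      refine (sat_bd fun k hk => ?_).1 h1
      have hkm : k ≠ m := by
        change k ≠ ψ.bd + i0 + 1
        omega
      by_cases hki : k = i0
      · subst hki
        simp
      · simp only [Function.update_of_ne hki, Function.update_of_ne hkm]
    have h3 := huniq a ((hkey a).1 h2)
    simp only [Sat, Function.update_self, Function.update_of_ne hm0]
    exact h3
  obtain ⟨p2, hp2, hF2'⟩ := hF2'
  have hF2 : ∀ (x : S.H) q, q ≤ p2 → forces ψ (Function.update wn i0 x) q →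
      feq x.1 zn.1 q := by
    intro x q hq h1
    have h2 : forces ψ (Function.update (Function.update wn m zn) i0 x) q := by
      refine (forces_bd fun k hk => ?_).1 h1
      have hkm : k ≠ m := by
        change k ≠ ψ.bd + i0 + 1
        omega
      by_cases hki : k = i0
      · subst hki
        simp
      · simp only [Function.update_of_ne hki, Function.update_of_ne hkm]
    have h3 := hF2' x q hq h2
    simp only [forces, Function.update_self, Function.update_of_ne hm0] at h3
    exact h3
  obtain ⟨p3, hp3, hF3⟩ := fin_meet g (Φ := fun n q => feq (wn n).1 (dy (dc n)).1 q)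
    (fun n p q h hq => feq_mono h hq) (fun n => hd3 _) ψ.bd
  let Y : ℕ → S.H := fun n => dy (dc n)
  have hY : ∀ n, S.Sp e (Y n).1 := fun n => hd2 _
  obtain ⟨p', hp', h1'⟩ : ∃ p, p ∈ g.G ∧ (p ≤ p1 ∧ p ≤ p2 ∧ p ≤ p3) := by
    obtain ⟨r, hr, h1, h2⟩ := g.dir p1 p2 hp1 hp2
    obtain ⟨s, hs, h3, h4⟩ := g.dir r p3 hr hp3
    exact ⟨s, hs, h3.trans h1, h3.trans h2, h4⟩
  obtain ⟨hq1, hq2, hq3⟩ := h1'
  -- the name
  let ix : Type := {a : ({σ : P ≃o P // σ ∈ S.Fx e} × zn.1.I) × P // a.2 ≤ a.1.1.1 (zn.1.B a.1.2) ∧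
    forces ψ (Function.update Y i0 (zn.ac a.1.1.1 (Sys.mem0 S a.1.1.2))) a.2}
  let An : ix → S.H := fun a => (zn.el a.1.1.2).ac a.1.1.1.1 (Sys.mem0 S a.1.1.1.2)
  let Bn : ix → P := fun a => a.1.2
  have hsp : ∀ σ ∈ S.Fx e, ∀ (i : ix) q, q ≤ σ (Bn i) →
      fmem (act σ (An i).1) ⟨ix, fun i => (An i).1, Bn⟩ q := by
    rintro τ hτ ⟨⟨⟨⟨σ, hσ⟩, i⟩, r⟩, h1, h2⟩ q hq q' hq'
    have hq0 : q' ≤ τ r := hq'.trans hq
    have h1' : r ≤ σ (zn.1.B i) := h1
    have h3 : q' ≤ (τ * σ) (zn.1.B i) := hq0.trans (τ.monotone h1')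
    have hτσ : τ * σ ∈ S.Fx e := S.mul _ _ _ hτ hσ
    have h4 : forces ψ (Function.update Y i0 (zn.ac (τ * σ) (Sys.mem0 S hτσ))) q' := by
      refine forces_mono ?_ hq0
      refine forces_act (Sys.mem0 S hτ) (fun n => ?_) h2
      by_cases hn : n = i0
      · subst hn
        simp only [Function.update_self]
        change feq (act τ (act σ zn.1)) (act (τ * σ) zn.1) _
        rw [act_mul]
        exact feq_refl _ _
      · simp only [Function.update_of_ne hn]
        exact hY n τ hτ _
    refine ⟨q', le_rfl, ⟨((⟨τ * σ, hτσ⟩, i), q'), h3, h4⟩, le_rfl, ?_⟩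
    change feq (act τ (act σ (zn.1.A i))) (act (τ * σ) (zn.1.A i)) _
    rw [act_mul]
    exact feq_refl _ _
  let zh : S.H := mkH S An Bn e hsp
  have hzh : S.Sp e zh.1 := sp_of hsp
  have hfeq : feq zn.1 zh.1 p' := by
    refine feq_of_mem (fun i q hq hi => ?_) (fun a q hq ha => ?_)
    · intro q' hq'
      have h1 : forces ψ (Function.update Y i0 zn) q' := by
        refine upd_trans (fun n hn => ?_) (forces_mono hF1 ((hq'.trans hq).trans hq1))
        exact feq_mono (hF3 n hn) ((hq'.trans hq).trans hq3)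
      have h2 : zn.ac 1 (Sys.mem0 S (S.one e)) = zn := Subtype.ext (act_one _)
      refine ⟨q', le_rfl, ⟨((⟨1, S.one e⟩, i), q'), hq'.trans hi, ?_⟩, le_rfl, ?_⟩
      · change forces ψ (Function.update Y i0 (zn.ac 1 (Sys.mem0 S (S.one e)))) q'
        rw [h2]
        exact h1
      · change feq (zn.1.A i) (act 1 (zn.1.A i)) q'
        rw [act_one]
        exact feq_refl _ _
    · obtain ⟨⟨⟨⟨σ, hσ⟩, i⟩, r⟩, h1, h2⟩ := a
      have ha' : q ≤ r := ha
      have h1' : r ≤ σ (zn.1.B i) := h1
      have h3 : forces ψ (Function.update wn i0 (zn.ac σ (Sys.mem0 S hσ))) q := by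
        refine upd_trans (w := Y) (fun n hn => ?_) (forces_mono h2 ha')
        exact feq_symm (feq_mono (hF3 n hn) (hq.trans hq3))
      have h4 := hF2 _ q (hq.trans hq2) h3
      have h5 : fmem (act σ (zn.1.A i)) (act σ zn.1) q :=
        fmem_act_el i (ha'.trans h1') (feq_refl _ _)
      exact fmem_congr_right h4 h5
  exact (supN_iff g).2 ⟨zh, hzh, p', hp', hfeq⟩

end Pool.Agent.H839R3.Nas
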