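import Pool.Agent.H839R3.Nas.Stmts2

/-!
# The family of the sets of subsets with one more point in the support
-/

namespace Pool.Agent.H839R3.Nas

open Nm GenD FirstOrder FirstOrder.Language
open Pool.Agent.Helper672.Plain (LSet Mem Sym IsPair IsOrdPair)
open Pool.Agent.H310Cards

theorem dir3 {P : Type} [Preorder P] {S : Sys P V} {O J : Type}
    {op : O → List S.H → S.H} {pr : J → List S.H → P → Prop} (g : GenD S op pr)
    {a b c : P} (ha : a ∈ g.G) (hb : b ∈ g.G) (hc : c ∈ g.G) :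
    ∃ p, p ∈ g.G ∧ p ≤ a ∧ p ≤ b ∧ p ≤ c := by
  obtain ⟨r, hr, h1, h2⟩ := g.dir a b ha hb
  obtain ⟨s, hs, h3, h4⟩ := g.dir r c hr hc
  exact ⟨s, hs, h3.trans h1, h3.trans h2, h4⟩

theorem fm_sp {U : V → Prop} {P : Type} [Preorder P] [OrderTop P] {S : Sys P V} (ps : PS U S)
    (y : S.H) (e : Finset V) (hy : S.Sp e y.1) : S.Sp e (ps.fm y e hy).1 := by
  refine sp_of ?_
  rintro σ hσ ⟨⟨⟨b, c⟩, q⟩, hc⟩ q1 hq1 q' hq'
  have h0 := Sys.mem0 S hσ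
  obtain ⟨z, h1, h2, h3⟩ := hc
  have h4 : S.Sp (insert (S.hm σ b) e) (z.ac σ h0).1 := by
    have h5 := Sys.Sp.act S h1 h0
    have h6 : (insert b e).image (S.hm σ) = insert (S.hm σ b) e := by
      rw [Finset.image_insert]
      congr 1
      ext v
      simp only [Finset.mem_image]
      constructor
      · rintro ⟨a, ha, rfl⟩
        rw [ps.hm_fix e σ hσ a ha]
        exact ha
      · intro ha
        exact ⟨v, ha, ps.hm_fix e σ hσ v ha⟩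
    rwa [h6] at h5
  have h5 : fsub (z.ac σ h0).1 y.1 (σ q) :=
    fsub_trans (fsub_act' σ h2) (fsub_of_feq (hy σ hσ _))
  have h6 : Cs y (insert (S.hm σ b) e) (cd y.1 (z.ac σ h0).1) (σ q) := ⟨_, h4, h5, rfl⟩
  have hq2 : q' ≤ σ q := hq'.trans hq1
  refine ⟨q', le_rfl, ⟨((S.hm σ b, cd y.1 (z.ac σ h0).1), q'), h6.mono hq2⟩,
    le_rfl, ?_⟩
  refine feq_trans (act_opH h0 q') (opH_congr (ps.act_pt σ h0 b q') ?_)
  have h7 : feq (act σ (sbN y.1 c)) (act σ z.1) (σ q) := by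
    refine feq_act' σ (feq_symm ?_)
    have h3' : cd y.1 z.1 = c := h3
    have h8 : feq z.1 (sbN y.1 (cd y.1 z.1)) q := cd_spec h2
    rw [h3'] at h8
    exact h8
  exact feq_mono (feq_trans h7 (cd_spec h5)) hq2

theorem taskFam : TaskFam := by
  intro U P _ _ S ps g Y e hY
  obtain ⟨Y, hYT, rfl⟩ := g.exists_vl Y
  obtain ⟨y0, h0, q0, hq0, h1⟩ := (supN_iff g).1 hY
  obtain ⟨y, hy, h2, hT⟩ := ps.exists_fm g hYT ⟨y0, h0, h1⟩
  refine ⟨g.vl _ hT, (supN_iff g).2 ⟨ps.fm y e hy, fm_sp ps y e hy, q0, hq0, feq_refl _ _⟩,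
    fun z => ?_⟩
  obtain ⟨z, hz, rfl⟩ := g.exists_vl z
  constructor
  · intro h
    obtain ⟨⟨⟨⟨b, c⟩, r⟩, hc⟩, p, hp, hpr, h3⟩ := g.mem_vl'.1 h
    have hpr' : p ≤ r := hpr
    have h3' : feq z.1 (opH (ps.pt b) ⟨sbN y.1 c, (hc.HS hy).2⟩).1 p := h3
    obtain ⟨z', hz', h4⟩ := ps.exists_snd g hz ⟨_, h3'⟩
    have h10 : feq (sbN y.1 c) z'.1 p := (op_inj (feq_trans (feq_symm h3') h4)).2
    refine ⟨b, g.vl z' hz', (g.isOrdPair_iff (ps.T_pt g b) hz').2 (g.vl_eq.2 ⟨p, hp, h4⟩),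
      ?_, ?_⟩
    · intro w hw
      obtain ⟨w, hwT, rfl⟩ := g.exists_vl w
      obtain ⟨p1, hp1, h5⟩ := g.mem_vl.1 hw
      obtain ⟨p3, hp3, h6, h7, h8⟩ := dir3 g hp hp1 hq0
      refine g.mem_vl.2 ⟨p3, hp3, ?_⟩
      exact fmem_congr_right (feq_symm (feq_mono h2 h8)) (fsub_mem (sbN_sub _ _ _)
        (fmem_congr_right (feq_symm (feq_mono h10 h6)) (fmem_mono h5 h7)))
    · have hc' : Cs y (insert b e) c r := hc
      obtain ⟨u, hu, h5⟩ := (hc'.mono hpr').spec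
      exact (supN_iff g).2 ⟨u, hu, p, hp, feq_trans (feq_symm h10) (feq_symm h5)⟩
  · rintro ⟨b, Z, h3, h4, h5⟩
    obtain ⟨Z, hZ, rfl⟩ := g.exists_vl Z
    have h3' := (g.isOrdPair_iff (ps.T_pt g b) hZ).1 h3
    obtain ⟨p1, hp1, h6⟩ := g.vl_eq.1 h3'
    obtain ⟨p2, hp2, h7⟩ := g.nsub hZ hYT h4
    obtain ⟨u, hu, p3, hp3, h8⟩ := (supN_iff g).1 h5
    obtain ⟨p4, hp4, h9, h10, h11⟩ := dir3 g hp1 hp2 hp3
    obtain ⟨p, hp, h12, h13⟩ := g.dir p4 q0 hp4 hq0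
    have h14 : fsub u.1 y.1 p := fsub_congr (feq_mono h8 (h12.trans h11)) (feq_mono h2 h13)
      (fsub_mono h7 (h12.trans h10))
    have h15 : Cs y (insert b e) (cd y.1 u.1) p := ⟨u, hu, h14, rfl⟩
    refine g.mem_vl'.2 ⟨⟨((b, cd y.1 u.1), p), h15⟩, p, hp, le_rfl, ?_⟩
    exact feq_trans (feq_mono h6 (h12.trans h9)) (opH_congr (feq_refl _ _)
      (feq_trans (feq_mono h8 (h12.trans h11)) (cd_spec h14)))

end Pool.Agent.H839R3.Nas
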