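import Pool.Agent.H839R3.Nas.Stmts2

/-!
# The natural numbers of the extension are standard
-/

namespace Pool.Agent.H839R3.Nas

open Nm GenD FirstOrder FirstOrder.Language
open Pool.Agent.Helper672.Plain (LSet Mem Sym IsPair IsOrdPair)
open Pool.Agent.H310Cards

theorem ordInj {P : Type} [Preorder P] [OrderTop P] {S : Sys P V} {O J : Type}
    {op : O → List S.H → S.H} {pr : J → List S.H → P → Prop} (g : GenD S (zop op) pr)
    {q x y x' y' : g.N} (h : IsOrdPair q x y) (h' : IsOrdPair q x' y') : x = x' ∧ y = y' := by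
  obtain ⟨x, hx, rfl⟩ := g.exists_vl x
  obtain ⟨y, hy, rfl⟩ := g.exists_vl y
  obtain ⟨x', hx', rfl⟩ := g.exists_vl x'
  obtain ⟨y', hy', rfl⟩ := g.exists_vl y'
  rw [g.isOrdPair_iff hx hy] at h
  rw [g.isOrdPair_iff hx' hy', h] at h'
  obtain ⟨p, hp, h1⟩ := g.vl_eq.1 h'
  exact ⟨g.vl_eq.2 ⟨p, hp, (op_inj h1).1⟩, g.vl_eq.2 ⟨p, hp, (op_inj h1).2⟩⟩

theorem taskStd : TaskStd := by
  intro P _ _ S O J op pr g x hx
  obtain ⟨n, f, hn, hf⟩ := hx
  have h1 : ∃ m, n = g.vl _ (g.T_nn m) := by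
    have h2 := hn (g.vl _ g.T_om) (by
      refine ⟨⟨g.vl _ (g.T_nn 0), (g.mem_om _).2 ⟨0, rfl⟩, fun z hz => ?_⟩,
        fun n hn => ?_⟩
      · obtain ⟨z, hzT, rfl⟩ := g.exists_vl z
        obtain ⟨i, _⟩ := g.mem_vl'.1 hz
        exact Empty.elim i
      · obtain ⟨z, hzT, rfl⟩ := g.exists_vl n
        obtain ⟨n, hn⟩ := (g.mem_om _).1 hn
        refine ⟨g.vl _ (g.T_nn (n + 1)), (g.mem_om _).2 ⟨n + 1, rfl⟩, fun z => ?_⟩
        obtain ⟨z, hzT, rfl⟩ := g.exists_vl z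
        rw [hn]
        exact g.mem_suc (g.T_nn n) (g.T_nn (n + 1)) hzT)
    obtain ⟨n, hnT, rfl⟩ := g.exists_vl n
    exact (g.mem_om _).1 h2
  obtain ⟨m, rfl⟩ := h1
  have h2 : ∀ m, {y | Mem y (g.vl _ (g.T_nn m))}.Finite := by
    intro m
    induction m with
    | zero =>
      refine Set.Finite.subset Set.finite_empty fun y hy => ?_
      have hy' : Mem y (g.vl _ (g.T_nn 0)) := hy
      obtain ⟨y, hyT, rfl⟩ := g.exists_vl y
      obtain ⟨i, _⟩ := g.mem_vl'.1 hy'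
      exact Empty.elim i
    | succ m ih =>
      refine (ih.union (Set.finite_singleton (g.vl _ (g.T_nn m)))).subset fun y hy => ?_
      have hy' : Mem y (g.vl _ (g.T_nn (m + 1))) := hy
      obtain ⟨y, hyT, rfl⟩ := g.exists_vl y
      rcases (g.mem_suc (g.T_nn m) (g.T_nn (m + 1)) hyT).1 hy' with h3 | h3
      · exact Or.inl h3
      · exact Or.inr h3
  obtain ⟨⟨⟨hf1, hf2⟩, hf3⟩, hf4⟩ := hf
  have h3 : ∀ y, Mem y x → ∃ z, App f y z ∧ Mem z (g.vl _ (g.T_nn m)) := by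
    intro y hy
    obtain ⟨z, hz, _⟩ := hf2 y hy
    refine ⟨z, hz, ?_⟩
    obtain ⟨q, hq1, hq2⟩ := hz
    obtain ⟨a, b, ha, hb, hab⟩ := hf1 q hq2
    rw [(ordInj g hq1 hab).2]
    exact hb
  classical
  let F : g.N → g.N := fun y => if h : Mem y x then (h3 y h).choose else y
  have hF : ∀ y (h : Mem y x), App f y (F y) ∧ Mem (F y) (g.vl _ (g.T_nn m)) := by
    intro y h
    simp only [F, dif_pos h]
    exact (h3 y h).choose_spec
  refine Set.Finite.of_finite_image ((h2 m).subset ?_) (f := F) ?_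
  · rintro _ ⟨y, hy, rfl⟩
    exact (hF y hy).2
  · intro y hy y' hy' he
    have h4 := (hF y hy).1
    have h5 := (hF y' hy').1
    rw [← he] at h5
    exact hf3 _ _ _ h4 h5

end Pool.Agent.H839R3.Nas
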