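import Pool.Agent.H839R3.Nas.Stmts2

/-!
# The well-ordering of the subsets with a given support
-/

set_option autoImplicit false

namespace Pool.Agent.H839R3.Nas

open Nm GenD FirstOrder FirstOrder.Language
open Pool.Agent.Helper672.Plain (LSet Mem Sym IsPair IsOrdPair)
open Pool.Agent.H310Cards

namespace WoAux

section codes

variable {P : Type} [Preorder P] [OrderTop P] {S : Sys P V} {O J : Type}
  {op : O → List S.H → S.H} {pr : J → List S.H → P → Prop}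

theorem wlt_tri {Y : S.H} (c d : Set (Y.1.I × P)) : wlt c d ∨ c = d ∨ wlt d c :=
  trichotomous_of WellOrderingRel c d

theorem wlt_trans {Y : S.H} {c d k : Set (Y.1.I × P)} (h1 : wlt c d) (h2 : wlt d k) : wlt c k :=
  trans_of WellOrderingRel h1 h2

theorem wlt_irrefl {Y : S.H} (c : Set (Y.1.I × P)) : ¬ wlt c c :=
  irrefl_of WellOrderingRel c

theorem wlt_min {Y : S.H} (Q : Set (Y.1.I × P) → Prop) (h : ∃ c, Q c) :
    ∃ c, Q c ∧ ∀ k, wlt k c → ¬ Q k := by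
  obtain ⟨c, hc, hm⟩ := (IsWellFounded.wf (r := WellOrderingRel (α := Set (Y.1.I × P)))).has_min
    {c | Q c} h
  exact ⟨c, hc, fun k hk hQ => hm k hQ hk⟩

variable (g : GenD S op pr)

/-- `c` is a code of `a`. -/
def Kd (Y : S.H) (e : Finset V) (c : Set (Y.1.I × P)) (a : g.N) : Prop :=
  ∃ x hx, g.vl x hx = a ∧ ∃ q, q ∈ g.G ∧ Cs Y e c q ∧ feq x.1 (sbN Y.1 c) q

theorem Kd_iff {Y : S.H} {e : Finset V} {c : Set (Y.1.I × P)} {x : S.H} {hx : x ∈ g.T} :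
    Kd g Y e c (g.vl x hx) ↔ ∃ q, q ∈ g.G ∧ Cs Y e c q ∧ feq x.1 (sbN Y.1 c) q := by
  constructor
  · rintro ⟨x', hx', h1, q, hq, h2, h3⟩
    obtain ⟨p, hp, h4⟩ := g.vl_eq.1 h1
    obtain ⟨r, hr, h5, h6⟩ := g.dir q p hq hp
    exact ⟨r, hr, h2.mono h5, feq_trans (feq_symm (feq_mono h4 h6)) (feq_mono h3 h5)⟩
  · exact fun h => ⟨x, hx, rfl, h⟩

theorem Kd_eq {Y : S.H} {e : Finset V} {c : Set (Y.1.I × P)} {a b : g.N}
    (ha : Kd g Y e c a) (hb : Kd g Y e c b) : a = b := by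
  obtain ⟨x, hx, rfl, q, hq, _, h1⟩ := ha
  obtain ⟨y, hy, rfl, q', hq', _, h2⟩ := hb
  obtain ⟨r, hr, h3, h4⟩ := g.dir q q' hq hq'
  exact g.vl_eq.2 ⟨r, hr, feq_trans (feq_mono h1 h3) (feq_symm (feq_mono h2 h4))⟩

/-- `c` is the least code of `a`. -/
def Ls (Y : S.H) (e : Finset V) (c : Set (Y.1.I × P)) (a : g.N) : Prop :=
  Kd g Y e c a ∧ ∀ k, wlt k c → ¬ Kd g Y e k a

theorem Ls_ex {Y : S.H} {e : Finset V} {a : g.N} (h : ∃ c, Kd g Y e c a) :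
    ∃ c, Ls g Y e c a := wlt_min _ h

theorem Ls_uniq {Y : S.H} {e : Finset V} {c d : Set (Y.1.I × P)} {a : g.N}
    (h1 : Ls g Y e c a) (h2 : Ls g Y e d a) : c = d := by
  rcases wlt_tri c d with h | h | h
  · exact absurd h1.1 (h2.2 c h)
  · exact h
  · exact absurd h2.1 (h1.2 d h)

end codes

section main

variable {U : V → Prop} {P : Type} [Preorder P] [OrderTop P] {S : Sys P V} (ps : PS U S)
  (g : GenD S (zop ps.op) (prP (S := S)))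

theorem mem_wX {Y : S.H} (hY : Y ∈ g.T) (e : Finset V) (Z : g.N) :
    Mem Z (g.vl _ (ps.T_wX g hY e)) ↔ ∃ c, Kd g Y e c Z := by
  obtain ⟨z, hz, rfl⟩ := g.exists_vl Z
  rw [g.mem_vl']
  constructor
  · rintro ⟨⟨⟨c, q0⟩, hc⟩, p, hp, h1, h2⟩
    have h1' : p ≤ q0 := h1
    have hc' : Cs Y e c q0 := hc
    exact ⟨c, (Kd_iff g).2 ⟨p, hp, hc'.mono h1', h2⟩⟩
  · rintro ⟨c, hc⟩
    obtain ⟨q, hq, h1, h2⟩ := (Kd_iff g).1 hc
    exact ⟨⟨(c, q), h1⟩, q, hq, le_rfl, h2⟩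

theorem mem_wX' {Y : S.H} (hY : Y ∈ g.T) (e : Finset V) (Z : g.N) :
    Mem Z (g.vl _ (ps.T_wX g hY e)) ↔ (∀ z, Mem z Z → Mem z (g.vl Y hY)) ∧ supN g e Z := by
  rw [mem_wX ps g hY e]
  obtain ⟨Z, hZ, rfl⟩ := g.exists_vl Z
  constructor
  · rintro ⟨c, hc⟩
    obtain ⟨q, hq, h1, h2⟩ := (Kd_iff g).1 hc
    constructor
    · intro a ha
      obtain ⟨a, haT, rfl⟩ := g.exists_vl a
      obtain ⟨p, hp, h3⟩ := g.mem_vl.1 ha
      obtain ⟨r, hr, h4, h5⟩ := g.dir p q hp hq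
      refine g.mem_vl.2 ⟨r, hr, ?_⟩
      exact fsub_mem (sbN_sub Y.1 c r) (fmem_congr_right (feq_mono h2 h5) (fmem_mono h3 h4))
    · obtain ⟨z, h3, h4⟩ := h1.spec
      exact (supN_iff g).2 ⟨z, h3, q, hq, feq_trans h2 (feq_symm h4)⟩
  · rintro ⟨h1, h2⟩
    obtain ⟨p, hp, h3⟩ := g.nsub hZ hY h1
    obtain ⟨y, h4, q, hq, h5⟩ := (supN_iff g).1 h2
    obtain ⟨r, hr, h6, h7⟩ := g.dir p q hp hq
    have h8 : fsub y.1 Y.1 r :=
      fsub_congr (feq_mono h5 h7) (feq_refl _ _) (fsub_mono h3 h6)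
    refine ⟨cd Y.1 y.1, (Kd_iff g).2 ⟨r, hr, ⟨y, h4, h8, rfl⟩, ?_⟩⟩
    exact feq_trans (feq_mono h5 h7) (cd_spec h8)

theorem app_wR {Y : S.H} (hY : Y ∈ g.T) (e : Finset V) (a b : g.N) :
    App (g.vl _ (ps.T_wR g hY e)) a b ↔
      ∃ c d, Ls g Y e c a ∧ Ls g Y e d b ∧ wlt c d := by
  obtain ⟨x, hx, rfl⟩ := g.exists_vl a
  obtain ⟨y, hy, rfl⟩ := g.exists_vl b
  constructor
  · intro h
    rw [g.app_iff hx hy (ps.T_wR g hY e)] at h
    obtain ⟨⟨⟨⟨c, d⟩, q0⟩, hR⟩, p, hp, h1, h2⟩ := h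
    have h1' : p ≤ q0 := h1
    have hR' : Rc Y e c d p := Rc.mono (show Rc Y e c d q0 from hR) h1'
    have h3 := op_inj (x' := ⟨sbN Y.1 c, (hR'.left.HS Y.sp.choose_spec).2⟩)
      (y' := ⟨sbN Y.1 d, (hR'.right.HS Y.sp.choose_spec).2⟩) h2
    obtain ⟨h3, h4⟩ := h3
    have hc : Kd g Y e c (g.vl x hx) := (Kd_iff g).2 ⟨p, hp, hR'.left, h3⟩
    have hd : Kd g Y e d (g.vl y hy) := (Kd_iff g).2 ⟨p, hp, hR'.right, h4⟩
    obtain ⟨c0, hc0⟩ := Ls_ex g ⟨c, hc⟩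
    obtain ⟨d0, hd0⟩ := Ls_ex g ⟨d, hd⟩
    refine ⟨c0, d0, hc0, hd0, ?_⟩
    -- no code of `y` is at most `c`
    have key : ∀ k, (k = c ∨ wlt k c) → ¬ Kd g Y e k (g.vl y hy) := by
      intro k hk h5
      obtain ⟨q, hq, h6, h7⟩ := (Kd_iff g).1 h5
      obtain ⟨r, hr, h8, h9⟩ := g.dir p q hp hq
      exact hR'.lt k hk r h8 (h6.mono h9)
        (feq_trans (feq_symm (feq_mono h7 h9)) (feq_mono h4 h8))
    have hle : c0 = c ∨ wlt c0 c := by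
      rcases wlt_tri c0 c with h | h | h
      · exact Or.inr h
      · exact Or.inl h
      · exact absurd hc (hc0.2 c h)
    rcases wlt_tri c0 d0 with h | h | h
    · exact h
    · subst h
      exact absurd hd0.1 (key _ hle)
    · refine absurd hd0.1 (key _ (Or.inr ?_))
      rcases hle with h' | h'
      · rw [← h']
        exact h
      · exact wlt_trans h h'
  · rintro ⟨c, d, ⟨h1, h2⟩, ⟨h3, h4⟩, hcd⟩
    obtain ⟨q, hq, hc1, hc2⟩ := (Kd_iff g).1 h1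
    obtain ⟨q', hq', hd1, hd2⟩ := (Kd_iff g).1 h3
    have hL : Lst Y e x q c :=
      ⟨⟨hc1, hc2⟩, fun k hk h => h2 k hk ((Kd_iff g).2 ⟨q, hq, h.1, h.2⟩)⟩
    obtain ⟨p, hp, h5⟩ := g.dec (.inl (e, q)) [Y, x, y] (by simp [hY, hx, hy])
    rcases h5 with h5 | h5
    · exfalso
      have h5' : ∃ c : Set (Y.1.I × P), Lst Y e x q c ∧
        ∃ k, (k = c ∨ wlt k c) ∧ Cs Y e k p ∧ feq y.1 (sbN Y.1 k) p := h5
      obtain ⟨c', hL', k, hk, hk1, hk2⟩ := h5'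
      have hcc : c' = c := by
        rcases wlt_tri c' c with h | h | h
        · exact absurd hL'.1 (hL.2 c' h)
        · exact h
        · exact absurd hL.1 (hL'.2 c h)
      subst hcc
      have h6 : Kd g Y e k (g.vl y hy) := (Kd_iff g).2 ⟨p, hp, hk1, hk2⟩
      have h7 : wlt k d := by
        rcases hk with hk | hk
        · rw [hk]
          exact hcd
        · exact wlt_trans hk hcd
      exact h4 k h7 h6
    · obtain ⟨s1, hs1, h6, h7⟩ := g.dir p q hp hq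
      obtain ⟨s, hs, h8, h9⟩ := g.dir s1 q' hs1 hq'
      have hR : Rc Y e c d s := by
        refine ⟨hc1.mono (h8.trans h7), hd1.mono h9, fun k hk t ht hk' h10 => ?_⟩
        refine h5 t (ht.trans (h8.trans h6)) ?_
        have h11 : ∃ c : Set (Y.1.I × P), Lst Y e x q c ∧
          ∃ k, (k = c ∨ wlt k c) ∧ Cs Y e k t ∧ feq y.1 (sbN Y.1 k) t :=
          ⟨c, hL, k, hk, hk', feq_trans (feq_mono hd2 (ht.trans h9)) (feq_symm h10)⟩
        exact h11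
      rw [g.app_iff hx hy (ps.T_wR g hY e)]
      refine ⟨⟨((c, d), s), hR⟩, s, hs, le_rfl, ?_⟩
      exact opH_congr (x' := ⟨sbN Y.1 c, (hR.left.HS Y.sp.choose_spec).2⟩)
        (y' := ⟨sbN Y.1 d, (hR.right.HS Y.sp.choose_spec).2⟩)
        (feq_mono hc2 (h8.trans h7)) (feq_mono hd2 h9)

end main

end WoAux

open WoAux in
theorem taskWo : TaskWo := by
  intro U P _ _ S ps g Y e
  obtain ⟨Y, hY, rfl⟩ := g.exists_vl Y
  refine ⟨g.vl _ (ps.T_wX g hY e), g.vl _ (ps.T_wR g hY e), mem_wX' ps g hY e, ?_⟩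
  have happ := app_wR ps g hY e
  have hmem := mem_wX ps g hY e
  constructor
  · intro x h
    obtain ⟨c, d, h1, h2, h3⟩ := (happ x x).1 h
    rw [Ls_uniq g h1 h2] at h3
    exact wlt_irrefl _ h3
  · intro x y z h h'
    obtain ⟨c, d, h1, h2, h3⟩ := (happ x y).1 h
    obtain ⟨c', d', h4, h5, h6⟩ := (happ y z).1 h'
    have := Ls_uniq g h2 h4
    subst this
    exact (happ x z).2 ⟨c, d', h1, h5, wlt_trans h3 h6⟩
  · intro x y hx hy
    obtain ⟨c, hc⟩ := Ls_ex g ((hmem x).1 hx)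
    obtain ⟨d, hd⟩ := Ls_ex g ((hmem y).1 hy)
    rcases wlt_tri c d with h | h | h
    · exact Or.inr (Or.inl ((happ x y).2 ⟨c, d, hc, hd, h⟩))
    · subst h
      exact Or.inl (Kd_eq g hc.1 hd.1)
    · exact Or.inr (Or.inr ((happ y x).2 ⟨d, c, hd, hc, h⟩))
  · intro s hs ⟨a, ha⟩
    obtain ⟨c, ⟨x, hx, hc⟩, hm⟩ := wlt_min (Y := Y) (fun c => ∃ x, Mem x s ∧ Ls g Y e c x) (by
      obtain ⟨c, hc⟩ := Ls_ex g ((hmem a).1 (hs a ha))
      exact ⟨c, a, ha, hc⟩)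
    refine ⟨x, hx, fun y hy => ?_⟩
    obtain ⟨d, hd⟩ := Ls_ex g ((hmem y).1 (hs y hy))
    rcases wlt_tri c d with h | h | h
    · exact Or.inr ((happ x y).2 ⟨c, d, hc, hd, h⟩)
    · subst h
      exact Or.inl (Kd_eq g hd.1 hc.1)
    · exact absurd ⟨y, hy, hd⟩ (hm d h)

end Pool.Agent.H839R3.Nas
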