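import Pool.Agent.H839R3.Nas.Conc
import Pool.Agent.H839R3.Nas.StdP
import Pool.Agent.H839R3.Nas.FamP
import Pool.Agent.H839R3.Nas.DfnP
import Pool.Agent.H839R3.Nas.Wo
import Pool.Agent.H237R3.Nas.U
import Pool.Agent.H532R3.Nas.H
import Pool.Agent.H62R3.Nas.Top1
import Pool.Agent.H509R3.Nas.Lim
import Pool.Agent.H77R3.Nas.Top2
import Pool.Agent.H663R5.Top3
import Pool.Agent.H214R3.NasT.Split
import Pool.Agent.H246R3.Fto
import Pool.Agent.H343R3.Nas.Acl
import Pool.Agent.H630R3.Nas.D
import Pool.Agent.H790.Nas.Nas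

/-!
# A model of ZF without amorphous sets in which an infinite discrete space has only scattered
Hausdorff compactifications
-/

namespace Pool.Agent.H839R3.NasFinal

open FirstOrder FirstOrder.Language
open Pool.Agent.Helper672.Plain (LSet)
open Pool.Agent.H635Amen (ZF)
open Pool.Agent.H839R3.Nas

/-- There is a model of ZF in which NAS holds (there are no amorphous sets) and INSHC fails (some
infinite discrete space has only scattered Hausdorff compactifications). -/
theorem exists_model : ∃ (N : Type 1) (_ : LSet.Structure N), ZF N ∧ NAS N ∧ ¬ INSHC N :=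
  final Pool.Agent.H237R3.Nas.taskU Pool.Agent.H532R3.Nas.H.taskH Pool.Agent.H62R3.Nas.taskTop1
    Pool.Agent.H509R3.Nas.taskLim Pool.Agent.H77R3.Nas.taskTop2
    Pool.Agent.H663R5.Top3.taskTop3 Pool.Agent.H214R3.NasT.taskSplit
    Pool.Agent.H246R3.Fto.taskFto Pool.Agent.H343R3.Nas.taskAcl
    Pool.Agent.H630R3.NasD.taskD Pool.Agent.H790.Nas.taskNas
    (modelOf taskStd taskDfn taskWo taskFam taskPS)

end Pool.Agent.H839R3.NasFinal
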