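import Pool.Agent.H839R3.Nas.Name

/-!
# Symmetric names and forcing
-/

namespace Pool.Agent.H839R3.Nas

open Nm

/-- A symmetric system: groups of automorphisms that fix finite sets of atoms. -/
structure Sys (P V : Type) [Preorder P] [DecidableEq V] where
  Fx : Finset V → Set (P ≃o P)
  one : ∀ e, 1 ∈ Fx e
  mul : ∀ e σ τ, σ ∈ Fx e → τ ∈ Fx e → σ * τ ∈ Fx e
  inv : ∀ e σ, σ ∈ Fx e → σ⁻¹ ∈ Fx e
  mono : ∀ e e', e ⊆ e' → Fx e' ⊆ Fx e
  hm : (P ≃o P) → V → V
  conj : ∀ σ ∈ Fx ∅, ∀ e, ∀ τ ∈ Fx (e.image (hm σ)), σ⁻¹ * τ * σ ∈ Fx e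

variable {P V : Type} [Preorder P] [DecidableEq V] (S : Sys P V)

/-- `e` is a support of the name `x`. -/
def Sys.Sp (e : Finset V) (x : Nm P) : Prop := ∀ σ ∈ S.Fx e, ∀ p, feq (act σ x) x p

/-- Hereditarily symmetric names. -/
def Sys.HS : Nm P → Prop
  | ⟨ι, A, B⟩ => (∃ e, S.Sp e ⟨ι, A, B⟩) ∧ ∀ i, Sys.HS (A i)

theorem Sys.HS_iff (x : Nm P) : S.HS x ↔ (∃ e, S.Sp e x) ∧ ∀ i, S.HS (x.A i) := by
  cases x; rfl

theorem Sys.Sp.mono {e e' : Finset V} {x : Nm P} (h : S.Sp e x) (he : e ⊆ e') : S.Sp e' x :=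
  fun σ hσ p => h σ (S.mono _ _ he hσ) p

theorem Sys.mem0 {e : Finset V} {σ : P ≃o P} (h : σ ∈ S.Fx e) : σ ∈ S.Fx ∅ :=
  S.mono _ _ (Finset.empty_subset _) h

theorem Sys.Sp.act {e : Finset V} {x : Nm P} (h : S.Sp e x) {σ : P ≃o P} (hσ : σ ∈ S.Fx ∅) :
    S.Sp (e.image (S.hm σ)) (Nm.act σ x) := by
  intro τ hτ p
  have h1 := h _ (S.conj σ hσ e τ hτ) (σ⁻¹ p)
  have h2 := feq_act' σ h1
  rwa [← act_mul, app_inv, ← mul_assoc, ← mul_assoc, mul_inv_cancel, one_mul, act_mul] at h2

theorem Sys.HS.act {x : Nm P} (h : S.HS x) {σ : P ≃o P} (hσ : σ ∈ S.Fx ∅) :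
    S.HS (Nm.act σ x) := by
  induction x with
  | mk ι A B ih =>
    obtain ⟨⟨e, h1⟩, h2⟩ := h
    exact ⟨⟨_, Sys.Sp.act S h1 hσ⟩, fun i => ih i (h2 i)⟩

/-- The type of hereditarily symmetric names. -/
def Sys.H : Type 1 := {x : Nm P // S.HS x}

variable {S}

/-- An element of a name. -/
def Sys.H.el (x : S.H) (i : x.1.I) : S.H := ⟨x.1.A i, ((S.HS_iff _).1 x.2).2 i⟩

/-- The action on the symmetric names. -/
def Sys.H.ac (σ : P ≃o P) (hσ : σ ∈ S.Fx ∅) (x : S.H) : S.H := ⟨act σ x.1, x.2.act S hσ⟩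

theorem Sys.H.sp (x : S.H) : ∃ e, S.Sp e x.1 := ((S.HS_iff _).1 x.2).1

/-! ### Formulas -/

/-- Formulas of set theory with the variables `0, 1, 2, ...`. -/
inductive Fm : Type
  | fls : Fm
  | eq : ℕ → ℕ → Fm
  | mem : ℕ → ℕ → Fm
  | imp : Fm → Fm → Fm
  | all : ℕ → Fm → Fm
  deriving Encodable

/-- Negation. -/
def Fm.neg (φ : Fm) : Fm := .imp φ .fls

/-- Forcing. -/
def forces : Fm → (ℕ → S.H) → P → Prop
  | .fls, _, _ => False
  | .eq i j, w, p => feq (w i).1 (w j).1 p
  | .mem i j, w, p => fmem (w i).1 (w j).1 p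
  | .imp φ ψ, w, p => ∀ q, q ≤ p → forces φ w q → forces ψ w q
  | .all i φ, w, p => ∀ x : S.H, forces φ (Function.update w i x) p

theorem forces_mono {φ : Fm} : ∀ {w : ℕ → S.H} {p q : P}, forces φ w p → q ≤ p → forces φ w q := by
  induction φ with
  | fls => intro w p q h _; exact h
  | eq i j => intro w p q h hq; exact feq_mono h hq
  | mem i j => intro w p q h hq; exact fmem_mono h hq
  | imp φ ψ _ _ => intro w p q h hq; exact fun r hr => h r (hr.trans hq)
  | all i φ ih => intro w p q h hq; exact fun x => ih (h x) hq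

theorem forces_local {φ : Fm} : ∀ {w : ℕ → S.H} {p : P},
    (∀ q, q ≤ p → ∃ r, r ≤ q ∧ forces φ w r) → forces φ w p := by
  induction φ with
  | fls =>
    intro w p h
    obtain ⟨r, _, h1⟩ := h p le_rfl
    exact h1
  | eq i j => intro w p h; exact feq_local h
  | mem i j => intro w p h; exact fmem_local h
  | imp φ ψ _ ih =>
    intro w p h q hq h1
    refine ih fun r hr => ?_
    obtain ⟨s, hs, h2⟩ := h r (hr.trans hq)
    exact ⟨s, hs, h2 s le_rfl (forces_mono h1 (hs.trans hr))⟩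
  | all i φ ih =>
    intro w p h x
    refine ih fun q hq => ?_
    obtain ⟨r, hr, h1⟩ := h q hq
    exact ⟨r, hr, h1 x⟩

theorem forces_congr {φ : Fm} : ∀ {w w' : ℕ → S.H} {p : P}, (∀ i, feq (w i).1 (w' i).1 p) →
    forces φ w p → forces φ w' p := by
  induction φ with
  | fls => intro w w' p _ h; exact h
  | eq i j =>
    intro w w' p h h1
    exact feq_trans (feq_symm (h i)) (feq_trans h1 (h j))
  | mem i j =>
    intro w w' p h h1
    exact fmem_congr_left (h i) (fmem_congr_right (h j) h1)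
  | imp φ ψ ih1 ih2 =>
    intro w w' p h h1 q hq h2
    exact ih2 (fun i => feq_mono (h i) hq)
      (h1 q hq (ih1 (fun i => feq_symm (feq_mono (h i) hq)) h2))
  | all i φ ih =>
    intro w w' p h h1 x
    refine ih (fun k => ?_) (h1 x)
    by_cases hk : k = i
    · subst hk
      simp only [Function.update_self]
      exact feq_refl _ _
    · simp only [Function.update_of_ne hk]
      exact h k

theorem forces_act' {φ : Fm} (σ : P ≃o P) (hσ : σ ∈ S.Fx ∅) : ∀ {w : ℕ → S.H} {p : P},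
    (forces φ w p ↔ forces φ (fun i => (w i).ac σ hσ) (σ p)) := by
  have hi := S.inv ∅ σ hσ
  induction φ with
  | fls => intro w p; exact Iff.rfl
  | eq i j => intro w p; exact (feq_act σ).symm
  | mem i j => intro w p; exact (fmem_act σ).symm
  | imp φ ψ ih1 ih2 =>
    intro w p
    constructor
    · intro h q hq h1
      have h2 : σ.symm q ≤ p := (OrderIso.symm_apply_le σ).2 hq
      have h3 := (ih1 (w := w) (p := σ.symm q)).2 (by rwa [OrderIso.apply_symm_apply])
      have h4 := (ih2 (w := w) (p := σ.symm q)).1 (h _ h2 h3)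
      rwa [OrderIso.apply_symm_apply] at h4
    · intro h q hq h1
      exact ih2.2 (h _ (σ.monotone hq) (ih1.1 h1))
  | all i φ ih =>
    intro w p
    constructor
    · intro h x
      have h1 := ih.1 (h (x.ac σ⁻¹ hi))
      refine forces_congr (fun k => ?_) h1
      by_cases hk : k = i
      · subst hk
        simp only [Function.update_self]
        change feq (act σ (act σ⁻¹ x.1)) x.1 _
        rw [act_act_inv]
        exact feq_refl _ _
      · simp only [Function.update_of_ne hk]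
        exact feq_refl _ _
    · intro h x
      have h1 := h (x.ac σ hσ)
      refine ih.2 (forces_congr (fun k => ?_) h1)
      by_cases hk : k = i
      · subst hk
        simp only [Function.update_self]
        exact feq_refl _ _
      · simp only [Function.update_of_ne hk]
        exact feq_refl _ _

theorem forces_act {φ : Fm} {σ : P ≃o P} (hσ : σ ∈ S.Fx ∅) {w w' : ℕ → S.H} {p : P}
    (hw : ∀ i, feq (act σ (w i).1) (w' i).1 (σ p)) (h : forces φ w p) : forces φ w' (σ p) :=
  forces_congr hw ((forces_act' σ hσ).1 h)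

theorem forces_neg {φ : Fm} {w : ℕ → S.H} {p : P} :
    forces φ.neg w p ↔ ∀ q, q ≤ p → ¬ forces φ w q := Iff.rfl

theorem exists_neg {φ : Fm} {w : ℕ → S.H} {p : P} (h : ¬ forces φ w p) :
    ∃ q, q ≤ p ∧ forces φ.neg w q := by
  by_contra h1
  apply h
  refine forces_local fun q hq => ?_
  by_contra h2
  apply h1
  exact ⟨q, hq, fun r hr h3 => h2 ⟨r, hr, h3⟩⟩

/-- A bound for the variables. -/
def Fm.bd : Fm → ℕ
  | .fls => 0
  | .eq i j => max i j + 1
  | .mem i j => max i j + 1
  | .imp φ ψ => max φ.bd ψ.bd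
  | .all i φ => max i φ.bd

theorem forces_bd {φ : Fm} : ∀ {w w' : ℕ → S.H} {p : P}, (∀ i, i < φ.bd → w i = w' i) →
    (forces φ w p ↔ forces φ w' p) := by
  induction φ with
  | fls => intro w w' p _; exact Iff.rfl
  | eq i j =>
    intro w w' p h
    simp only [Fm.bd] at h
    simp only [forces, h i (by omega), h j (by omega)]
  | mem i j =>
    intro w w' p h
    simp only [Fm.bd] at h
    simp only [forces, h i (by omega), h j (by omega)]
  | imp φ ψ ih1 ih2 =>
    intro w w' p h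
    simp only [Fm.bd] at h
    have h1 : ∀ q, forces φ w q ↔ forces φ w' q := fun q => ih1 fun i hi => h i (by omega)
    have h2 : ∀ q, forces ψ w q ↔ forces ψ w' q := fun q => ih2 fun i hi => h i (by omega)
    simp only [forces, h1, h2]
  | all i φ ih =>
    intro w w' p h
    simp only [Fm.bd] at h
    simp only [forces]
    refine forall_congr' fun x => ih fun k hk => ?_
    by_cases hki : k = i
    · subst hki
      simp
    · simp only [Function.update_of_ne hki]
      exact h k (by omega)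

end Pool.Agent.H839R3.Nas
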