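import Mathlib

/-!
# Names
-/

namespace Pool.Agent.H839R3.Nas

/-- Names. -/
inductive Nm (P : Type) : Type 1
  | mk (ι : Type) (A : ι → Nm P) (B : ι → P) : Nm P

namespace Nm

variable {P : Type}

/-- The index type. -/
def I : Nm P → Type
  | ⟨ι, _, _⟩ => ι

/-- The elements. -/
def A : (x : Nm P) → x.I → Nm P
  | ⟨_, A, _⟩ => A

/-- The conditions. -/
def B : (x : Nm P) → x.I → P
  | ⟨_, _, B⟩ => B

variable [Preorder P]

/-- Forced equality. -/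
def feq : Nm P → Nm P → P → Prop
  | ⟨ι, A, B⟩, ⟨κ, C, D⟩ => fun p =>
    (∀ i : ι, ∀ q, q ≤ p → q ≤ B i → ∃ r, r ≤ q ∧ ∃ j : κ, r ≤ D j ∧ feq (A i) (C j) r) ∧
    (∀ j : κ, ∀ q, q ≤ p → q ≤ D j → ∃ r, r ≤ q ∧ ∃ i : ι, r ≤ B i ∧ feq (A i) (C j) r)

theorem feq_iff (x y : Nm P) (p : P) : feq x y p ↔
    (∀ i, ∀ q, q ≤ p → q ≤ x.B i → ∃ r, r ≤ q ∧ ∃ j, r ≤ y.B j ∧ feq (x.A i) (y.A j) r) ∧
    (∀ j, ∀ q, q ≤ p → q ≤ y.B j → ∃ r, r ≤ q ∧ ∃ i, r ≤ x.B i ∧ feq (x.A i) (y.A j) r) := by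
  cases x; cases y; rfl

theorem feq_refl (x : Nm P) : ∀ p, feq x x p := by
  induction x with
  | mk ι A B ih =>
    intro p
    rw [feq_iff]
    exact ⟨fun i q _ h => ⟨q, le_rfl, i, h, ih i q⟩, fun i q _ h => ⟨q, le_rfl, i, h, ih i q⟩⟩

theorem feq_symm {x : Nm P} : ∀ {y p}, feq x y p → feq y x p := by
  induction x with
  | mk ι A B ih =>
    intro y p h
    rw [feq_iff] at h ⊢
    refine ⟨fun i q h1 h2 => ?_, fun i q h1 h2 => ?_⟩
    · obtain ⟨r, h3, j, h4, h5⟩ := h.2 i q h1 h2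
      exact ⟨r, h3, j, h4, ih j h5⟩
    · obtain ⟨r, h3, j, h4, h5⟩ := h.1 i q h1 h2
      exact ⟨r, h3, j, h4, ih i h5⟩

theorem feq_mono {x y : Nm P} {p q : P} (h : feq x y p) (hq : q ≤ p) : feq x y q := by
  rw [feq_iff] at h ⊢
  exact ⟨fun i r h1 h2 => h.1 i r (h1.trans hq) h2, fun i r h1 h2 => h.2 i r (h1.trans hq) h2⟩

theorem feq_local {x y : Nm P} {p : P} (h : ∀ q, q ≤ p → ∃ r, r ≤ q ∧ feq x y r) :
    feq x y p := by
  rw [feq_iff]
  refine ⟨fun i q h1 h2 => ?_, fun i q h1 h2 => ?_⟩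
  · obtain ⟨r, h3, h4⟩ := h q h1
    obtain ⟨r', h5, h6⟩ := ((feq_iff _ _ _).1 h4).1 i r le_rfl (h3.trans h2)
    exact ⟨r', h5.trans h3, h6⟩
  · obtain ⟨r, h3, h4⟩ := h q h1
    obtain ⟨r', h5, h6⟩ := ((feq_iff _ _ _).1 h4).2 i r le_rfl (h3.trans h2)
    exact ⟨r', h5.trans h3, h6⟩

theorem feq_trans {x : Nm P} : ∀ {y z p}, feq x y p → feq y z p → feq x z p := by
  induction x with
  | mk ι A B ih =>
    intro y z p h1 h2
    have h1' := (feq_iff _ _ _).1 h1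
    have h2' := (feq_iff _ _ _).1 h2
    rw [feq_iff]
    refine ⟨fun i q h3 h4 => ?_, fun i q h3 h4 => ?_⟩
    · obtain ⟨r, h5, j, h6, h7⟩ := h1'.1 i q h3 h4
      obtain ⟨s, h8, k, h9, h10⟩ := h2'.1 j r (h5.trans h3) h6
      exact ⟨s, h8.trans h5, k, h9, ih i (feq_mono h7 h8) h10⟩
    · obtain ⟨r, h5, j, h6, h7⟩ := h2'.2 i q h3 h4
      obtain ⟨s, h8, k, h9, h10⟩ := h1'.2 j r (h5.trans h3) h6
      exact ⟨s, h8.trans h5, k, h9, ih k h10 (feq_mono h7 h8)⟩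

/-- Forced membership. -/
def fmem (x y : Nm P) (p : P) : Prop :=
  ∀ q, q ≤ p → ∃ r, r ≤ q ∧ ∃ j, r ≤ y.B j ∧ feq x (y.A j) r

theorem fmem_mono {x y : Nm P} {p q : P} (h : fmem x y p) (hq : q ≤ p) : fmem x y q :=
  fun r hr => h r (hr.trans hq)

theorem fmem_local {x y : Nm P} {p : P} (h : ∀ q, q ≤ p → ∃ r, r ≤ q ∧ fmem x y r) :
    fmem x y p := by
  intro q hq
  obtain ⟨r, h1, h2⟩ := h q hq
  obtain ⟨s, h3, h4⟩ := h2 r le_rfl
  exact ⟨s, h3.trans h1, h4⟩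

theorem fmem_self (y : Nm P) (j : y.I) {q : P} (h : q ≤ y.B j) : fmem (y.A j) y q :=
  fun r hr => ⟨r, le_rfl, j, hr.trans h, feq_refl _ _⟩

theorem fmem_congr_left {x x' y : Nm P} {p : P} (h : feq x x' p) (h' : fmem x y p) :
    fmem x' y p := by
  intro q hq
  obtain ⟨r, h1, j, h2, h3⟩ := h' q hq
  exact ⟨r, h1, j, h2, feq_trans (feq_symm (feq_mono h (h1.trans hq))) h3⟩

theorem fmem_congr_right {x y y' : Nm P} {p : P} (h : feq y y' p) (h' : fmem x y p) :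
    fmem x y' p := by
  intro q hq
  obtain ⟨r, h1, j, h2, h3⟩ := h' q hq
  obtain ⟨s, h4, k, h5, h6⟩ := ((feq_iff _ _ _).1 h).1 j r (h1.trans hq) h2
  exact ⟨s, h4.trans h1, k, h5, feq_trans (feq_mono h3 h4) h6⟩

theorem feq_of_mem {x y : Nm P} {p : P} (h1 : ∀ i, ∀ q, q ≤ p → q ≤ x.B i → fmem (x.A i) y q)
    (h2 : ∀ j, ∀ q, q ≤ p → q ≤ y.B j → fmem (y.A j) x q) : feq x y p := by
  rw [feq_iff]
  refine ⟨fun i q h3 h4 => h1 i q h3 h4 q le_rfl, fun j q h3 h4 => ?_⟩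
  obtain ⟨r, h5, i, h6, h7⟩ := h2 j q h3 h4 q le_rfl
  exact ⟨r, h5, i, h6, feq_symm h7⟩

/-- Forced inclusion. -/
def fsub (x y : Nm P) (p : P) : Prop := ∀ i, ∀ q, q ≤ p → q ≤ x.B i → fmem (x.A i) y q

theorem fsub_mono {x y : Nm P} {p q : P} (h : fsub x y p) (hq : q ≤ p) : fsub x y q :=
  fun i r h1 h2 => h i r (h1.trans hq) h2

theorem feq_of_sub {x y : Nm P} {p : P} (h1 : fsub x y p) (h2 : fsub y x p) : feq x y p :=
  feq_of_mem h1 h2

theorem fsub_of_feq {x y : Nm P} {p : P} (h : feq x y p) : fsub x y p := fun i _ hq hi =>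
  fmem_congr_right (feq_mono h hq) (fmem_self x i hi)

theorem fsub_mem {x y z : Nm P} {p : P} (h : fsub x y p) (h' : fmem z x p) : fmem z y p := by
  refine fmem_local fun q hq => ?_
  obtain ⟨r, h1, j, h2, h3⟩ := h' q hq
  exact ⟨r, h1, fmem_congr_left (feq_symm h3) (h j r (h1.trans hq) h2)⟩

theorem fsub_trans {x y z : Nm P} {p : P} (h : fsub x y p) (h' : fsub y z p) : fsub x z p :=
  fun i q h1 h2 => fsub_mem (fsub_mono h' h1) (h i q h1 h2)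

/-! ### The action of the automorphisms -/

/-- The action. -/
def act (σ : P ≃o P) : Nm P → Nm P
  | ⟨ι, A, B⟩ => ⟨ι, fun i => act σ (A i), fun i => σ (B i)⟩

theorem act_one (x : Nm P) : act 1 x = x := by
  induction x with
  | mk ι A B ih =>
    simp only [act, ih]
    rfl

theorem act_mul (σ τ : P ≃o P) (x : Nm P) : act (σ * τ) x = act σ (act τ x) := by
  induction x with
  | mk ι A B ih =>
    simp only [act, ih]
    rfl

/-- The identification of the index types. -/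
def ai (σ : P ≃o P) : (x : Nm P) → x.I → (act σ x).I
  | ⟨_, _, _⟩ => id

theorem ai_surj (σ : P ≃o P) (x : Nm P) (j : (act σ x).I) : ∃ i, ai σ x i = j := by
  cases x
  exact ⟨j, rfl⟩

theorem act_A (σ : P ≃o P) (x : Nm P) (i : x.I) : (act σ x).A (ai σ x i) = act σ (x.A i) := by
  cases x; rfl

theorem act_B (σ : P ≃o P) (x : Nm P) (i : x.I) : (act σ x).B (ai σ x i) = σ (x.B i) := by
  cases x; rfl

theorem feq_act' (σ : P ≃o P) {x : Nm P} : ∀ {y p}, feq x y p → feq (act σ x) (act σ y) (σ p) := by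
  induction x with
  | mk ι A B ih =>
    intro y p h
    cases y with
    | mk κ C D =>
      refine ⟨fun i q h1 h2 => ?_, fun i q h1 h2 => ?_⟩
      · obtain ⟨r, h3, j, h4, h5⟩ := h.1 i (σ.symm q) ((OrderIso.symm_apply_le σ).2 h1)
          ((OrderIso.symm_apply_le σ).2 h2)
        exact ⟨σ r, (OrderIso.le_symm_apply σ).1 h3, j, σ.monotone h4, ih i h5⟩
      · obtain ⟨r, h3, j, h4, h5⟩ := h.2 i (σ.symm q) ((OrderIso.symm_apply_le σ).2 h1)
          ((OrderIso.symm_apply_le σ).2 h2)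
        exact ⟨σ r, (OrderIso.le_symm_apply σ).1 h3, j, σ.monotone h4, ih j h5⟩

theorem act_inv_act (σ : P ≃o P) (x : Nm P) : act σ⁻¹ (act σ x) = x := by
  rw [← act_mul, inv_mul_cancel, act_one]

theorem act_act_inv (σ : P ≃o P) (x : Nm P) : act σ (act σ⁻¹ x) = x := by
  rw [← act_mul, mul_inv_cancel, act_one]

theorem inv_app (σ : P ≃o P) (p : P) : σ⁻¹ (σ p) = p := σ.symm_apply_apply p

theorem app_inv (σ : P ≃o P) (p : P) : σ (σ⁻¹ p) = p := σ.apply_symm_apply p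

theorem feq_act (σ : P ≃o P) {x y : Nm P} {p : P} :
    feq (act σ x) (act σ y) (σ p) ↔ feq x y p := by
  refine ⟨fun h => ?_, feq_act' σ⟩
  have := feq_act' σ⁻¹ h
  rwa [act_inv_act, act_inv_act, inv_app] at this

theorem fmem_act' (σ : P ≃o P) {x y : Nm P} {p : P} (h : fmem x y p) :
    fmem (act σ x) (act σ y) (σ p) := by
  intro q hq
  obtain ⟨r, h1, j, h2, h3⟩ := h (σ.symm q) ((OrderIso.symm_apply_le σ).2 hq)
  refine ⟨σ r, (OrderIso.le_symm_apply σ).1 h1, ai σ y j, ?_, ?_⟩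
  · rw [act_B]
    exact σ.monotone h2
  · rw [act_A]
    exact feq_act' σ h3

theorem fmem_act (σ : P ≃o P) {x y : Nm P} {p : P} :
    fmem (act σ x) (act σ y) (σ p) ↔ fmem x y p := by
  refine ⟨fun h => ?_, fmem_act' σ⟩
  have := fmem_act' σ⁻¹ h
  rwa [act_inv_act, act_inv_act, inv_app] at this

theorem fsub_act' (σ : P ≃o P) {x y : Nm P} {p : P} (h : fsub x y p) :
    fsub (act σ x) (act σ y) (σ p) := by
  intro i q h1 h2
  obtain ⟨i, rfl⟩ := ai_surj σ x i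
  rw [act_B] at h2
  rw [act_A]
  have h3 := h i (σ.symm q) ((OrderIso.symm_apply_le σ).2 h1) ((OrderIso.symm_apply_le σ).2 h2)
  have h4 := fmem_act' σ h3
  rwa [OrderIso.apply_symm_apply] at h4

end Nm

end Pool.Agent.H839R3.Nas
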