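import Pool.Agent.H839R3.Nas.Truth

/-!
# Constructions of symmetric names
-/

namespace Pool.Agent.H839R3.Nas

open Nm

section

variable {P V : Type} [Preorder P] [DecidableEq V] {S : Sys P V}

theorem fmem_of {x y : Nm P} {p : P} (j : y.I) (h1 : p ≤ y.B j) (h2 : feq x (y.A j) p) :
    fmem x y p := fmem_congr_left (feq_symm h2) (fmem_self y j h1)

theorem fmem_act_el {x z : Nm P} {σ : P ≃o P} {q : P} (i : x.I) (h : q ≤ σ (x.B i))
    (hz : feq z (act σ (x.A i)) q) : fmem z (act σ x) q := by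
  refine fmem_of (ai σ x i) ?_ ?_
  · rw [act_B]
    exact h
  · rw [act_A]
    exact hz

theorem sp_of {e : Finset V} {x : Nm P}
    (h : ∀ σ ∈ S.Fx e, ∀ i q, q ≤ σ (x.B i) → fmem (act σ (x.A i)) x q) : S.Sp e x := by
  have h1 : ∀ σ ∈ S.Fx e, ∀ p, fsub (act σ x) x p := by
    intro σ hσ p i q _ h3
    obtain ⟨i, rfl⟩ := ai_surj σ x i
    rw [act_B] at h3
    rw [act_A]
    exact h σ hσ i q h3
  intro σ hσ p
  refine feq_of_sub (h1 σ hσ p) ?_
  have h2 := fsub_act' σ (h1 σ⁻¹ (S.inv _ _ hσ) (σ⁻¹ p))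
  rwa [act_act_inv, app_inv] at h2

theorem sp_spec {e : Finset V} {x : S.H} (hs : ∀ i, S.HS (x.1.A i)) {Φ : S.H → P → Prop}
    (h : ∀ (z : S.H) p, fmem z.1 x.1 p ↔ Φ z p)
    (hi : ∀ σ (_ : σ ∈ S.Fx e) (hσ : σ ∈ S.Fx ∅) (z : S.H) p, Φ z p → Φ (z.ac σ hσ) (σ p)) :
    S.Sp e x.1 := by
  refine sp_of fun σ hσ i q hq => ?_
  have h0 := Sys.mem0 S hσ
  have h1 : fmem (x.1.A i) x.1 (σ.symm q) := fmem_self _ i ((OrderIso.symm_apply_le σ).2 hq)
  have h2 := hi σ hσ h0 ⟨_, hs i⟩ _ ((h ⟨_, hs i⟩ _).1 h1)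
  rw [OrderIso.apply_symm_apply] at h2
  exact (h _ _).2 h2

variable (S) in
/-- A symmetric name from its elements. -/
def mkH {ι : Type} (A : ι → S.H) (B : ι → P) (e : Finset V)
    (h : ∀ σ ∈ S.Fx e, ∀ i q, q ≤ σ (B i) →
      fmem (act σ (A i).1) ⟨ι, fun i => (A i).1, B⟩ q) : S.H :=
  ⟨⟨ι, fun i => (A i).1, B⟩, (S.HS_iff _).2 ⟨⟨e, sp_of h⟩, fun i => (A i).2⟩⟩

theorem Sp_union {e e' : Finset V} {x : Nm P} (h : S.Sp e x) : S.Sp (e ∪ e') x :=
  h.mono S Finset.subset_union_left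

theorem Sp_union' {e e' : Finset V} {x : Nm P} (h : S.Sp e x) : S.Sp (e' ∪ e) x :=
  h.mono S Finset.subset_union_right

section top

variable [OrderTop P]

/-- The unordered pair. -/
noncomputable def prH (x y : S.H) : S.H :=
  mkH S (ι := Bool) (fun b => cond b x y) (fun _ => ⊤) (x.sp.choose ∪ y.sp.choose) (by
    intro σ hσ i q _
    cases i
    · exact fmem_of (y := ⟨Bool, fun b => (cond b x y).1, fun _ => ⊤⟩) false le_top
        (Sp_union' y.sp.choose_spec σ hσ q)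
    · exact fmem_of (y := ⟨Bool, fun b => (cond b x y).1, fun _ => ⊤⟩) true le_top
        (Sp_union x.sp.choose_spec σ hσ q))

theorem prH_sp {x y : S.H} {e : Finset V} (hx : S.Sp e x.1) (hy : S.Sp e y.1) :
    S.Sp e (prH x y).1 := by
  refine sp_of fun σ hσ i q _ => ?_
  cases i with
  | false => exact fmem_of (y := (prH x y).1) false le_top (hy σ hσ q)
  | true => exact fmem_of (y := (prH x y).1) true le_top (hx σ hσ q)

/-- The ordered pair. -/
noncomputable def opH (x y : S.H) : S.H := prH (prH x x) (prH x y)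

theorem opH_sp {x y : S.H} {e : Finset V} (hx : S.Sp e x.1) (hy : S.Sp e y.1) :
    S.Sp e (opH x y).1 := prH_sp (prH_sp hx hx) (prH_sp hx hy)

theorem prH_congr {x x' y y' : S.H} {p : P} (h : feq x.1 x'.1 p) (h' : feq y.1 y'.1 p) :
    feq (prH x y).1 (prH x' y').1 p := by
  refine feq_of_mem (fun i q hq _ => ?_) (fun i q hq _ => ?_)
  · cases i with
    | false => exact fmem_of (y := (prH x' y').1) false le_top (feq_mono h' hq)
    | true => exact fmem_of (y := (prH x' y').1) true le_top (feq_mono h hq)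
  · cases i with
    | false => exact fmem_of (y := (prH x y).1) false le_top (feq_symm (feq_mono h' hq))
    | true => exact fmem_of (y := (prH x y).1) true le_top (feq_symm (feq_mono h hq))

theorem opH_congr {x x' y y' : S.H} {p : P} (h : feq x.1 x'.1 p) (h' : feq y.1 y'.1 p) :
    feq (opH x y).1 (opH x' y').1 p := prH_congr (prH_congr h h) (prH_congr h h')

theorem act_prH {x y : S.H} {σ : P ≃o P} (hσ : σ ∈ S.Fx ∅) (p : P) :
    feq (act σ (prH x y).1) (prH (x.ac σ hσ) (y.ac σ hσ)).1 p := by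
  refine feq_of_mem (fun i q hq _ => ?_) (fun i q hq _ => ?_)
  · obtain ⟨i, rfl⟩ := ai_surj σ (prH x y).1 i
    rw [act_A]
    cases i with
    | false => exact fmem_of (y := (prH (x.ac σ hσ) (y.ac σ hσ)).1) false le_top (feq_refl _ _)
    | true => exact fmem_of (y := (prH (x.ac σ hσ) (y.ac σ hσ)).1) true le_top (feq_refl _ _)
  · cases i with
    | false =>
      exact fmem_act_el (x := (prH x y).1) false ((OrderIso.symm_apply_le σ).1 le_top) (feq_refl _ _)
    | true =>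
      exact fmem_act_el (x := (prH x y).1) true ((OrderIso.symm_apply_le σ).1 le_top) (feq_refl _ _)

theorem act_opH {x y : S.H} {σ : P ≃o P} (hσ : σ ∈ S.Fx ∅) (p : P) :
    feq (act σ (opH x y).1) (opH (x.ac σ hσ) (y.ac σ hσ)).1 p :=
  feq_trans (act_prH hσ p) (prH_congr (act_prH hσ p) (act_prH hσ p))

/-- The union. -/
noncomputable def unH (x : S.H) : S.H :=
  mkH S (ι := Σ i : x.1.I, Σ j : (x.1.A i).I, {r : P // r ≤ x.1.B i ∧ r ≤ (x.1.A i).B j})
    (fun a => (x.el a.1).el a.2.1) (fun a => a.2.2.1) x.sp.choose (by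
    rintro σ hσ ⟨i, j, r, hr1, hr2⟩ q hq
    have h0 := x.sp.choose_spec σ hσ
    have h1 : fmem (act σ (x.1.A i)) x.1 q := by
      have h2 := fmem_act' σ (fmem_self x.1 i hr1)
      exact fmem_mono (fmem_congr_right (h0 _) h2) hq
    have h2 : fmem (act σ ((x.1.A i).A j)) (act σ (x.1.A i)) q :=
      fmem_mono (fmem_act' σ (fmem_self _ j hr2)) hq
    intro q' hq'
    obtain ⟨s, hs, i', h3, h4⟩ := h1 q' hq'
    obtain ⟨t, ht, j', h5, h6⟩ :=
      (fmem_congr_right h4 (fmem_mono h2 (hs.trans hq'))) s le_rfl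
    exact ⟨t, ht.trans hs, ⟨i', j', t, ht.trans h3, h5⟩, le_rfl, h6⟩)

/-- The successor. -/
noncomputable def sucH (x : S.H) : S.H :=
  mkH S (ι := Option x.1.I) (fun a => match a with
      | none => x
      | some i => x.el i)
    (fun a => match a with
      | none => ⊤
      | some i => x.1.B i) x.sp.choose (by
    intro σ hσ a q hq
    have h0 := x.sp.choose_spec σ hσ
    match a, hq with
    | none, hq =>
      intro q' hq'
      exact ⟨q', le_rfl, none, le_top, h0 q'⟩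
    | some i, hq =>
      intro q' hq'
      have h2 := fmem_act' σ (fmem_self x.1 i le_rfl)
      have h3 := fmem_mono (fmem_congr_right (h0 _) h2) hq
      obtain ⟨s, hs, i', h4, h5⟩ := h3 q' hq'
      exact ⟨s, hs, some i', h4, h5⟩)

theorem sucH_sp {x : S.H} {e : Finset V} (hx : S.Sp e x.1) : S.Sp e (sucH x).1 := by
  refine sp_of fun σ hσ a q hq => ?_
  have h0 := hx σ hσ
  match a, hq with
  | none, hq => exact fmem_of (y := (sucH x).1) none le_top (h0 q)
  | some i, hq =>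
    intro q' hq'
    have h2 := fmem_act' σ (fmem_self x.1 i le_rfl)
    have h3 := fmem_mono (fmem_congr_right (h0 _) h2) hq
    obtain ⟨s, hs, i', h4, h5⟩ := h3 q' hq'
    exact ⟨s, hs, some i', h4, h5⟩

variable (S) in
/-- The natural numbers. -/
noncomputable def nnH : ℕ → S.H
  | 0 => S.emp
  | n + 1 => sucH (nnH n)

theorem emp_sp : S.Sp ∅ S.emp.1 := sp_of fun _ _ i => Empty.elim i

theorem nnH_sp (n : ℕ) : S.Sp ∅ (nnH S n).1 := by
  induction n with
  | zero => exact emp_sp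
  | succ n ih => exact sucH_sp ih

variable (S) in
/-- The set of the natural numbers. -/
noncomputable def omH : S.H :=
  mkH S (ι := ℕ) (fun n => nnH S n) (fun _ => ⊤) ∅ (by
    intro σ hσ n q _ q' _
    exact ⟨q', le_rfl, n, le_top, nnH_sp n σ hσ q'⟩)

end top

/-- A subset name. -/
def sbN (x : Nm P) (c : Set (x.I × P)) : Nm P :=
  ⟨{a : x.I × P // a ∈ c ∧ a.2 ≤ x.B a.1}, fun a => x.A a.1.1, fun a => a.1.2⟩

/-- Invariant predicates. -/
structure Iv (S : Sys P V) (Ψ : S.H → P → Prop) (e : Finset V) : Prop where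
  mono : ∀ z p q, Ψ z p → q ≤ p → Ψ z q
  loc : ∀ z p, (∀ q, q ≤ p → ∃ r, r ≤ q ∧ Ψ z r) → Ψ z p
  cong : ∀ z z' p, feq z.1 z'.1 p → Ψ z p → Ψ z' p
  inv : ∀ σ (_ : σ ∈ S.Fx e) (hσ : σ ∈ S.Fx ∅) z p, Ψ z p → Ψ (z.ac σ hσ) (σ p)

theorem sbN_spec {x : S.H} {Ψ : S.H → P → Prop} {e : Finset V} (h : Iv S Ψ e) (z : S.H) (p : P) :
    fmem z.1 (sbN x.1 {a | Ψ (x.el a.1) a.2}) p ↔ fmem z.1 x.1 p ∧ Ψ z p := by
  constructor
  · intro h1
    refine ⟨fun q hq => ?_, h.loc _ _ fun q hq => ?_⟩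
    · obtain ⟨r, hr, ⟨⟨i, s⟩, h2, h3⟩, h4, h5⟩ := h1 q hq
      exact ⟨r, hr, i, le_trans h4 h3, h5⟩
    · obtain ⟨r, hr, ⟨⟨i, s⟩, h2, h3⟩, h4, h5⟩ := h1 q hq
      exact ⟨r, hr, h.cong _ _ _ (feq_symm h5) (h.mono _ _ _ h2 h4)⟩
  · rintro ⟨h1, h2⟩ q hq
    obtain ⟨r, hr, i, h3, h4⟩ := h1 q hq
    exact ⟨r, hr, ⟨(i, r), h.cong _ (x.el i) _ h4 (h.mono _ _ _ h2 (hr.trans hq)), h3⟩, le_rfl,
      h4⟩

theorem sbN_HS {x : S.H} {Ψ : S.H → P → Prop} {e e' : Finset V} (h : Iv S Ψ e)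
    (hx : S.Sp e' x.1) (he : e ⊆ e') :
    S.Sp e' (sbN x.1 {a | Ψ (x.el a.1) a.2}) ∧ S.HS (sbN x.1 {a | Ψ (x.el a.1) a.2}) := by
  have h1 : S.Sp e' (sbN x.1 {a | Ψ (x.el a.1) a.2}) := by
    refine sp_of fun σ hσ i q hq => ?_
    have h0 := Sys.mem0 S hσ
    have h2 : fmem ((sbN x.1 {a | Ψ (x.el a.1) a.2}).A i) (sbN x.1 {a | Ψ (x.el a.1) a.2})
        (σ.symm q) := fmem_self _ i ((OrderIso.symm_apply_le σ).2 hq)
    have h3 := (sbN_spec h (x.el i.1.1) _).1 h2
    have h4 : fmem ((x.el i.1.1).ac σ h0).1 x.1 q := by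
      have h5 := fmem_act' σ h3.1
      rw [OrderIso.apply_symm_apply] at h5
      exact fmem_congr_right (hx σ hσ _) h5
    have h5 := h.inv σ (S.mono _ _ he hσ) h0 _ _ h3.2
    rw [OrderIso.apply_symm_apply] at h5
    exact (sbN_spec h ((x.el i.1.1).ac σ h0) _).2 ⟨h4, h5⟩
  exact ⟨h1, (S.HS_iff _).2 ⟨⟨e', h1⟩, fun i => (x.el i.1.1).2⟩⟩

theorem Iv.mem {y : S.H} {e : Finset V} (hy : S.Sp e y.1) :
    Iv S (fun z p => fmem z.1 y.1 p) e where
  mono _ _ _ h hq := fmem_mono h hq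
  loc _ _ h := fmem_local h
  cong _ _ _ h h' := fmem_congr_left h h'
  inv σ hσ _ z p h := fmem_congr_right (hy σ hσ _) (fmem_act' σ h)

/-- The code of the part of `z` in `x`. -/
def cd (x z : Nm P) : Set (x.I × P) := {a | fmem (x.A a.1) z a.2}

theorem cd_spec {x y : S.H} {p : P} (h : fsub y.1 x.1 p) : feq y.1 (sbN x.1 (cd x.1 y.1)) p := by
  obtain ⟨e, he⟩ := y.sp
  have h0 := fun z p => sbN_spec (x := x) (Iv.mem he) z p
  refine feq_of_mem (fun i q h1 h2 => ?_) (fun i q h1 h2 => ?_)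
  · exact (h0 (y.el i) q).2 ⟨h i q h1 h2, fmem_self _ i h2⟩
  · exact ((h0 (x.el i.1.1) q).1 (fmem_self (sbN x.1 (cd x.1 y.1)) i h2)).2

theorem cd_HS (x y : S.H) {e : Finset V} (hy : S.Sp e y.1) (hx : S.Sp e x.1) :
    S.Sp e (sbN x.1 (cd x.1 y.1)) ∧ S.HS (sbN x.1 (cd x.1 y.1)) :=
  sbN_HS (Iv.mem hy) hx subset_rfl

theorem fsub_local {x y : Nm P} {p : P} (h : ∀ q, q ≤ p → ∃ r, r ≤ q ∧ fsub x y r) :
    fsub x y p := by
  intro i q h1 h2
  refine fmem_local fun r hr => ?_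
  obtain ⟨s, hs, h3⟩ := h r (hr.trans h1)
  exact ⟨s, hs, h3 i s le_rfl (hs.trans (hr.trans h2))⟩

theorem sbN_sub (x : Nm P) (c : Set (x.I × P)) (p : P) : fsub (sbN x c) x p := by
  intro i q _ h2
  exact fmem_self x i.1.1 (le_trans h2 i.2.2)

section top

variable [OrderTop P]

/-- The power set. -/
noncomputable def pwH (x : S.H) : S.H :=
  mkH S (ι := {c : Set (x.1.I × P) // S.HS (sbN x.1 c)}) (fun c => ⟨_, c.2⟩) (fun _ => ⊤)
    x.sp.choose (by
    intro σ hσ c q _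
    have h0 := Sys.mem0 S hσ
    let y : S.H := ⟨act σ (sbN x.1 c.1), c.2.act S h0⟩
    have h1 : fsub y.1 x.1 q := by
      have h2 := fsub_act' σ (sbN_sub x.1 c.1 (σ.symm q))
      rw [OrderIso.apply_symm_apply] at h2
      exact fsub_trans h2 (fsub_of_feq (x.sp.choose_spec σ hσ q))
    obtain ⟨e, he⟩ := y.sp
    have h2 : S.HS (sbN x.1 (cd x.1 y.1)) := by
      obtain ⟨e', he'⟩ := x.sp
      exact (cd_HS x y (Sp_union (e' := e') he) (Sp_union' he')).2
    intro q' hq'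
    exact ⟨q', le_rfl, ⟨_, h2⟩, le_top, cd_spec (fsub_mono h1 hq')⟩)

theorem pwH_spec {x z : S.H} {p : P} (h : fsub z.1 x.1 p) : fmem z.1 (pwH x).1 p := by
  obtain ⟨e, he⟩ := z.sp
  obtain ⟨e', he'⟩ := x.sp
  have h2 : S.HS (sbN x.1 (cd x.1 z.1)) := (cd_HS x z (Sp_union (e' := e') he) (Sp_union' he')).2
  exact fmem_of (y := (pwH x).1) ⟨_, h2⟩ le_top (cd_spec h)

theorem wl_sp (l : List S.H) : ∃ e, ∀ k, S.Sp e (wl l k).1 := by
  induction l with
  | nil => exact ⟨∅, fun k => emp_sp⟩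
  | cons a l ih =>
    obtain ⟨e, he⟩ := ih
    obtain ⟨e', he'⟩ := a.sp
    refine ⟨e ∪ e', fun k => ?_⟩
    cases k with
    | zero => exact Sp_union' he'
    | succ k => exact Sp_union (he k)

theorem Iv.forces (φ : Fm) (i : ℕ) (l : List S.H) {e : Finset V}
    (he : ∀ k, S.Sp e (wl l k).1) :
    Iv S (fun z p => Nas.forces φ (Function.update (wl l) i z) p) e where
  mono _ _ _ h hq := forces_mono h hq
  loc _ _ h := forces_local h
  cong z z' p h h' := by
    refine forces_congr (fun k => ?_) h'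
    by_cases hk : k = i
    · subst hk
      simpa using h
    · simp only [Function.update_of_ne hk]
      exact feq_refl _ _
  inv σ hσ h0 z p h := by
    refine forces_act h0 (fun k => ?_) h
    by_cases hk : k = i
    · subst hk
      simp only [Function.update_self]
      exact feq_refl _ _
    · simp only [Function.update_of_ne hk]
      exact he k σ hσ _

/-- Separation. -/
noncomputable def seH (φ : Fm) (i : ℕ) (l : List S.H) (x : S.H) : S.H :=
  ⟨_, (sbN_HS (x := x) (Iv.forces φ i l (e := (wl_sp l).choose ∪ x.sp.choose)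
    fun k => Sp_union ((wl_sp l).choose_spec k)) (Sp_union' x.sp.choose_spec) subset_rfl).2⟩

theorem seH_spec {φ : Fm} {i : ℕ} {l : List S.H} {x z : S.H} {p : P} :
    fmem z.1 (seH φ i l x).1 p ↔ fmem z.1 x.1 p ∧ forces φ (Function.update (wl l) i z) p :=
  sbN_spec (Iv.forces φ i l (e := (wl_sp l).choose ∪ x.sp.choose)
    fun k => Sp_union ((wl_sp l).choose_spec k)) z p

open Classical in
/-- The witnesses for Collection. -/
noncomputable def wit (φ : Fm) (i j : ℕ) (l : List S.H) (a : S.H) (k : a.1.I) (q : P) : S.H :=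
  if h : ∃ y : S.H, forces φ (Function.update (Function.update (wl l) i (a.el k)) j y) q then
    h.choose else S.emp

/-- Collection. -/
noncomputable def coH (φ : Fm) (i j : ℕ) (l : List S.H) (a : S.H) : S.H :=
  mkH S (ι := a.1.I × P × {σ : P ≃o P // σ ∈ S.Fx ∅})
    (fun b => (wit φ i j l a b.1 b.2.1).ac b.2.2.1 b.2.2.2) (fun _ => ⊤) ∅ (by
    rintro τ hτ ⟨k, q, σ, hσ⟩ r _ q' _
    refine ⟨q', le_rfl, (k, q, ⟨τ * σ, S.mul _ _ _ hτ hσ⟩), le_top, ?_⟩
    change feq (act τ (act σ _)) (act (τ * σ) _) _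
    rw [act_mul]
    exact feq_refl _ _)

theorem coH_spec {φ : Fm} {i j : ℕ} {l : List S.H} {a y : S.H} {k : a.1.I} {q : P}
    (h : feq y.1 (wit φ i j l a k q).1 q) : fmem y.1 (coH φ i j l a).1 q := by
  refine fmem_of (y := (coH φ i j l a).1) (k, q, ⟨1, S.one _⟩) le_top ?_
  change feq y.1 (act 1 _) q
  rw [act_one]
  exact h

theorem wit_spec {φ : Fm} {i j : ℕ} {l : List S.H} {a y : S.H} {k : a.1.I} {q : P}
    (h : forces φ (Function.update (Function.update (wl l) i (a.el k)) j y) q) :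
    forces φ (Function.update (Function.update (wl l) i (a.el k)) j (wit φ i j l a k q)) q := by
  have h1 : ∃ y : S.H,
    forces φ (Function.update (Function.update (wl l) i (a.el k)) j y) q := ⟨y, h⟩
  rw [wit, dif_pos h1]
  exact h1.choose_spec

end top

end

end Pool.Agent.H839R3.Nas
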