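import Pool.Agent.H839R3.Nas.Zf

/-!
# Pairs, subsets with a given support
-/

namespace Pool.Agent.H839R3.Nas

open Nm FirstOrder FirstOrder.Language
open Pool.Agent.Helper672.Plain (LSet Mem Sym IsPair IsOrdPair)
open Pool.Agent.H310Cards

section

variable {P V : Type} [Preorder P] [OrderTop P] [DecidableEq V] {S : Sys P V}

theorem fmem_pr {x y z : S.H} {p : P} :
    fmem z.1 (prH x y).1 p ↔ ∀ q, q ≤ p → ∃ r, r ≤ q ∧ (feq z.1 x.1 r ∨ feq z.1 y.1 r) := by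
  constructor
  · intro h q hq
    obtain ⟨r, hr, i, _, h2⟩ := h q hq
    cases i with
    | false => exact ⟨r, hr, Or.inr h2⟩
    | true => exact ⟨r, hr, Or.inl h2⟩
  · intro h q hq
    obtain ⟨r, hr, h1 | h1⟩ := h q hq
    · exact ⟨r, hr, true, le_top, h1⟩
    · exact ⟨r, hr, false, le_top, h1⟩

theorem pr_left (x y : S.H) (p : P) : fmem x.1 (prH x y).1 p :=
  fmem_pr.2 fun q _ => ⟨q, le_rfl, Or.inl (feq_refl _ _)⟩

theorem pr_right (x y : S.H) (p : P) : fmem y.1 (prH x y).1 p :=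
  fmem_pr.2 fun q _ => ⟨q, le_rfl, Or.inr (feq_refl _ _)⟩

theorem feq_of_mem_single {x z : S.H} {p : P} (h : fmem z.1 (prH x x).1 p) : feq z.1 x.1 p := by
  refine feq_local fun q hq => ?_
  obtain ⟨r, hr, h1⟩ := fmem_pr.1 h q hq
  exact ⟨r, hr, by rcases h1 with h1 | h1 <;> exact h1⟩

/-- `{x} = {x', y'}` gives `x = x'` and `x = y'`. -/
theorem single_eq {x x' y' : S.H} {p : P} (h : feq (prH x x).1 (prH x' y').1 p) :
    feq x.1 x'.1 p ∧ feq x.1 y'.1 p :=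
  ⟨feq_symm (feq_of_mem_single (fmem_congr_right (feq_symm h) (pr_left x' y' p))),
    feq_symm (feq_of_mem_single (fmem_congr_right (feq_symm h) (pr_right x' y' p)))⟩

theorem op_inj {x y x' y' : S.H} {p : P} (h : feq (opH x y).1 (opH x' y').1 p) :
    feq x.1 x'.1 p ∧ feq y.1 y'.1 p := by
  have hx : feq x.1 x'.1 p := by
    refine feq_local fun q hq => ?_
    have h1 := fmem_congr_right (feq_mono h hq) (pr_left (prH x x) (prH x y) q)
    obtain ⟨r, hr, h2⟩ := fmem_pr.1 h1 q le_rfl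
    rcases h2 with h2 | h2
    · exact ⟨r, hr, (single_eq h2).1⟩
    · exact ⟨r, hr, (single_eq h2).1⟩
  refine ⟨hx, feq_local fun q hq => ?_⟩
  have h1 := fmem_congr_right (feq_mono h hq) (pr_right (prH x x) (prH x y) q)
  obtain ⟨r, hr, h2⟩ := fmem_pr.1 h1 q le_rfl
  rcases h2 with h2 | h2
  · -- `{x, y} = {x'}`
    have h3 := single_eq (feq_symm h2)
    -- `{x', y'}` is `{x}` or `{x, y}`
    have h4 := fmem_congr_right (feq_symm (feq_mono h (hr.trans hq)))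
      (pr_right (prH x' x') (prH x' y') r)
    obtain ⟨s, hs, h5⟩ := fmem_pr.1 h4 r le_rfl
    refine ⟨s, hs.trans hr, ?_⟩
    rcases h5 with h5 | h5
    · have h6 := single_eq (feq_symm h5)
      exact feq_trans (feq_symm (feq_mono h3.2 hs))
        (feq_trans (feq_mono h3.1 hs) h6.2)
    · have h6 := single_eq (feq_symm (feq_trans h5 (feq_mono h2 hs)))
      exact feq_trans (feq_symm (feq_mono h3.2 hs)) h6.2
  · -- `{x, y} = {x', y'}`
    have h3 := fmem_congr_right h2 (pr_right x y r)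
    obtain ⟨s, hs, h4⟩ := fmem_pr.1 h3 r le_rfl
    rcases h4 with h4 | h4
    · -- `y = x'`
      have h5 := fmem_congr_right (feq_symm (feq_mono h2 hs)) (pr_right x' y' s)
      obtain ⟨t, ht, h6⟩ := fmem_pr.1 h5 s le_rfl
      refine ⟨t, ht.trans (hs.trans hr), ?_⟩
      rcases h6 with h6 | h6
      · have h7 := feq_mono hx (ht.trans (hs.trans (hr.trans hq)))
        exact feq_trans (feq_mono h4 ht) (feq_trans (feq_symm h7) (feq_symm h6))
      · exact feq_symm h6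
    · exact ⟨s, hs.trans hr, h4⟩

namespace GenD

variable {O J : Type} {op : O → List S.H → S.H} {pr : J → List S.H → P → Prop}
variable (g : GenD S (zop op) pr)

theorem T_op {x y : S.H} (hx : x ∈ g.T) (hy : y ∈ g.T) : opH x y ∈ g.T :=
  g.T_pr (g.T_pr hx hx) (g.T_pr hx hy)

theorem isPair_pr {x y : S.H} (hx : x ∈ g.T) (hy : y ∈ g.T) :
    IsPair (g.vl _ (g.T_pr hx hy)) (g.vl x hx) (g.vl y hy) := by
  intro z
  obtain ⟨z, hz, rfl⟩ := g.exists_vl z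
  rw [mem_vl', vl_eq, vl_eq]
  constructor
  · rintro ⟨i, p, hp, _, h⟩
    cases i with
    | false => exact Or.inr ⟨p, hp, h⟩
    | true => exact Or.inl ⟨p, hp, h⟩
  · rintro (⟨p, hp, h⟩ | ⟨p, hp, h⟩)
    · exact ⟨true, p, hp, le_top, h⟩
    · exact ⟨false, p, hp, le_top, h⟩

theorem isOrdPair_op {x y : S.H} (hx : x ∈ g.T) (hy : y ∈ g.T) :
    IsOrdPair (g.vl _ (g.T_op hx hy)) (g.vl x hx) (g.vl y hy) :=
  ⟨_, _, g.isPair_pr hx hx, g.isPair_pr hx hy, g.isPair_pr _ _⟩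

theorem isPair_unique {p q x y : g.N} (h : IsPair p x y) (h' : IsPair q x y) : p = q :=
  g.ext' fun z => (h z).trans (h' z).symm

theorem isOrdPair_unique {p q x y : g.N} (h : IsOrdPair p x y) (h' : IsOrdPair q x y) :
    p = q := by
  obtain ⟨s, d, h1, h2, h3⟩ := h
  obtain ⟨s', d', h4, h5, h6⟩ := h'
  obtain rfl := g.isPair_unique h1 h4
  obtain rfl := g.isPair_unique h2 h5
  exact g.isPair_unique h3 h6

theorem isOrdPair_iff {x y : S.H} (hx : x ∈ g.T) (hy : y ∈ g.T) {z : g.N} :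
    IsOrdPair z (g.vl x hx) (g.vl y hy) ↔ z = g.vl _ (g.T_op hx hy) :=
  ⟨fun h => g.isOrdPair_unique h (g.isOrdPair_op hx hy), fun h => h ▸ g.isOrdPair_op hx hy⟩

theorem app_iff {x y r : S.H} (hx : x ∈ g.T) (hy : y ∈ g.T) (hr : r ∈ g.T) :
    App (g.vl r hr) (g.vl x hx) (g.vl y hy) ↔
      ∃ i p, p ∈ g.G ∧ p ≤ r.1.B i ∧ feq (opH x y).1 (r.1.A i) p := by
  constructor
  · rintro ⟨q, h1, h2⟩
    rw [g.isOrdPair_iff hx hy] at h1
    subst h1
    exact g.mem_vl'.1 h2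
  · intro h
    exact ⟨_, g.isOrdPair_op hx hy, g.mem_vl'.2 h⟩

end GenD

end

/-! ### The subsets of `Y` with support `e` -/

section

variable {P V : Type} [Preorder P] [DecidableEq V] {S : Sys P V}

/-- `q` forces that `c` is the code of a subset of `Y` with support `e`. -/
def Cs (Y : S.H) (e : Finset V) (c : Set (Y.1.I × P)) (q : P) : Prop :=
  ∃ z : S.H, S.Sp e z.1 ∧ fsub z.1 Y.1 q ∧ cd Y.1 z.1 = c

theorem Cs.mono {Y : S.H} {e : Finset V} {c : Set (Y.1.I × P)} {q r : P} (h : Cs Y e c q)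
    (hr : r ≤ q) : Cs Y e c r := by
  obtain ⟨z, h1, h2, h3⟩ := h
  exact ⟨z, h1, fsub_mono h2 hr, h3⟩

theorem Cs.HS {Y : S.H} {e e' : Finset V} {c : Set (Y.1.I × P)} {q : P} (h : Cs Y e c q)
    (hY : S.Sp e' Y.1) : S.Sp (e ∪ e') (sbN Y.1 c) ∧ S.HS (sbN Y.1 c) := by
  obtain ⟨z, h1, _, rfl⟩ := h
  exact cd_HS Y z (Sp_union h1) (Sp_union' hY)

theorem fsub_congr {x x' y y' : Nm P} {p : P} (h : feq x x' p) (h' : feq y y' p)
    (h1 : fsub x y p) : fsub x' y' p :=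
  fsub_trans (fsub_of_feq (feq_symm h)) (fsub_trans h1 (fsub_of_feq h'))

theorem Cs.act {Y : S.H} {e e' : Finset V} {c : Set (Y.1.I × P)} {q : P} (h : Cs Y e c q)
    (hY : S.Sp e' Y.1) {σ : P ≃o P} (hσ : σ ∈ S.Fx (e ∪ e')) : Cs Y e c (σ q) := by
  obtain ⟨z, h1, h2, h3⟩ := h
  exact ⟨z, h1, fsub_congr (Sp_union h1 σ hσ _) (Sp_union' hY σ hσ _) (fsub_act' σ h2), h3⟩

theorem Cs.spec {Y : S.H} {e : Finset V} {c : Set (Y.1.I × P)} {q : P} (h : Cs Y e c q) :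
    ∃ z : S.H, S.Sp e z.1 ∧ feq z.1 (sbN Y.1 c) q := by
  obtain ⟨z, h1, h2, rfl⟩ := h
  exact ⟨z, h1, cd_spec h2⟩

/-- The name of the set of the subsets of `Y` with support `e`. -/
noncomputable def wX (Y : S.H) (e : Finset V) : S.H :=
  mkH S (ι := {a : Set (Y.1.I × P) × P // Cs Y e a.1 a.2})
    (fun a => ⟨sbN Y.1 a.1.1, (a.2.HS Y.sp.choose_spec).2⟩) (fun a => a.1.2)
    (e ∪ Y.sp.choose) (by
      intro σ hσ a q hq
      refine fmem_of (y := ⟨{a : Set (Y.1.I × P) × P // Cs Y e a.1 a.2},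
        fun a => sbN Y.1 a.1.1, fun a => a.1.2⟩)
        ⟨(a.1.1, q), (a.2.act Y.sp.choose_spec hσ).mono hq⟩ le_rfl ?_
      exact (a.2.HS Y.sp.choose_spec).1 σ hσ q)

end

section

variable {P V : Type} [Preorder P] [OrderTop P] [DecidableEq V] {S : Sys P V}

/-- The order of the codes. -/
def wlt {Y : S.H} (c d : Set (Y.1.I × P)) : Prop := WellOrderingRel c d

/-- The conditions for `c` before `d`. -/
structure Rc (Y : S.H) (e : Finset V) (c d : Set (Y.1.I × P)) (q : P) : Prop where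
  left : Cs Y e c q
  right : Cs Y e d q
  lt : ∀ k, (k = c ∨ wlt k c) → ∀ r, r ≤ q → Cs Y e k r → ¬ feq (sbN Y.1 k) (sbN Y.1 d) r

theorem Rc.mono {Y : S.H} {e : Finset V} {c d : Set (Y.1.I × P)} {q r : P} (h : Rc Y e c d q)
    (hr : r ≤ q) : Rc Y e c d r :=
  ⟨h.left.mono hr, h.right.mono hr, fun k hk s hs => h.lt k hk s (hs.trans hr)⟩

theorem Rc.act {Y : S.H} {e e' : Finset V} {c d : Set (Y.1.I × P)} {q : P} (h : Rc Y e c d q)
    (hY : S.Sp e' Y.1) {σ : P ≃o P} (hσ : σ ∈ S.Fx (e ∪ e')) : Rc Y e c d (σ q) := by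
  refine ⟨h.left.act hY hσ, h.right.act hY hσ, fun k hk r hr hk' h1 => ?_⟩
  have hσ' := S.inv _ _ hσ
  have h2 : Cs Y e k (σ⁻¹ r) := hk'.act hY hσ'
  have h3 : σ⁻¹ r ≤ q := (OrderIso.symm_apply_le σ).2 hr
  refine h.lt k hk _ h3 h2 ?_
  have h4 := feq_act' σ⁻¹ h1
  exact feq_trans (feq_symm ((h2.HS hY).1 _ hσ' _))
    (feq_trans h4 ((h.right.HS hY).1 _ hσ' _))

/-- The name of the well-ordering. -/
noncomputable def wR (Y : S.H) (e : Finset V) : S.H :=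
  mkH S (ι := {a : (Set (Y.1.I × P) × Set (Y.1.I × P)) × P // Rc Y e a.1.1 a.1.2 a.2})
    (fun a => opH ⟨sbN Y.1 a.1.1.1, (a.2.left.HS Y.sp.choose_spec).2⟩
      ⟨sbN Y.1 a.1.1.2, (a.2.right.HS Y.sp.choose_spec).2⟩) (fun a => a.1.2)
    (e ∪ Y.sp.choose) (by
      intro σ hσ a q hq q' hq'
      refine ⟨q', le_rfl, ⟨(a.1.1, q'), (a.2.act Y.sp.choose_spec hσ).mono (hq'.trans hq)⟩,
        le_rfl, ?_⟩
      exact opH_sp (a.2.left.HS Y.sp.choose_spec).1 (a.2.right.HS Y.sp.choose_spec).1 σ hσ q')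

/-- `c` is the least code of `x`, as decided by `q`. -/
def Lst (Y : S.H) (e : Finset V) (x : S.H) (q : P) (c : Set (Y.1.I × P)) : Prop :=
  (Cs Y e c q ∧ feq x.1 (sbN Y.1 c) q) ∧
    ∀ k, wlt k c → ¬ (Cs Y e k q ∧ feq x.1 (sbN Y.1 k) q)

/-- The predicate to be decided. -/
def wP (e : Finset V) (q : P) (l : List S.H) (r : P) : Prop :=
  ∃ c : Set ((wl l 0).1.I × P), Lst (wl l 0) e (wl l 1) q c ∧
    ∃ k, (k = c ∨ wlt k c) ∧ Cs (wl l 0) e k r ∧ feq (wl l 2).1 (sbN (wl l 0).1 k) r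

end

end Pool.Agent.H839R3.Nas
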