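import Pool.Agent.H839R3.Nas.Pair

/-!
# The symmetric extension gives a symmetric model
-/

namespace Pool.Agent.H839R3.Nas

open Nm GenD FirstOrder FirstOrder.Language
open Pool.Agent.Helper672.Plain (LSet Mem Sym IsPair IsOrdPair)
open Pool.Agent.H310Cards

section general

variable {P : Type} [Preorder P] {S : Sys P V}
variable {O J : Type} {op : O → List S.H → S.H} {pr : J → List S.H → P → Prop}

/-- Supports. -/
def supN (g : GenD S op pr) (e : Finset V) (a : g.N) : Prop :=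
  ∃ x hx, g.vl x hx = a ∧ ∃ y : S.H, S.Sp e y.1 ∧ ∃ p, p ∈ g.G ∧ feq x.1 y.1 p

theorem supN_iff (g : GenD S op pr) {e : Finset V} {x : S.H} {hx : x ∈ g.T} :
    supN g e (g.vl x hx) ↔ ∃ y : S.H, S.Sp e y.1 ∧ ∃ p, p ∈ g.G ∧ feq x.1 y.1 p := by
  constructor
  · rintro ⟨x', hx', h1, y, h2, p, hp, h3⟩
    obtain ⟨q, hq, h4⟩ := g.vl_eq.1 h1
    obtain ⟨r, hr, h5, h6⟩ := g.dir p q hp hq
    exact ⟨y, h2, r, hr, feq_trans (feq_symm (feq_mono h4 h6)) (feq_mono h3 h5)⟩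
  · rintro ⟨y, h2, p, hp, h3⟩
    exact ⟨x, hx, rfl, y, h2, p, hp, h3⟩

theorem fin_meet (g : GenD S op pr) {Φ : ℕ → P → Prop}
    (hm : ∀ n p q, Φ n p → q ≤ p → Φ n q) (h : ∀ n, ∃ p, p ∈ g.G ∧ Φ n p) (K : ℕ) :
    ∃ p, p ∈ g.G ∧ ∀ n, n < K → Φ n p := by
  induction K with
  | zero =>
    obtain ⟨p, hp⟩ := g.ne
    exact ⟨p, hp, fun n hn => absurd hn (Nat.not_lt_zero n)⟩
  | succ K ih =>
    obtain ⟨p, hp, h1⟩ := ih
    obtain ⟨q, hq, h2⟩ := h K
    obtain ⟨r, hr, h3, h4⟩ := g.dir p q hp hq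
    refine ⟨r, hr, fun n hn => ?_⟩
    rcases Nat.lt_succ_iff_lt_or_eq.1 hn with hn | rfl
    · exact hm _ _ _ (h1 n hn) h3
    · exact hm _ _ _ h2 h4

end general

/-- The names of the atoms, and restrictions of the conditions. -/
structure PS (U : V → Prop) {P : Type} [Preorder P] [OrderTop P] (S : Sys P V) where
  pt : V → S.H
  act_pt : ∀ σ ∈ S.Fx ∅, ∀ a p, feq (act σ (pt a).1) (pt (S.hm σ a)).1 p
  ne_pt : ∀ a b p, feq (pt a).1 (pt b).1 p → a = b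
  hm_fix : ∀ e, ∀ σ ∈ S.Fx e, ∀ a ∈ e, S.hm σ a = a
  hm_add : ∀ σ ∈ S.Fx ∅, ∀ a b, S.hm σ (a + b) = S.hm σ a + S.hm σ b
  hm_U : ∀ σ ∈ S.Fx ∅, ∀ a, U (S.hm σ a) ↔ U a
  rs : Finset V → P → P
  le_rs : ∀ e p, p ≤ rs e p
  ex : ∀ (e : Finset V) (h : V ≃+ V), Aut U e h →
    ∃ σ ∈ S.Fx e, (∀ a, S.hm σ a = h a) ∧ ∀ p, σ (rs e p) = rs e p
  compat : ∀ e p q, q ≤ rs e p → ∃ σ ∈ S.Fx e, (∀ a, S.hm σ a = a) ∧ ∃ r, r ≤ σ p ∧ r ≤ q

variable {U : V → Prop} {P : Type} [Preorder P] [OrderTop P] {S : Sys P V} (ps : PS U S)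

/-- The restriction lemma. -/
theorem PS.rest {e : Finset V} {Φ : P → Prop} (hm : ∀ p q, Φ p → q ≤ p → Φ q)
    (hl : ∀ p, (∀ q, q ≤ p → ∃ r, r ≤ q ∧ Φ r) → Φ p)
    (hi : ∀ σ ∈ S.Fx e, (∀ a, S.hm σ a = a) → ∀ p, Φ p → Φ (σ p)) {p : P} (h : Φ p) :
    Φ (ps.rs e p) := by
  refine hl _ fun q hq => ?_
  obtain ⟨σ, hσ, h1, r, h2, h3⟩ := ps.compat e p q hq
  exact ⟨r, h3, hm _ _ (hi σ hσ h1 p h) h2⟩

/-- The set of the atoms. -/
noncomputable def PS.D : S.H :=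
  mkH S (ι := V) (fun a => ps.pt a) (fun _ => ⊤) ∅ (by
    intro σ hσ a q _ q' _
    exact ⟨q', le_rfl, S.hm σ a, le_top, ps.act_pt σ hσ a q'⟩)

/-- The addition. -/
noncomputable def PS.Ad : S.H :=
  mkH S (ι := V × V) (fun c => opH (opH (ps.pt c.1) (ps.pt c.2)) (ps.pt (c.1 + c.2)))
    (fun _ => ⊤) ∅ (by
    intro σ hσ c q _ q' _
    refine ⟨q', le_rfl, (S.hm σ c.1, S.hm σ c.2), le_top, ?_⟩
    refine feq_trans (act_opH hσ q') (opH_congr (feq_trans (act_opH hσ q')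
      (opH_congr (ps.act_pt σ hσ _ _) (ps.act_pt σ hσ _ _))) ?_)
    have h := ps.act_pt σ hσ (c.1 + c.2) q'
    rw [ps.hm_add σ hσ] at h
    exact h)

/-- The generic set. -/
noncomputable def PS.Us : S.H :=
  mkH S (ι := {a : V // U a}) (fun a => ps.pt a.1) (fun _ => ⊤) ∅ (by
    intro σ hσ a q _ q' _
    exact ⟨q', le_rfl, ⟨S.hm σ a.1, (ps.hm_U σ hσ _).2 a.2⟩, le_top, ps.act_pt σ hσ a.1 q'⟩)

/-- The family of the subsets with one more point in the support. -/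
noncomputable def PS.fm (y : S.H) (e : Finset V) (hy : S.Sp e y.1) : S.H :=
  mkH S (ι := {a : (V × Set (y.1.I × P)) × P // Cs y (insert a.1.1 e) a.1.2 a.2})
    (fun a => opH (ps.pt a.1.1.1) ⟨sbN y.1 a.1.1.2, (a.2.HS hy).2⟩) (fun a => a.1.2) e (by
    rintro σ hσ ⟨⟨⟨b, c⟩, q⟩, hc⟩ q1 hq1 q' hq'
    have h0 := Sys.mem0 S hσ
    obtain ⟨z, h1, h2, h3⟩ := hc
    have h4 : S.Sp (insert (S.hm σ b) e) (z.ac σ h0).1 := by
      have h5 := Sys.Sp.act S h1 h0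
      have h6 : (insert b e).image (S.hm σ) = insert (S.hm σ b) e := by
        rw [Finset.image_insert]
        congr 1
        ext v
        simp only [Finset.mem_image]
        constructor
        · rintro ⟨a, ha, rfl⟩
          rw [ps.hm_fix e σ hσ a ha]
          exact ha
        · intro ha
          exact ⟨v, ha, ps.hm_fix e σ hσ v ha⟩
      rwa [h6] at h5
    have h5 : fsub (z.ac σ h0).1 y.1 (σ q) :=
      fsub_trans (fsub_act' σ h2) (fsub_of_feq (hy σ hσ _))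
    have h6 : Cs y (insert (S.hm σ b) e) (cd y.1 (z.ac σ h0).1) (σ q) := ⟨_, h4, h5, rfl⟩
    refine ⟨q', le_rfl, ⟨((S.hm σ b, cd y.1 (z.ac σ h0).1), q'), h6.mono (hq'.trans hq1)⟩,
      le_rfl, ?_⟩
    refine feq_trans (act_opH h0 q') (opH_congr (ps.act_pt σ h0 b q') ?_)
    have h7 : feq (act σ (sbN y.1 c)) (act σ z.1) (σ q) := by
      refine feq_act' σ (feq_symm ?_)
      have h3' : cd y.1 z.1 = c := h3
      have h8 : feq z.1 (sbN y.1 (cd y.1 z.1)) q := cd_spec h2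
      rw [h3'] at h8
      exact h8
    exact feq_mono (feq_trans h7 (cd_spec h5)) (hq'.trans hq1))

/-- The index type of the operations. -/
abbrev SO (P : Type) : Type :=
  V ⊕ (Fin 3 ⊕ (Finset V ⊕ (Finset V ⊕ ((Finset V × P) ⊕ (V × P)))))

open Classical in
/-- The operations. -/
noncomputable def PS.op : SO P → List S.H → S.H
  | .inl v, _ => ps.pt v
  | .inr (.inl 0), _ => ps.D
  | .inr (.inl 1), _ => ps.Ad
  | .inr (.inl 2), _ => ps.Us
  | .inr (.inr (.inl e)), l => wX (wl l 0) e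
  | .inr (.inr (.inr (.inl e))), l => wR (wl l 0) e
  | .inr (.inr (.inr (.inr (.inl (e, q))))), l =>
    if h : ∃ y : S.H, S.Sp e y.1 ∧ feq (wl l 0).1 y.1 q then
      ps.fm h.choose e h.choose_spec.1 else S.emp
  | .inr (.inr (.inr (.inr (.inr (b, q))))), l =>
    if h : ∃ z : S.H, feq (wl l 0).1 (opH (ps.pt b) z).1 q then h.choose else S.emp

/-- The predicates to be decided. -/
def prP (j : Finset V × P) (l : List S.H) (r : P) : Prop := wP j.1 j.2 l r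

variable (g : GenD S (zop ps.op) (prP (S := S)))

namespace PS

include ps g

theorem T_pt (v : V) : ps.pt v ∈ g.T := g.opT (.inr (.inl v)) [] (by simp)

theorem T_D : ps.D ∈ g.T := g.opT (.inr (.inr (.inl 0))) [] (by simp)

theorem T_Ad : ps.Ad ∈ g.T := g.opT (.inr (.inr (.inl 1))) [] (by simp)

theorem T_Us : ps.Us ∈ g.T := g.opT (.inr (.inr (.inl 2))) [] (by simp)

theorem T_wX {x : S.H} (hx : x ∈ g.T) (e : Finset V) : wX x e ∈ g.T :=
  g.opT (.inr (.inr (.inr (.inl e)))) [x] (by simp [hx])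

theorem T_wR {x : S.H} (hx : x ∈ g.T) (e : Finset V) : wR x e ∈ g.T :=
  g.opT (.inr (.inr (.inr (.inr (.inl e))))) [x] (by simp [hx])

theorem exists_fm {x : S.H} (hx : x ∈ g.T) {e : Finset V} {q : P}
    (h : ∃ y : S.H, S.Sp e y.1 ∧ feq x.1 y.1 q) :
    ∃ (y : S.H) (hy : S.Sp e y.1), feq x.1 y.1 q ∧ ps.fm y e hy ∈ g.T := by
  have h1 := g.opT (.inr (.inr (.inr (.inr (.inr (.inl (e, q))))))) [x] (by simp [hx])
  have h2 : ∃ y : S.H, S.Sp e y.1 ∧ feq (wl [x] 0).1 y.1 q := h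
  refine ⟨h2.choose, h2.choose_spec.1, h2.choose_spec.2, ?_⟩
  simp only [zop, PS.op] at h1
  rwa [dif_pos h2] at h1

theorem exists_snd {x : S.H} (hx : x ∈ g.T) {b : V} {q : P}
    (h : ∃ z : S.H, feq x.1 (opH (ps.pt b) z).1 q) :
    ∃ z ∈ g.T, feq x.1 (opH (ps.pt b) z).1 q := by
  have h1 := g.opT (.inr (.inr (.inr (.inr (.inr (.inr (b, q))))))) [x] (by simp [hx])
  have h2 : ∃ z : S.H, feq (wl [x] 0).1 (opH (ps.pt b) z).1 q := h
  refine ⟨h2.choose, ?_, h2.choose_spec⟩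
  simp only [zop, PS.op] at h1
  rwa [dif_pos h2] at h1

/-- The atoms. -/
noncomputable def ptN (v : V) : g.N := g.vl (ps.pt v) (ps.T_pt g v)

theorem ptN_inj : Function.Injective (ps.ptN g) := by
  intro a b h
  obtain ⟨p, _, h1⟩ := g.vl_eq.1 h
  exact ps.ne_pt a b p h1

theorem mem_D' (x : g.N) : Mem x (g.vl _ (ps.T_D g)) ↔ ∃ a, x = ps.ptN g a := by
  obtain ⟨x, hx, rfl⟩ := g.exists_vl x
  rw [g.mem_vl']
  constructor
  · rintro ⟨a, p, hp, _, h⟩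
    exact ⟨a, g.vl_eq.2 ⟨p, hp, h⟩⟩
  · rintro ⟨a, h⟩
    obtain ⟨p, hp, h1⟩ := g.vl_eq.1 h
    exact ⟨a, p, hp, le_top, h1⟩

theorem mem_Us' (x : g.N) : Mem x (g.vl _ (ps.T_Us g)) ↔ ∃ a, U a ∧ x = ps.ptN g a := by
  obtain ⟨x, hx, rfl⟩ := g.exists_vl x
  rw [g.mem_vl']
  constructor
  · rintro ⟨a, p, hp, _, h⟩
    exact ⟨a.1, a.2, g.vl_eq.2 ⟨p, hp, h⟩⟩
  · rintro ⟨a, ha, h⟩
    obtain ⟨p, hp, h1⟩ := g.vl_eq.1 h
    exact ⟨⟨a, ha⟩, p, hp, le_top, h1⟩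

theorem mem_Ad' (z : g.N) : Mem z (g.vl _ (ps.T_Ad g)) ↔
    ∃ a b q, IsOrdPair q (ps.ptN g a) (ps.ptN g b) ∧ IsOrdPair z q (ps.ptN g (a + b)) := by
  obtain ⟨z, hz, rfl⟩ := g.exists_vl z
  rw [g.mem_vl']
  constructor
  · rintro ⟨⟨a, b⟩, p, hp, _, h⟩
    refine ⟨a, b, _, g.isOrdPair_op (ps.T_pt g a) (ps.T_pt g b), ?_⟩
    refine (g.isOrdPair_iff (g.T_op (ps.T_pt g a) (ps.T_pt g b)) (ps.T_pt g (a + b))).2 ?_
    exact g.vl_eq.2 ⟨p, hp, h⟩
  · rintro ⟨a, b, q, h1, h2⟩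
    have h3 := (g.isOrdPair_iff (ps.T_pt g a) (ps.T_pt g b)).1 h1
    subst h3
    have h4 := (g.isOrdPair_iff (g.T_op (ps.T_pt g a) (ps.T_pt g b)) (ps.T_pt g (a + b))).1 h2
    obtain ⟨p, hp, h5⟩ := g.vl_eq.1 h4
    exact ⟨(a, b), p, hp, le_top, h5⟩

theorem key1 (e : Finset V) (h : V ≃+ V) (hh : Aut U e h) (ι : Type) (p : (ι → g.N) → Prop)
    (hp : DZ p) (v v' : ι → g.N)
    (hv : ∀ i, (v i = v' i ∧ supN g e (v i)) ∨ ∃ a, v i = ps.ptN g a ∧ v' i = ps.ptN g (h a))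
    (h0 : p v) : p v' := by
  classical
  obtain ⟨φ, hφ⟩ := (Set.empty_definable_iff).1 hp
  have hφ' : ∀ u, p u ↔ φ.Realize u := fun u => by
    have h1 : u ∈ {v | p v} ↔ u ∈ Set.ofPred φ.Realize := by rw [hφ]
    exact h1
  have hc : _root_.Countable (g.N × g.N) := by
    have := g.countable_N
    infer_instance
  obtain ⟨enc, henc⟩ := hc.exists_injective_nat
  let gd : g.N × g.N → Prop := fun c =>
    (c.1 = c.2 ∧ supN g e c.1) ∨ ∃ a, c.1 = ps.ptN g a ∧ c.2 = ps.ptN g (h a)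
  let em : g.N := g.vl _ g.emp
  let V1 : g.N × g.N → g.N := fun c => if gd c then c.1 else em
  let V2 : g.N × g.N → g.N := fun c => if gd c then c.2 else em
  let ψ : Fm := conv enc (φ.relabel fun i => (v i, v' i))
  -- the data of a pair
  have hdata : ∀ c : g.N × g.N, ∃ (w w' y y' : S.H) (hw : w ∈ g.T) (hw' : w' ∈ g.T),
      g.vl w hw = V1 c ∧ g.vl w' hw' = V2 c ∧
      (∀ σ ∈ S.Fx e, (∀ a, S.hm σ a = a) → ∀ p, feq (act σ y.1) y.1 p) ∧
      (∀ σ ∈ S.Fx e, (∀ a, S.hm σ a = h a) → ∀ p, feq (act σ y.1) y'.1 p) ∧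
      ∃ q, q ∈ g.G ∧ feq w.1 y.1 q ∧ feq w'.1 y'.1 q := by
    intro c
    by_cases hg : gd c
    · rcases hg with ⟨h1, h2⟩ | ⟨a, h1, h2⟩
      · have hg : gd c := Or.inl ⟨h1, h2⟩
        obtain ⟨x, hx, h3⟩ := g.exists_vl c.1
        rw [← h3, supN_iff] at h2
        obtain ⟨y, h4, q, hq, h5⟩ := h2
        refine ⟨x, x, y, y, hx, hx, ?_, ?_, fun σ hσ _ p => h4 σ hσ p, fun σ hσ _ p => h4 σ hσ p,
          q, hq, h5, h5⟩
        · simp only [V1, if_pos hg, h3]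
        · simp only [V2, if_pos hg, h3, h1]
      · have hg : gd c := Or.inr ⟨a, h1, h2⟩
        obtain ⟨q, hq⟩ := g.ne
        refine ⟨ps.pt a, ps.pt (h a), ps.pt a, ps.pt (h a), ps.T_pt g a, ps.T_pt g (h a), ?_, ?_,
          fun σ hσ h3 p => ?_, fun σ hσ h3 p => ?_, q, hq, feq_refl _ _, feq_refl _ _⟩
        · simp only [V1, if_pos hg, h1]
          rfl
        · simp only [V2, if_pos hg, h2]
          rfl
        · have h4 := ps.act_pt σ (Sys.mem0 S hσ) a p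
          rwa [h3] at h4
        · have h4 := ps.act_pt σ (Sys.mem0 S hσ) a p
          rwa [h3] at h4
    · obtain ⟨q, hq⟩ := g.ne
      refine ⟨S.emp, S.emp, S.emp, S.emp, g.emp, g.emp, ?_, ?_, fun σ hσ _ p =>
        emp_sp σ (Sys.mem0 S hσ) p, fun σ hσ _ p => emp_sp σ (Sys.mem0 S hσ) p, q, hq,
        feq_refl _ _, feq_refl _ _⟩
      · simp only [V1, if_neg hg]
        rfl
      · simp only [V2, if_neg hg]
        rfl
  choose dw dw' dy dy' hdw hdw' hd1 hd2 hd3 hd4 hd5 using hdata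
  -- the assignments
  let dc : ℕ → g.N × g.N := fun n => if hn : ∃ c, n = 2 * enc c then hn.choose else (em, em)
  have hdc : ∀ c, dc (2 * enc c) = c := by
    intro c
    have hn : ∃ c', 2 * enc c = 2 * enc c' := ⟨c, rfl⟩
    simp only [dc, dif_pos hn]
    have h1 := hn.choose_spec
    exact (henc (by omega)).symm
  have hSat1 : Sat ψ (fun n => V1 (dc n)) := by
    refine (conv_spec enc _ V1 default _ (fun c => by rw [hdc]) (fun i => i.elim0)).1 ?_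
    refine Formula.realize_relabel.2 ?_
    have h1 : V1 ∘ (fun i => (v i, v' i)) = v := by
      funext i
      simp only [Function.comp, V1]
      rw [if_pos (hv i)]
    rw [h1]
    exact (hφ' v).1 h0
  -- forcing
  have hw1 : ∀ n, dw (dc n) ∈ g.T := fun n => hdw _
  have hw2 : ∀ n, dw' (dc n) ∈ g.T := fun n => hdw' _
  have h1 : ∃ p, p ∈ g.G ∧ forces ψ (fun n => dw (dc n)) p := by
    refine (g.truth hw1).1 ?_
    have h2 : (fun k => g.vl (dw (dc k)) (hw1 k)) = fun n => V1 (dc n) := funext fun n => hd1 _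
    rw [h2]
    exact hSat1
  obtain ⟨p1, hp1, h1⟩ := h1
  obtain ⟨p2, hp2, h2⟩ := fin_meet g (Φ := fun n q => feq (dw (dc n)).1 (dy (dc n)).1 q ∧
    feq (dw' (dc n)).1 (dy' (dc n)).1 q)
    (fun n p q h hq => ⟨feq_mono h.1 hq, feq_mono h.2 hq⟩) (fun n => hd5 _) ψ.bd
  obtain ⟨r, hr, h3, h4⟩ := g.dir p1 p2 hp1 hp2
  let Y : ℕ → S.H := wl (lst (fun n => dy (dc n)) ψ.bd)
  let Y' : ℕ → S.H := wl (lst (fun n => dy' (dc n)) ψ.bd)
  have hY : ∀ n, n < ψ.bd → Y n = dy (dc n) := fun n hn => wl_lst _ hn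
  have hY' : ∀ n, n < ψ.bd → Y' n = dy' (dc n) := fun n hn => wl_lst _ hn
  have hYe : ∀ n, ¬ n < ψ.bd → Y n = S.emp := fun n hn => by
    simp [Y, wl, lst, hn]
  have hYe' : ∀ n, ¬ n < ψ.bd → Y' n = S.emp := fun n hn => by
    simp [Y', wl, lst, hn]
  have h5 : forces ψ Y r := by
    have h6 : forces ψ (wl (lst (fun n => dw (dc n)) ψ.bd)) r :=
      (forces_bd fun n hn => (wl_lst _ hn).symm).1 (forces_mono h1 h3)
    refine forces_congr (fun n => ?_) h6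
    by_cases hn : n < ψ.bd
    · rw [wl_lst _ hn, hY n hn]
      exact feq_mono (h2 n hn).1 h4
    · rw [hYe n hn]
      have h7 : wl (lst (fun n => dw (dc n)) ψ.bd) n = S.emp := by
        simp [wl, lst, hn]
      rw [h7]
      exact feq_refl _ _
  have h6 : forces ψ Y (ps.rs e r) := by
    refine ps.rest (Φ := fun p => forces ψ Y p) (fun p q h hq => forces_mono h hq)
      (fun p h => forces_local h) (fun σ hσ h7 p h8 => ?_) h5
    refine forces_act (Sys.mem0 S hσ) (fun n => ?_) h8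
    by_cases hn : n < ψ.bd
    · rw [hY n hn]
      exact hd3 _ σ hσ h7 _
    · rw [hYe n hn]
      exact emp_sp σ (Sys.mem0 S hσ) _
  obtain ⟨σ, hσ, h7, h8⟩ := ps.ex e h hh
  have h9 : forces ψ Y' r := by
    have h10 : forces ψ Y' (σ (ps.rs e r)) := by
      refine forces_act (Sys.mem0 S hσ) (fun n => ?_) h6
      by_cases hn : n < ψ.bd
      · rw [hY n hn, hY' n hn]
        exact hd4 _ σ hσ h7 _
      · rw [hYe n hn, hYe' n hn]
        exact emp_sp σ (Sys.mem0 S hσ) _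
    rw [h8] at h10
    exact forces_mono h10 (ps.le_rs e r)
  have h10 : forces ψ (fun n => dw' (dc n)) r := by
    have h11 : forces ψ (wl (lst (fun n => dw' (dc n)) ψ.bd)) r := by
      refine forces_congr (fun n => ?_) h9
      by_cases hn : n < ψ.bd
      · rw [wl_lst _ hn, hY' n hn]
        exact feq_symm (feq_mono (h2 n hn).2 h4)
      · rw [hYe' n hn]
        have h7 : wl (lst (fun n => dw' (dc n)) ψ.bd) n = S.emp := by
          simp [wl, lst, hn]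
        rw [h7]
        exact feq_refl _ _
    exact (forces_bd fun n hn => wl_lst _ hn).1 h11
  have hSat2 : Sat ψ (fun n => V2 (dc n)) := by
    have h2 : (fun k => g.vl (dw' (dc k)) (hw2 k)) = fun n => V2 (dc n) := funext fun n => hd2 _
    rw [← h2]
    exact (g.truth hw2).2 ⟨r, hr, h10⟩
  have h11 := (conv_spec enc (φ.relabel fun i => (v i, v' i)) V2 default
    (fun n => V2 (dc n)) (fun c => by rw [hdc]) (fun i => i.elim0)).2 hSat2
  have h12 := Formula.realize_relabel.1 h11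
  have h13 : V2 ∘ (fun i => (v i, v' i)) = v' := by
    funext i
    simp only [Function.comp, V2]
    rw [if_pos (hv i)]
  rw [h13] at h12
  exact (hφ' v').2 h12

end PS

end Pool.Agent.H839R3.Nas
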