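import Pool.Agent.H635R2.Statement
import Pool.Agent.H310R3.TopDefs

/-!
# No amorphous sets, and only scattered compactifications: statements
-/

namespace Pool.Agent.H839R3.Nas

open FirstOrder FirstOrder.Language
open Pool.Agent.Helper672.Plain (LSet Mem IsPair IsOrdPair)
open Pool.Agent.H635Amen (ZF)
open Pool.Agent.H310Cards
open Pool.Agent.H310Top

universe u

/-! ### The combinatorial structure -/

/-- The vector space of countable dimension over the field with two elements. -/
abbrev V : Type := ℕ →₀ ZMod 2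

/-- The extension property: `U` is a generic subset of `V`. -/
def Ext (U : V → Prop) : Prop :=
  ∀ (A : Finset V) (F : Set V), ∃ x, x ∉ A ∧ ∀ a ∈ A, (U (x + a) ↔ a ∈ F)

/-- Homogeneity. -/
def Homog (U : V → Prop) : Prop :=
  ∀ (A : AddSubgroup V) (φ : A →+ V), Finite A → Function.Injective φ → (∀ a, U (φ a) ↔ U a) →
    ∃ h : V ≃+ V, (∀ v, U (h v) ↔ U v) ∧ ∀ a : A, h a = φ a

/-- Automorphisms that fix the points of `e`. -/
def Aut (U : V → Prop) (e : Set V) (h : V ≃+ V) : Prop := (∀ v, U (h v) ↔ U v) ∧ ∀ v ∈ e, h v = v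

/-! ### Notions in a model -/

section

variable {N : Type u} [LSet.Structure N]

/-- Definability without parameters. -/
def DZ {ι : Type} (p : (ι → N) → Prop) : Prop := (∅ : Set N).Definable LSet {v | p v}

/-- `r` is a (strict) well-ordering of `X` in the model. -/
structure IsWO (r X : N) : Prop where
  irrefl : ∀ x, ¬ App r x x
  trans : ∀ x y z, App r x y → App r y z → App r x z
  total : ∀ x y, Mem x X → Mem y X → x = y ∨ App r x y ∨ App r y x
  least : ∀ s, (∀ x, Mem x s → Mem x X) → (∃ x, Mem x s) →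
    ∃ x, Mem x s ∧ ∀ y, Mem y s → y = x ∨ App r x y

/-- `y` is amorphous: infinite, and every subset of `y` is finite or has finite complement. -/
def Amorphous (y : N) : Prop :=
  ¬ IsFinite y ∧ ∀ z, (∀ x, Mem x z → Mem x y) →
    IsFinite z ∨ ∀ w, (∀ x, Mem x w ↔ Mem x y ∧ ¬ Mem x z) → IsFinite w

/-- The space `k` with the topology `t` is, with the embedding `j`, a Hausdorff compactification
of the discrete space on the set `d`. -/
structure IsCompactification (k t j d : N) : Prop where
  top : IsTopology t k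
  compact : IsCompact t k
  haus : IsHausdorff t k
  inj : IsInj j d k
  disc : ∀ x y, App j x y →
    ∃ u, Mem u t ∧ Mem y u ∧ ∀ x' y', App j x' y' → Mem y' u → y' = y
  dense : ∀ u, Mem u t → (∃ z, Mem z u) → ∃ x y, App j x y ∧ Mem y u

end

/-- NAS: there are no amorphous sets. -/
def NAS (N : Type u) [LSet.Structure N] : Prop := ∀ y : N, ¬ Amorphous y

/-- INSHC: every infinite discrete space has a non-scattered Hausdorff compactification. -/
def INSHC (N : Type u) [LSet.Structure N] : Prop :=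
  ∀ d : N, ¬ IsFinite d → ∃ k t j, IsCompactification k t j d ∧ ¬ IsScattered t k

/-! ### The symmetric models -/

/-- What is used of the symmetric extension `N`: `pt v` (for `v` in `V`) are the atoms, and
`sup e x` says that `x` has a name with support `e`. -/
structure SM (U : V → Prop) (N : Type u) [LSet.Structure N] where
  zf : ZF N
  std : ∀ x : N, IsFinite x → {y | Mem y x}.Finite
  pt : V → N
  inj : Function.Injective pt
  sup : Finset V → N → Prop
  sup_mono : ∀ e e' x, e ⊆ e' → sup e x → sup e' x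
  sup_ex : ∀ x, ∃ e, sup e x
  sup_pt : ∀ v, sup {v} (pt v)
  /-- homogeneity over a support -/
  key : ∀ (e : Finset V) (h : V ≃+ V), Aut U e h → ∀ (ι : Type) (p : (ι → N) → Prop), DZ p →
    ∀ v v' : ι → N, (∀ i, (v i = v' i ∧ sup e (v i)) ∨ ∃ a, v i = pt a ∧ v' i = pt (h a)) →
      (p v ↔ p v')
  /-- what is definable from sets with support `e` has support `e` -/
  dfn : ∀ (e : Finset V) (ι : Type) (p : (ι ⊕ Unit → N) → Prop), DZ p → ∀ (v : ι → N) (z : N),
    (∀ i, sup e (v i)) → p (Sum.elim v fun _ => z) →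
      (∀ z', p (Sum.elim v fun _ => z') → z' = z) → sup e z
  /-- the set of the atoms -/
  D : N
  mem_D : ∀ x, Mem x D ↔ ∃ a, x = pt a
  sup_D : sup ∅ D
  /-- the addition -/
  Ad : N
  mem_Ad : ∀ z, Mem z Ad ↔ ∃ a b q, IsOrdPair q (pt a) (pt b) ∧ IsOrdPair z q (pt (a + b))
  sup_Ad : sup ∅ Ad
  /-- the generic set -/
  Us : N
  mem_Us : ∀ x, Mem x Us ↔ ∃ a, U a ∧ x = pt a
  sup_Us : sup ∅ Us
  /-- the subsets of `Y` with support `e` form a set that can be well-ordered -/
  wo : ∀ (Y : N) (e : Finset V), ∃ X r : N,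
    (∀ Z, Mem Z X ↔ (∀ z, Mem z Z → Mem z Y) ∧ sup e Z) ∧ IsWO r X
  /-- the family, indexed by the atoms, of the sets of the subsets of `Y` with one more point in
  the support -/
  fam : ∀ (Y : N) (e : Finset V), sup e Y → ∃ S : N, sup e S ∧
    ∀ q, Mem q S ↔ ∃ b Z, IsOrdPair q (pt b) Z ∧ (∀ z, Mem z Z → Mem z Y) ∧ sup (insert b e) Z

section

variable {U : V → Prop} {N : Type u} [LSet.Structure N]

/-- The points of the space whose neighbourhoods all meet the image of `P`. -/
def InCl (S : SM U N) (k t j : N) (P : Set V) (q : N) : Prop :=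
  Mem q k ∧ ∀ u, Mem u t → Mem q u → ∃ x ∈ P, ∃ y, App j (S.pt x) y ∧ Mem y u

/-- The points with the pattern `f` over `H`. -/
def Pat (U : V → Prop) (H : Set V) (f : V → Prop) : Set V := {x | ∀ h ∈ H, (U (x + h) ↔ f h)}

end

/-! ### The tasks -/

/-- The generic set exists. -/
def TaskU : Prop := ∃ U : V → Prop, Ext U

/-- Back and forth. -/
def TaskH : Prop := ∀ U, Ext U → Homog U

/-- One bit: the closures of two patterns that differ at one place `w` outside the support
meet. -/
def TaskTop1 : Prop :=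
  ∀ U : V → Prop, Ext U → Homog U → ∀ (N : Type 1) [LSet.Structure N] (S : SM U N) (k t j : N),
    IsCompactification k t j S.D → ∀ e : Finset V, S.sup e k → S.sup e t → S.sup e j →
    ∀ (H : AddSubgroup V) (w : V), (H : Set V).Finite → (e : Set V) ⊆ H → w ∉ H →
    ∀ f f' : V → Prop, (∀ v, v ≠ w → (f v ↔ f' v)) →
    ∃ q, InCl S k t j (Pat U {v | v ∈ H ∨ v + w ∈ H} f) q ∧
      InCl S k t j (Pat U {v | v ∈ H ∨ v + w ∈ H} f') q

/-- The limit of the definable type given by `g`. -/
def TaskLim : Prop :=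
  ∀ U : V → Prop, Ext U → Homog U → ∀ (N : Type 1) [LSet.Structure N] (S : SM U N) (k t j : N),
    IsCompactification k t j S.D → ∀ g : V → Prop, {v | g v}.Finite →
    ∃ a, (∀ x, ¬ App j x a) ∧
      (∀ W : AddSubgroup V, (W : Set V).Finite → InCl S k t j (Pat U W g) a) ∧
      ∀ b, (∀ W : AddSubgroup V, (W : Set V).Finite → InCl S k t j (Pat U W g) b) → b = a

/-- Uniqueness of the limit points of an orbit. -/
def TaskTop2 : Prop :=
  TaskTop1 → TaskLim →
  ∀ U : V → Prop, Ext U → Homog U → ∀ (N : Type 1) [LSet.Structure N] (S : SM U N) (k t j : N),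
    IsCompactification k t j S.D → ∀ e : Finset V, S.sup e k → S.sup e t → S.sup e j →
    ∀ (E : AddSubgroup V), (E : Set V).Finite → (e : Set V) ⊆ E →
    ∀ (f : V → Prop) (p q : N), (∀ x, ¬ App j x p) → (∀ x, ¬ App j x q) →
    InCl S k t j (Pat U E f) p → InCl S k t j (Pat U E f) q → p = q

/-- All compactifications of the set of the atoms are scattered. -/
def TaskTop3 : Prop :=
  (∀ U : V → Prop, Ext U → Homog U → ∀ (N : Type 1) [LSet.Structure N] (S : SM U N) (k t j : N),
    IsCompactification k t j S.D → ∀ e : Finset V, S.sup e k → S.sup e t → S.sup e j →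
    ∀ (E : AddSubgroup V), (E : Set V).Finite → (e : Set V) ⊆ E →
    ∀ (f : V → Prop) (p q : N), (∀ x, ¬ App j x p) → (∀ x, ¬ App j x q) →
    InCl S k t j (Pat U E f) p → InCl S k t j (Pat U E f) q → p = q) →
  ∀ U : V → Prop, Ext U → Homog U → ∀ (N : Type 1) [LSet.Structure N] (S : SM U N) (k t j : N),
    IsCompactification k t j S.D → IsScattered t k

/-- A well-founded total preorder with finite classes on an infinite subset `y'` of `y` gives a
partition of `y` into two infinite sets. -/
def TaskSplit : Prop :=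
  ∀ (N : Type 1) [LSet.Structure N], ZF N → (∀ x : N, IsFinite x → {y | Mem y x}.Finite) →
    ∀ y y' r : N, Amorphous y → (∀ x, Mem x y' → Mem x y) → ¬ IsFinite y' →
      (∀ a b c, Mem a y' → Mem b y' → Mem c y' → App r a b → App r b c → App r a c) →
      (∀ a b, Mem a y' → Mem b y' → App r a b ∨ App r b a) →
      (∀ s, (∀ x, Mem x s → Mem x y') → (∃ x, Mem x s) → ∃ x, Mem x s ∧ ∀ z, Mem z s → App r x z) →
      (∀ a, Mem a y' → {b | Mem b y' ∧ App r a b ∧ App r b a}.Finite) → False

/-- An amorphous set `y` has no finite-to-one map from an infinite subset of a set `d` without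
amorphous subsets to the set of the subsets of `y` with at most `n` elements. -/
def TaskFto : Prop :=
  TaskSplit →
  ∀ (N : Type 1) [LSet.Structure N], ZF N → (∀ x : N, IsFinite x → {y | Mem y x}.Finite) →
    ∀ (y : N), Amorphous y → ∀ (n : ℕ) (d g : N),
      (∀ b, (∀ x, Mem x b → Mem x d) → ¬ Amorphous b) → ¬ IsFinite d →
      -- `g` is a relation between the elements of `d` and the elements of `y`
      (∀ x, Mem x d → ∃ l : Finset N, l.card ≤ n ∧ ∀ z, App g x z ↔ z ∈ l) →
      (∀ x z, App g x z → Mem x d → Mem z y) →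
      (∀ x, Mem x d → {x' | Mem x' d ∧ ∀ z, App g x z ↔ App g x' z}.Finite) → False

/-- Only finitely many finite subsets of an amorphous set have a given support. -/
def TaskAcl : Prop :=
  TaskSplit →
  ∀ (U : V → Prop) (N : Type 1) [LSet.Structure N] (S : SM U N) (y : N), Amorphous y →
    ∀ e : Finset V, {x | ∃ z, IsFinite z ∧ (∀ w, Mem w z → Mem w y) ∧ S.sup e z ∧ Mem x z}.Finite

/-- No subset of the set of the atoms is amorphous. -/
def TaskD : Prop :=
  ∀ U : V → Prop, Ext U → Homog U → ∀ (N : Type 1) [LSet.Structure N] (S : SM U N) (b : N),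
    (∀ x, Mem x b → Mem x S.D) → ¬ Amorphous b

/-- There are no amorphous sets. -/
def TaskNas : Prop :=
  (∀ (N : Type 1) [LSet.Structure N], ZF N → (∀ x : N, IsFinite x → {y | Mem y x}.Finite) →
    ∀ (y : N), Amorphous y → ∀ (n : ℕ) (d g : N),
      (∀ b, (∀ x, Mem x b → Mem x d) → ¬ Amorphous b) → ¬ IsFinite d →
      (∀ x, Mem x d → ∃ l : Finset N, l.card ≤ n ∧ ∀ z, App g x z ↔ z ∈ l) →
      (∀ x z, App g x z → Mem x d → Mem z y) →
      (∀ x, Mem x d → {x' | Mem x' d ∧ ∀ z, App g x z ↔ App g x' z}.Finite) → False) →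
  (∀ (U : V → Prop) (N : Type 1) [LSet.Structure N] (S : SM U N) (y : N), Amorphous y →
    ∀ e : Finset V,
      {x | ∃ z, IsFinite z ∧ (∀ w, Mem w z → Mem w y) ∧ S.sup e z ∧ Mem x z}.Finite) →
  TaskD →
  ∀ U : V → Prop, Ext U → Homog U → ∀ (N : Type 1) [LSet.Structure N] (_ : SM U N), NAS N

/-- The symmetric extension. -/
def TaskModel : Prop := ∀ U : V → Prop, Ext U → Homog U →
  ∃ (N : Type 1) (_ : LSet.Structure N), Nonempty (SM U N)

theorem infinite_D {U : V → Prop} {N : Type u} [LSet.Structure N] (S : SM U N) :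
    ¬ IsFinite S.D := by
  intro h
  have h1 := S.std _ h
  have h2 : Set.range S.pt ⊆ {y | Mem y S.D} := by
    rintro _ ⟨a, rfl⟩
    exact (S.mem_D _).2 ⟨a, rfl⟩
  have h3 := (h1.subset h2)
  exact (Set.infinite_range_of_injective S.inj) h3

/-- The assembly. -/
theorem final (hU : TaskU) (hH : TaskH) (h1 : TaskTop1) (hl : TaskLim) (h2 : TaskTop2)
    (h3 : TaskTop3)
    (hs : TaskSplit) (hf : TaskFto) (ha : TaskAcl) (hd : TaskD) (hn : TaskNas)
    (hm : TaskModel) : ∃ (N : Type 1) (_ : LSet.Structure N), ZF N ∧ NAS N ∧ ¬ INSHC N := by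
  obtain ⟨U, hE⟩ := hU
  have hHo := hH U hE
  obtain ⟨N, _, ⟨S⟩⟩ := hm U hE hHo
  refine ⟨N, inferInstance, S.zf, hn (hf hs) (ha hs) hd U hE hHo N S, fun hI => ?_⟩
  obtain ⟨k, t, j, hc, hns⟩ := hI S.D (infinite_D S)
  exact hns (h3 (h2 h1 hl) U hE hHo N S k t j hc)

end Pool.Agent.H839R3.Nas
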