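import Pool.Agent.H839R3.Nas.Sm

/-!
# The remaining tasks about the symmetric extension
-/

namespace Pool.Agent.H839R3.Nas

open Nm GenD FirstOrder FirstOrder.Language
open Pool.Agent.Helper672.Plain (LSet Mem Sym IsPair IsOrdPair)
open Pool.Agent.H310Cards

/-- The natural numbers of the extension are standard. -/
def TaskStd : Prop :=
  ∀ (P : Type) [Preorder P] [OrderTop P] (S : Sys P V) (O J : Type) (op : O → List S.H → S.H)
    (pr : J → List S.H → P → Prop) (g : GenD S (zop op) pr) (x : g.N), IsFinite x →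
      {y | Mem y x}.Finite

/-- Definability and supports. -/
def TaskDfn : Prop :=
  ∀ (P : Type) [Preorder P] [OrderTop P] (S : Sys P V) (O J : Type) (op : O → List S.H → S.H)
    (pr : J → List S.H → P → Prop) (g : GenD S (zop op) pr) (e : Finset V) (ι : Type)
    (p : (ι ⊕ Unit → g.N) → Prop), DZ p → ∀ (v : ι → g.N) (z : g.N),
      (∀ i, supN g e (v i)) → p (Sum.elim v fun _ => z) →
        (∀ z', p (Sum.elim v fun _ => z') → z' = z) → supN g e z

/-- The well-ordering of the subsets with support `e`. -/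
def TaskWo : Prop :=
  ∀ (U : V → Prop) (P : Type) [Preorder P] [OrderTop P] (S : Sys P V) (ps : PS U S)
    (g : GenD S (zop ps.op) (prP (S := S))) (Y : g.N) (e : Finset V), ∃ X r : g.N,
      (∀ Z, Mem Z X ↔ (∀ z, Mem z Z → Mem z Y) ∧ supN g e Z) ∧ IsWO r X

/-- The family. -/
def TaskFam : Prop :=
  ∀ (U : V → Prop) (P : Type) [Preorder P] [OrderTop P] (S : Sys P V) (ps : PS U S)
    (g : GenD S (zop ps.op) (prP (S := S))) (Y : g.N) (e : Finset V), supN g e Y →
      ∃ F : g.N, supN g e F ∧ ∀ q, Mem q F ↔ ∃ b Z, IsOrdPair q (ps.ptN g b) Z ∧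
        (∀ z, Mem z Z → Mem z Y) ∧ supN g (insert b e) Z

/-- The concrete forcing. -/
def TaskPS : Prop :=
  ∀ U : V → Prop, ∃ (P : Type) (_ : Preorder P) (_ : OrderTop P) (_ : _root_.Countable P)
    (S : Sys P V), Nonempty (PS U S)

theorem modelOf (h1 : TaskStd) (h2 : TaskDfn) (h3 : TaskWo) (h4 : TaskFam) (h5 : TaskPS) :
    TaskModel := by
  intro U _ _
  obtain ⟨P, _, _, _, S, ⟨ps⟩⟩ := h5 U
  obtain ⟨g⟩ := exists_GenD S (zop ps.op) (prP (S := S))
  refine ⟨g.N, inferInstance, ⟨?_⟩⟩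
  exact
    { zf := g.zf
      std := h1 P S _ _ _ _ g
      pt := ps.ptN g
      inj := ps.ptN_inj g
      sup := supN g
      sup_mono := fun e e' x he hx => by
        obtain ⟨x, hx', rfl⟩ := g.exists_vl x
        rw [supN_iff] at hx ⊢
        obtain ⟨y, h6, h7⟩ := hx
        exact ⟨y, h6.mono S he, h7⟩
      sup_ex := fun x => by
        obtain ⟨x, hx', rfl⟩ := g.exists_vl x
        obtain ⟨e, he⟩ := x.sp
        obtain ⟨p, hp⟩ := g.ne
        exact ⟨e, (supN_iff g).2 ⟨x, he, p, hp, feq_refl _ _⟩⟩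
      sup_pt := fun v => by
        obtain ⟨p, hp⟩ := g.ne
        refine (supN_iff g).2 ⟨ps.pt v, fun σ hσ q => ?_, p, hp, feq_refl _ _⟩
        have h6 := ps.act_pt σ (Sys.mem0 S hσ) v q
        rwa [ps.hm_fix _ σ hσ v (by simp)] at h6
      key := fun e h hh ι p hp v v' hv => by
        refine ⟨ps.key1 g e h hh ι p hp v v' hv, ps.key1 g e h.symm ⟨fun a => ?_, fun a ha => ?_⟩
          ι p hp v' v fun i => ?_⟩
        · rw [← hh.1 (h.symm a), h.apply_symm_apply]
        · rw [← hh.2 a ha, h.symm_apply_apply]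
          exact (hh.2 a ha).symm
        · rcases hv i with ⟨h6, h7⟩ | ⟨a, h6, h7⟩
          · exact Or.inl ⟨h6.symm, h6 ▸ h7⟩
          · exact Or.inr ⟨h a, h7, by rw [h.symm_apply_apply]; exact h6⟩
      dfn := h2 P S _ _ _ _ g
      D := g.vl _ (ps.T_D g)
      mem_D := ps.mem_D' g
      sup_D := by
        obtain ⟨p, hp⟩ := g.ne
        refine (supN_iff g).2 ⟨ps.D, ?_, p, hp, feq_refl _ _⟩
        refine sp_of fun σ hσ a q _ q' _ => ?_
        exact ⟨q', le_rfl, S.hm σ a, le_top, ps.act_pt σ hσ a q'⟩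
      Ad := g.vl _ (ps.T_Ad g)
      mem_Ad := ps.mem_Ad' g
      sup_Ad := by
        obtain ⟨p, hp⟩ := g.ne
        refine (supN_iff g).2 ⟨ps.Ad, ?_, p, hp, feq_refl _ _⟩
        refine sp_of fun σ hσ c q _ q' _ => ?_
        refine ⟨q', le_rfl, (S.hm σ c.1, S.hm σ c.2), le_top, ?_⟩
        refine feq_trans (act_opH hσ q') (opH_congr (feq_trans (act_opH hσ q')
          (opH_congr (ps.act_pt σ hσ _ _) (ps.act_pt σ hσ _ _))) ?_)
        have h := ps.act_pt σ hσ (c.1 + c.2) q'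
        rw [ps.hm_add σ hσ] at h
        exact h
      Us := g.vl _ (ps.T_Us g)
      mem_Us := ps.mem_Us' g
      sup_Us := by
        obtain ⟨p, hp⟩ := g.ne
        refine (supN_iff g).2 ⟨ps.Us, ?_, p, hp, feq_refl _ _⟩
        refine sp_of fun σ hσ a q _ q' _ => ?_
        exact ⟨q', le_rfl, ⟨S.hm σ a.1, (ps.hm_U σ hσ _).2 a.2⟩, le_top, ps.act_pt σ hσ a.1 q'⟩
      wo := h3 U P S ps g
      fam := h4 U P S ps g }

end Pool.Agent.H839R3.Nas
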