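import Pool.Agent.H839R3.Nas.Forces
import Pool.Agent.H839R3.Nas.Stmts

/-!
# Generic filters and the truth lemma
-/

namespace Pool.Agent.H839R3.Nas

open Nm FirstOrder FirstOrder.Language
open Pool.Agent.Helper672.Plain (LSet Mem Sym)

/-! ### Generic filters for countably many requirements -/

theorem exists_filter {P : Type} [Preorder P] (p₀ : P) {K : Type 1} [Countable K]
    (R : K → P → Prop) : ∃ G : Set P, (∀ p q, p ∈ G → p ≤ q → q ∈ G) ∧
      (∀ p q, p ∈ G → q ∈ G → ∃ r, r ∈ G ∧ r ≤ p ∧ r ≤ q) ∧ (∃ p, p ∈ G) ∧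
      ∀ k, ∃ p, p ∈ G ∧ (R k p ∨ ∀ q, q ≤ p → ¬ R k q) := by
  classical
  have _ := Encodable.ofCountable K
  let nx : P → K → P := fun p k => if h : ∃ q, q ≤ p ∧ R k q then h.choose else p
  have hnx : ∀ p k, nx p k ≤ p := fun p k => by
    by_cases h : ∃ q, q ≤ p ∧ R k q
    · simp only [nx, dif_pos h]
      exact h.choose_spec.1
    · simp only [nx, dif_neg h]
      exact le_rfl
  let sq : ℕ → P := fun n => Nat.rec p₀ (fun n p => match (Encodable.decode n : Option K) with
    | none => p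
    | some k => nx p k) n
  have hnx2 : ∀ p k, (∃ q, q ≤ p ∧ R k q) → R k (nx p k) := fun p k h => by
    simp only [nx, dif_pos h]
    exact h.choose_spec.2
  have hsq : ∀ n, sq (n + 1) ≤ sq n := fun n => by
    change (match (Encodable.decode n : Option K) with
      | none => sq n
      | some k => nx (sq n) k) ≤ sq n
    cases (Encodable.decode n : Option K) with
    | none => exact le_rfl
    | some s => exact hnx _ _
  have hmono : ∀ m n, sq (m + n) ≤ sq m := fun m n => by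
    induction n with
    | zero => exact le_rfl
    | succ n ih => exact (hsq (m + n)).trans ih
  refine ⟨{p | ∃ n, sq n ≤ p}, fun p q ⟨n, hn⟩ hq => ⟨n, hn.trans hq⟩, ?_,
    ⟨p₀, 0, le_rfl⟩, ?_⟩
  · rintro p q ⟨n, hn⟩ ⟨m, hm⟩
    refine ⟨sq (n + m), ⟨n + m, le_rfl⟩, (hmono n m).trans hn, ?_⟩
    rw [add_comm]
    exact (hmono m n).trans hm
  · intro k
    refine ⟨sq (Encodable.encode k + 1), ⟨Encodable.encode k + 1, le_rfl⟩, ?_⟩
    have h1 : sq (Encodable.encode k + 1) = nx (sq (Encodable.encode k)) k := by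
      change (match (Encodable.decode (Encodable.encode k) : Option K) with
        | none => sq (Encodable.encode k)
        | some s => nx (sq (Encodable.encode k)) s) = _
      rw [Encodable.encodek]
    rw [h1]
    rcases Classical.em (∃ q, q ≤ sq (Encodable.encode k) ∧ R k q) with h | h
    · left
      exact hnx2 _ _ h
    · right
      intro q hq h2
      exact h ⟨q, hq.trans (hnx _ _), h2⟩

theorem cntA {O : Type} {α : Type 1} (h1 : _root_.Countable O) (h2 : _root_.Countable α) :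
    _root_.Countable (O × List α) := inferInstance

theorem exists_closed {H : Type 1} {O : Type} [Countable O] (op : O → List H → H) :
    ∃ T : Set H, T.Countable ∧ ∀ o l, (∀ x ∈ l, x ∈ T) → op o l ∈ T := by
  let F : Set H → Set H := fun X => X ∪ Set.range (fun x : O × List X => op x.1 (x.2.map (·.1)))
  let Tn : ℕ → Set H := fun n => Nat.rec ∅ (fun _ X => F X) n
  have hs : ∀ n, Tn (n + 1) = F (Tn n) := fun _ => rfl
  have hc : ∀ n, (Tn n).Countable := by
    intro n
    induction n with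
    | zero => exact Set.countable_empty
    | succ n ih =>
      rw [hs]
      have h2 := cntA (O := O) inferInstance (Set.countable_coe_iff.2 ih)
      exact ih.union (@Set.countable_range _ _ h2 _)
  have hm : ∀ m n, Tn m ⊆ Tn (m + n) := by
    intro m n
    induction n with
    | zero => exact subset_rfl
    | succ n ih => exact ih.trans Set.subset_union_left
  refine ⟨⋃ n, Tn n, Set.countable_iUnion hc, fun o l hl => ?_⟩
  have h1 : ∃ n, ∀ x ∈ l, x ∈ Tn n := by
    induction l with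
    | nil => exact ⟨0, fun x hx => absurd hx List.not_mem_nil⟩
    | cons a l ih =>
      obtain ⟨n, hn⟩ := ih fun x hx => hl x (List.mem_cons_of_mem _ hx)
      obtain ⟨m, hm'⟩ := Set.mem_iUnion.1 (hl a List.mem_cons_self)
      refine ⟨n + m, fun x hx => ?_⟩
      rcases List.mem_cons.1 hx with rfl | hx
      · rw [add_comm]
        exact hm _ _ hm'
      · exact hm _ _ (hn x hx)
  obtain ⟨n, hn⟩ := h1
  refine Set.mem_iUnion.2 ⟨n + 1, Or.inr ⟨(o, l.attach.map fun x => ⟨x.1, hn x.1 x.2⟩), ?_⟩⟩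
  simp only [List.map_map]
  congr 1
  exact List.attach_map_subtype_val l

section

variable {P V : Type} [Preorder P] [DecidableEq V] {S : Sys P V}

variable (S) in
/-- The empty name. -/
def Sys.emp : S.H := ⟨⟨Empty, Empty.elim, Empty.elim⟩, (S.HS_iff _).2 ⟨⟨∅, fun σ _ p => by
  refine feq_of_mem (fun i => ?_) (fun i => i.elim)
  obtain ⟨i, rfl⟩ := ai_surj _ _ i
  exact i.elim⟩, fun i => i.elim⟩⟩

/-- The assignment given by a list. -/
def wl (l : List S.H) : ℕ → S.H := fun i => l.getD i S.emp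

/-- The requirements. -/
def prF {J : Type} (pr : J → List S.H → P → Prop) :
    (J ⊕ (Fm ⊕ ((Fm × ℕ) ⊕ Unit))) → List S.H → P → Prop
  | .inl j, l, p => pr j l p
  | .inr (.inl φ), l, p => forces φ (wl l) p
  | .inr (.inr (.inl (φ, i))), l, p => ∃ x : S.H, forces φ.neg (Function.update (wl l) i x) p
  | .inr (.inr (.inr _)), l, p => ∃ i, p ≤ (wl l 1).1.B i ∧ feq (wl l 0).1 ((wl l 1).1.A i) p

open Classical in
/-- The closure operations. -/
noncomputable def opG {O : Type} (op : O → List S.H → S.H) :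
    (O ⊕ (Fm × ℕ × P)) → List S.H → S.H
  | .inl o, l => op o l
  | .inr (φ, i, p), l => if h : ∃ x : S.H, forces φ.neg (Function.update (wl l) i x) p then
      h.choose else S.emp

/-- A countable set of names with a generic filter. -/
structure GenD (S : Sys P V) {O J : Type} (op : O → List S.H → S.H)
    (pr : J → List S.H → P → Prop) where
  T : Set S.H
  G : Set P
  cT : T.Countable
  opT : ∀ o l, (∀ x ∈ l, x ∈ T) → op o l ∈ T
  emp : S.emp ∈ T
  sk : ∀ (φ : Fm) (i : ℕ) (p : P) (l : List S.H), (∀ x ∈ l, x ∈ T) →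
    (∃ x : S.H, forces φ.neg (Function.update (wl l) i x) p) →
      ∃ x ∈ T, forces φ.neg (Function.update (wl l) i x) p
  up : ∀ p q, p ∈ G → p ≤ q → q ∈ G
  dir : ∀ p q, p ∈ G → q ∈ G → ∃ r, r ∈ G ∧ r ≤ p ∧ r ≤ q
  ne : ∃ p, p ∈ G
  dec : ∀ j l, (∀ x ∈ l, x ∈ T) → ∃ p, p ∈ G ∧ (prF pr j l p ∨ ∀ q, q ≤ p → ¬ prF pr j l q)

theorem exists_GenD [Countable P] [Nonempty P] (S : Sys P V) {O J : Type} [Countable O]
    [Countable J] (op : O → List S.H → S.H) (pr : J → List S.H → P → Prop) :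
    Nonempty (GenD S op pr) := by
  classical
  obtain ⟨T₀, hT₀, h₀⟩ := exists_closed (H := S.H) (O := (O ⊕ (Fm × ℕ × P)) ⊕ Unit)
    (fun o l => match o with
      | .inl o => opG op o l
      | .inr _ => S.emp)
  have _ : Countable T₀ := hT₀
  obtain ⟨G, h1, h2, h3, h4⟩ := exists_filter (Classical.arbitrary P)
    (K := (J ⊕ (Fm ⊕ ((Fm × ℕ) ⊕ Unit))) × List T₀)
    (fun k p => prF pr k.1 (k.2.map (·.1)) p)
  refine ⟨⟨T₀, G, hT₀, fun o l hl => h₀ (.inl (.inl o)) l hl, h₀ (.inr ()) [] (by simp), ?_,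
    h1, h2, h3, ?_⟩⟩
  · intro φ i p l hl h
    refine ⟨_, h₀ (.inl (.inr (φ, i, p))) l hl, ?_⟩
    simp only [opG, dif_pos h]
    exact h.choose_spec
  · intro j l hl
    let l' : List T₀ := l.attach.map (fun x : {y // y ∈ l} => (⟨x.1, hl x.1 x.2⟩ : T₀))
    have h6 : l'.map (fun y => y.1) = l := by
      simp only [l', List.map_map]
      exact List.attach_map_subtype_val l
    obtain ⟨p, hp, h5⟩ := h4 (j, l')
    refine ⟨p, hp, ?_⟩
    simp only [h6] at h5
    exact h5

variable {O J : Type} {op : O → List S.H → S.H} {pr : J → List S.H → P → Prop}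

namespace GenD

variable (g : GenD S op pr)

theorem meet {R : P → Prop} {p₀ : P} (hp : p₀ ∈ g.G)
    (hd : ∃ p, p ∈ g.G ∧ (R p ∨ ∀ q, q ≤ p → ¬ R q))
    (h : ∀ q, q ≤ p₀ → ∃ r, r ≤ q ∧ R r) : ∃ p, p ∈ g.G ∧ R p := by
  obtain ⟨p, h1, h2⟩ := hd
  rcases h2 with h2 | h2
  · exact ⟨p, h1, h2⟩
  · obtain ⟨r, h3, h4, h5⟩ := g.dir p p₀ h1 hp
    obtain ⟨s, h6, h7⟩ := h r h5
    exact absurd h7 (h2 s (h6.trans h4))

/-- Identification of names. -/
def std : Setoid g.T where
  r x y := ∃ p, p ∈ g.G ∧ feq x.1.1 y.1.1 p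
  iseqv := ⟨fun x => by
      obtain ⟨p, hp⟩ := g.ne
      exact ⟨p, hp, feq_refl _ p⟩,
    fun ⟨p, hp, h⟩ => ⟨p, hp, feq_symm h⟩,
    fun ⟨p, hp, h⟩ ⟨q, hq, h'⟩ => by
      obtain ⟨r, hr, h1, h2⟩ := g.dir p q hp hq
      exact ⟨r, hr, feq_trans (feq_mono h h1) (feq_mono h' h2)⟩⟩

/-- The model. -/
def N : Type 1 := Quotient g.std

/-- The element given by a name. -/
def vl (x : S.H) (hx : x ∈ g.T) : g.N := Quotient.mk g.std ⟨x, hx⟩

theorem vl_eq {x y : S.H} {hx : x ∈ g.T} {hy : y ∈ g.T} :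
    g.vl x hx = g.vl y hy ↔ ∃ p, p ∈ g.G ∧ feq x.1 y.1 p := Quotient.eq

theorem exists_vl (a : g.N) : ∃ x hx, g.vl x hx = a := by
  induction a using Quotient.ind with
  | _ y => exact ⟨y.1, y.2, rfl⟩

/-- Membership. -/
def nmem : g.N → g.N → Prop :=
  Quotient.lift₂ (s₁ := g.std) (s₂ := g.std) (fun x y => ∃ p, p ∈ g.G ∧ fmem x.1.1 y.1.1 p)
    (by
      rintro x y x' y' ⟨p, hp, h⟩ ⟨q, hq, h'⟩
      refine propext ⟨?_, ?_⟩
      · rintro ⟨r, hr, h1⟩
        obtain ⟨r1, hr1, h2, h3⟩ := g.dir p q hp hq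
        obtain ⟨r2, hr2, h4, h5⟩ := g.dir r r1 hr hr1
        exact ⟨r2, hr2, fmem_congr_left (feq_mono h (h5.trans h2))
          (fmem_congr_right (feq_mono h' (h5.trans h3)) (fmem_mono h1 h4))⟩
      · rintro ⟨r, hr, h1⟩
        obtain ⟨r1, hr1, h2, h3⟩ := g.dir p q hp hq
        obtain ⟨r2, hr2, h4, h5⟩ := g.dir r r1 hr hr1
        exact ⟨r2, hr2, fmem_congr_left (feq_symm (feq_mono h (h5.trans h2)))
          (fmem_congr_right (feq_symm (feq_mono h' (h5.trans h3))) (fmem_mono h1 h4))⟩)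

noncomputable instance : LSet.Structure g.N where
  funMap := fun f => Empty.elim f
  RelMap := fun {_} r v => match r, v with
    | Sym.mem, v => g.nmem (v 0) (v 1)

theorem mem_vl {x y : S.H} {hx : x ∈ g.T} {hy : y ∈ g.T} :
    Mem (g.vl x hx) (g.vl y hy) ↔ ∃ p, p ∈ g.G ∧ fmem x.1 y.1 p := Iff.rfl

theorem mem_vl' {x y : S.H} {hx : x ∈ g.T} {hy : y ∈ g.T} :
    Mem (g.vl x hx) (g.vl y hy) ↔ ∃ i p, p ∈ g.G ∧ p ≤ y.1.B i ∧ feq x.1 (y.1.A i) p := by
  rw [mem_vl]
  constructor
  · rintro ⟨p, hp, h⟩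
    have h1 := g.dec (.inr (.inr (.inr ()))) [x, y] (by simp [hx, hy])
    obtain ⟨q, hq, i, h2, h3⟩ := g.meet hp h1 h
    exact ⟨i, q, hq, h2, h3⟩
  · rintro ⟨i, p, hp, h1, h2⟩
    exact ⟨p, hp, fmem_congr_left (feq_symm h2) (fmem_self _ i h1)⟩

/-- Satisfaction. -/
def Sat {M : Type*} [LSet.Structure M] : Fm → (ℕ → M) → Prop
  | .fls, _ => False
  | .eq i j, w => w i = w j
  | .mem i j, w => Mem (w i) (w j)
  | .imp φ ψ, w => Sat φ w → Sat ψ w
  | .all i φ, w => ∀ x, Sat φ (Function.update w i x)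

theorem all_step {φ : Fm} {w : ℕ → S.H} (hw : ∀ k, w k ∈ g.T) (i : ℕ)
    (h : ∀ x ∈ g.T, ∃ p, p ∈ g.G ∧ forces φ (Function.update w i x) p) :
    ∃ p, p ∈ g.G ∧ forces (.all i φ) w p := by
  let l : List S.H := (List.range (Fm.all i φ).bd).map w
  have hl : ∀ x ∈ l, x ∈ g.T := by
    intro x hx
    obtain ⟨k, _, rfl⟩ := List.mem_map.1 hx
    exact hw k
  have hwl : ∀ k, k < (Fm.all i φ).bd → wl l k = w k := by
    intro k hk
    simp [wl, l, hk]
  have hb : ∀ x p, forces φ (Function.update (wl l) i x) p ↔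
      forces φ (Function.update w i x) p := by
    intro x p
    refine forces_bd fun k hk => ?_
    by_cases hki : k = i
    · subst hki
      simp
    · simp only [Function.update_of_ne hki]
      exact hwl k (lt_of_lt_of_le hk (le_max_right _ _))
  by_contra hn
  have h1 := g.dec (.inr (.inl (Fm.all i φ))) l hl
  obtain ⟨p, hp, h2⟩ := h1
  rcases h2 with h2 | h2
  · exact hn ⟨p, hp, (forces_bd hwl).1 h2⟩
  · have h3 : ∀ q, q ≤ p → ∃ r, r ≤ q ∧ ∃ x : S.H,
        forces φ.neg (Function.update (wl l) i x) r := by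
      intro q hq
      have h4 := h2 q hq
      have h5 : ∃ x : S.H, ¬ forces φ (Function.update (wl l) i x) q := by
        by_contra h6
        push Not at h6
        exact h4 h6
      obtain ⟨x, hx⟩ := h5
      obtain ⟨r, hr, h6⟩ := exists_neg hx
      exact ⟨r, hr, x, h6⟩
    obtain ⟨q, hq, h4⟩ := g.meet hp (g.dec (.inr (.inr (.inl (φ, i)))) l hl) h3
    obtain ⟨x, hx, h5⟩ := g.sk φ i q l hl h4
    obtain ⟨r, hr, h6⟩ := h x hx
    obtain ⟨s, hs, h7, h8⟩ := g.dir q r hq hr
    exact h5 s h7 ((hb x s).2 (forces_mono h6 h8))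

/-- The truth lemma. -/
theorem truth {φ : Fm} : ∀ {w : ℕ → S.H} (hw : ∀ k, w k ∈ g.T),
    Sat φ (fun k => g.vl (w k) (hw k)) ↔ ∃ p, p ∈ g.G ∧ forces φ w p := by
  induction φ with
  | fls =>
    intro w hw
    exact ⟨False.elim, fun ⟨_, _, h⟩ => h⟩
  | eq i j =>
    intro w hw
    exact g.vl_eq
  | mem i j =>
    intro w hw
    exact g.mem_vl
  | imp φ ψ ih1 ih2 =>
    intro w hw
    constructor
    · intro h
      let l : List S.H := (List.range (Fm.imp φ ψ).bd).map w
      have hl : ∀ x ∈ l, x ∈ g.T := by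
        intro x hx
        obtain ⟨k, _, rfl⟩ := List.mem_map.1 hx
        exact hw k
      have hwl : ∀ k, k < (Fm.imp φ ψ).bd → wl l k = w k := by
        intro k hk
        simp [wl, l, hk]
      have hφ : ∀ q, forces φ (wl l) q ↔ forces φ w q := fun q =>
        forces_bd fun k hk => hwl k (lt_of_lt_of_le hk (le_max_left _ _))
      have hψ : ∀ q, forces ψ (wl l) q ↔ forces ψ w q := fun q =>
        forces_bd fun k hk => hwl k (lt_of_lt_of_le hk (le_max_right _ _))
      obtain ⟨p, hp, h1⟩ := g.dec (.inr (.inl (Fm.imp φ ψ))) l hl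
      rcases h1 with h1 | h1
      · exact ⟨p, hp, (forces_bd hwl).1 h1⟩
      · exfalso
        have h1' : ∀ q, q ≤ p → ¬ forces (Fm.imp φ ψ) (wl l) q := h1
        -- decide `φ`
        obtain ⟨p2, hp2, h2⟩ := g.dec (.inr (.inl φ)) l hl
        rcases h2 with h2 | h2
        · have h3 : forces φ w p2 := (hφ p2).1 h2
          obtain ⟨p3, hp3, h4⟩ := (ih2 hw).1 (h ((ih1 hw).2 ⟨p2, hp2, h3⟩))
          obtain ⟨r, hr, h5, h6⟩ := g.dir p p3 hp hp3
          exact h1' r h5 fun q hq _ => (hψ q).2 (forces_mono h4 (hq.trans h6))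
        · obtain ⟨r, hr, h5, h6⟩ := g.dir p p2 hp hp2
          exact h1' r h5 fun q hq h7 => absurd h7 (h2 q (hq.trans h6))
    · rintro ⟨p, hp, h⟩ h1
      obtain ⟨q, hq, h2⟩ := (ih1 hw).1 h1
      obtain ⟨r, hr, h3, h4⟩ := g.dir p q hp hq
      exact (ih2 hw).2 ⟨r, hr, h r h3 (forces_mono h2 h4)⟩
  | all i φ ih =>
    intro w hw
    have hu : ∀ x (hx : x ∈ g.T) k, Function.update w i x k ∈ g.T := by
      intro x hx k
      by_cases hk : k = i
      · subst hk
        simpa using hx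
      · simpa only [Function.update_of_ne hk] using hw k
    have hf : ∀ x (hx : x ∈ g.T), (fun k => g.vl (Function.update w i x k) (hu x hx k)) =
        Function.update (fun k => g.vl (w k) (hw k)) i (g.vl x hx) := by
      intro x hx
      funext k
      by_cases hk : k = i
      · subst hk
        simp
      · simp [Function.update_of_ne hk]
    constructor
    · intro h
      refine g.all_step hw i fun x hx => ?_
      refine (ih (hu x hx)).1 ?_
      rw [hf x hx]
      exact h _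
    · rintro ⟨p, hp, h⟩ a
      obtain ⟨x, hx, rfl⟩ := g.exists_vl a
      rw [← hf x hx]
      exact (ih (hu x hx)).2 ⟨p, hp, h x⟩

end GenD

/-! ### Conversion of the formulas of Mathlib -/

/-- The conversion. -/
def conv {α : Type*} (enc : α → ℕ) : ∀ {n : ℕ}, LSet.BoundedFormula α n → Fm
  | _, .falsum => .fls
  | _, .equal t₁ t₂ => .eq (tc t₁) (tc t₂)
  | _, .rel (l := l) r ts => match l, r, ts with
    | _, Sym.mem, ts => .mem (tc (ts 0)) (tc (ts 1))
  | _, .imp φ ψ => .imp (conv enc φ) (conv enc ψ)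
  | n, .all φ => .all (2 * n + 1) (conv enc φ)
where
  tc {n : ℕ} : LSet.Term (α ⊕ Fin n) → ℕ
    | .var (.inl a) => 2 * enc a
    | .var (.inr i) => 2 * i.1 + 1
    | .func f _ => Empty.elim f

theorem tc_spec {α M : Type*} [LSet.Structure M] (enc : α → ℕ) {n : ℕ}
    (t : LSet.Term (α ⊕ Fin n)) (v : α → M) (xs : Fin n → M) (w : ℕ → M)
    (h1 : ∀ a, w (2 * enc a) = v a) (h2 : ∀ i : Fin n, w (2 * i.1 + 1) = xs i) :
    t.realize (Sum.elim v xs) = w (conv.tc enc t) := by
  match t with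
  | .var (.inl a) => exact (h1 a).symm
  | .var (.inr i) => exact (h2 i).symm
  | .func f _ => exact Empty.elim f

theorem conv_spec {α M : Type*} [LSet.Structure M] (enc : α → ℕ) {n : ℕ}
    (φ : LSet.BoundedFormula α n) : ∀ (v : α → M) (xs : Fin n → M) (w : ℕ → M),
    (∀ a, w (2 * enc a) = v a) → (∀ i : Fin n, w (2 * i.1 + 1) = xs i) →
      (φ.Realize v xs ↔ GenD.Sat (conv enc φ) w) := by
  induction φ with
  | falsum => intro v xs w h1 h2; exact Iff.rfl
  | equal t₁ t₂ =>
    intro v xs w h1 h2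
    change t₁.realize _ = t₂.realize _ ↔ w _ = w _
    rw [tc_spec enc t₁ v xs w h1 h2, tc_spec enc t₂ v xs w h1 h2]
  | rel R ts =>
    intro v xs w h1 h2
    cases R
    change Structure.RelMap _ _ ↔ Mem (w _) (w _)
    have h3 : (fun i => (ts i).realize (Sum.elim v xs)) =
        ![w (conv.tc enc (ts 0)), w (conv.tc enc (ts 1))] := by
      funext i
      rw [tc_spec enc (ts i) v xs w h1 h2]
      fin_cases i <;> rfl
    rw [h3]
    rfl
  | imp φ ψ ih1 ih2 =>
    intro v xs w h1 h2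
    have h3 := ih1 v xs w h1 h2
    have h4 := ih2 v xs w h1 h2
    exact imp_congr h3 h4
  | all φ ih =>
    intro v xs w h1 h2
    refine forall_congr' fun x => ih v _ _ (fun a => ?_) (fun i => ?_)
    · rw [Function.update_of_ne (by omega)]
      exact h1 a
    · refine Fin.lastCases ?_ (fun i => ?_) i
      · simp
      · have := i.2
        rw [Function.update_of_ne (by simp only [Fin.val_castSucc]; omega)]
        simp [h2]

end

end Pool.Agent.H839R3.Nas
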