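import Pool.Agent.H839R3.Nas.Ops

/-!
# The axioms of ZF in the extension
-/

namespace Pool.Agent.H839R3.Nas

open Nm FirstOrder FirstOrder.Language
open Pool.Agent.Helper672.Plain (LSet Mem Sym)
open Pool.Agent.H635Amen (ZF)

/-- The basic operations. -/
inductive ZO : Type
  | pr | un | pw
  | se (φ : Fm) (i : ℕ)
  | co (φ : Fm) (i j : ℕ)
  | nn (n : ℕ)
  | om
  deriving Encodable

section

variable {P V : Type} [Preorder P] [OrderTop P] [DecidableEq V] {S : Sys P V}

/-- The operations. -/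
noncomputable def zop {O : Type} (op : O → List S.H → S.H) : ZO ⊕ O → List S.H → S.H
  | .inl .pr, l => prH (wl l 0) (wl l 1)
  | .inl .un, l => unH (wl l 0)
  | .inl .pw, l => pwH (wl l 0)
  | .inl (.se φ i), l => seH φ i l.tail (wl l 0)
  | .inl (.co φ i j), l => coH φ i j l.tail (wl l 0)
  | .inl (.nn n), _ => nnH S n
  | .inl .om, _ => omH S
  | .inr o, l => op o l

namespace GenD

/-! ### Satisfaction -/

/-- Conjunction. -/
def _root_.Pool.Agent.H839R3.Nas.Fm.and (φ ψ : Fm) : Fm := (Fm.imp φ ψ.neg).neg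

/-- Existence. -/
def _root_.Pool.Agent.H839R3.Nas.Fm.ex (i : ℕ) (φ : Fm) : Fm := (Fm.all i φ.neg).neg

theorem sat_neg {M : Type*} [LSet.Structure M] {φ : Fm} {w : ℕ → M} :
    Sat φ.neg w ↔ ¬ Sat φ w := Iff.rfl

theorem sat_and {M : Type*} [LSet.Structure M] {φ ψ : Fm} {w : ℕ → M} :
    Sat (φ.and ψ) w ↔ Sat φ w ∧ Sat ψ w := by
  simp only [Fm.and, sat_neg, Sat]
  tauto

theorem sat_ex {M : Type*} [LSet.Structure M] {φ : Fm} {i : ℕ} {w : ℕ → M} :
    Sat (φ.ex i) w ↔ ∃ x, Sat φ (Function.update w i x) := by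
  simp only [Fm.ex, sat_neg, Sat]
  push Not
  rfl

theorem sat_bd {M : Type*} [LSet.Structure M] {φ : Fm} : ∀ {w w' : ℕ → M},
    (∀ i, i < φ.bd → w i = w' i) → (Sat φ w ↔ Sat φ w') := by
  induction φ with
  | fls => intro w w' _; exact Iff.rfl
  | eq i j =>
    intro w w' h
    simp only [Fm.bd] at h
    simp only [Sat, h i (by omega), h j (by omega)]
  | mem i j =>
    intro w w' h
    simp only [Fm.bd] at h
    simp only [Sat, h i (by omega), h j (by omega)]
  | imp φ ψ ih1 ih2 =>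
    intro w w' h
    simp only [Fm.bd] at h
    simp only [Sat, ih1 fun i hi => h i (by omega), ih2 fun i hi => h i (by omega)]
  | all i φ ih =>
    intro w w' h
    simp only [Fm.bd] at h
    simp only [Sat]
    refine forall_congr' fun x => ih fun k hk => ?_
    by_cases hki : k = i
    · subst hki
      simp
    · simp only [Function.update_of_ne hki]
      exact h k (by omega)

variable {O J : Type} {op : O → List S.H → S.H} {pr : J → List S.H → P → Prop}
variable (g : GenD S (zop op) pr)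

theorem T_pr {x y : S.H} (hx : x ∈ g.T) (hy : y ∈ g.T) : prH x y ∈ g.T :=
  g.opT (.inl .pr) [x, y] (by simp [hx, hy])

theorem T_un {x : S.H} (hx : x ∈ g.T) : unH x ∈ g.T := g.opT (.inl .un) [x] (by simp [hx])

theorem T_pw {x : S.H} (hx : x ∈ g.T) : pwH x ∈ g.T := g.opT (.inl .pw) [x] (by simp [hx])

theorem T_nn (n : ℕ) : nnH S n ∈ g.T := g.opT (.inl (.nn n)) [] (by simp)

theorem T_om : omH S ∈ g.T := g.opT (.inl .om) [] (by simp)

theorem T_se (φ : Fm) (i : ℕ) {l : List S.H} {x : S.H} (hx : x ∈ g.T) (hl : ∀ y ∈ l, y ∈ g.T) :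
    seH φ i l x ∈ g.T := g.opT (.inl (.se φ i)) (x :: l) (by
      intro y hy
      rcases List.mem_cons.1 hy with rfl | hy
      · exact hx
      · exact hl y hy)

theorem T_co (φ : Fm) (i j : ℕ) {l : List S.H} {x : S.H} (hx : x ∈ g.T)
    (hl : ∀ y ∈ l, y ∈ g.T) : coH φ i j l x ∈ g.T := g.opT (.inl (.co φ i j)) (x :: l) (by
      intro y hy
      rcases List.mem_cons.1 hy with rfl | hy
      · exact hx
      · exact hl y hy)

end GenD

end

section

variable {P V : Type} [Preorder P] [DecidableEq V] {S : Sys P V}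
variable {O J : Type} {op : O → List S.H → S.H} {pr : J → List S.H → P → Prop}

namespace GenD

variable (g : GenD S op pr)

theorem nsub {x y : S.H} (hx : x ∈ g.T) (hy : y ∈ g.T)
    (h : ∀ a, Mem a (g.vl x hx) → Mem a (g.vl y hy)) : ∃ p, p ∈ g.G ∧ fsub x.1 y.1 p := by
  let w : ℕ → S.H := fun k => match k with
    | 1 => x
    | _ => y
  have hw : ∀ k, w k ∈ g.T := fun k => by
    match k with
    | 0 => exact hy
    | 1 => exact hx
    | k + 2 => exact hy
  obtain ⟨p, hp, h1⟩ := (g.truth (φ := .all 0 (.imp (.mem 0 1) (.mem 0 2))) hw).1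
    (fun a h2 => h a h2)
  refine ⟨p, hp, fun i q hq hi => ?_⟩
  exact h1 (x.el i) q hq (fmem_self _ i hi)

theorem ext' {x y : g.N} (h : ∀ a, Mem a x ↔ Mem a y) : x = y := by
  obtain ⟨x, hx, rfl⟩ := g.exists_vl x
  obtain ⟨y, hy, rfl⟩ := g.exists_vl y
  obtain ⟨p, hp, h1⟩ := g.nsub hx hy fun a => (h a).1
  obtain ⟨q, hq, h2⟩ := g.nsub hy hx fun a => (h a).2
  obtain ⟨r, hr, h3, h4⟩ := g.dir p q hp hq
  exact g.vl_eq.2 ⟨r, hr, feq_of_sub (fsub_mono h1 h3) (fsub_mono h2 h4)⟩

/-- Names for an assignment. -/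
theorem exists_w (W : ℕ → g.N) : ∃ (w : ℕ → S.H) (hw : ∀ k, w k ∈ g.T),
    (fun k => g.vl (w k) (hw k)) = W := by
  choose w hw h using fun k => g.exists_vl (W k)
  exact ⟨w, hw, funext h⟩

theorem upd {w : ℕ → S.H} (hw : ∀ k, w k ∈ g.T) {x : S.H} (hx : x ∈ g.T) (i : ℕ) :
    ∃ h : ∀ k, Function.update w i x k ∈ g.T,
      (fun k => g.vl (Function.update w i x k) (h k)) =
        Function.update (fun k => g.vl (w k) (hw k)) i (g.vl x hx) := by
  have hu : ∀ k, Function.update w i x k ∈ g.T := by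
    intro k
    by_cases hk : k = i
    · subst hk
      simpa using hx
    · simpa only [Function.update_of_ne hk] using hw k
  refine ⟨hu, ?_⟩
  funext k
  by_cases hk : k = i
  · subst hk
    simp
  · simp [Function.update_of_ne hk]

theorem truth_upd {φ : Fm} {w : ℕ → S.H} (hw : ∀ k, w k ∈ g.T) {x : S.H} (hx : x ∈ g.T)
    (i : ℕ) : Sat φ (Function.update (fun k => g.vl (w k) (hw k)) i (g.vl x hx)) ↔
      ∃ p, p ∈ g.G ∧ forces φ (Function.update w i x) p := by
  obtain ⟨h, h1⟩ := g.upd hw hx i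
  rw [← h1]
  exact g.truth h

theorem elem {ψ : Fm} {w : ℕ → S.H} (hw : ∀ k, w k ∈ g.T) {i : ℕ}
    (h : ∃ p, p ∈ g.G ∧ ∃ x : S.H, forces ψ (Function.update w i x) p) :
    ∃ a, Sat ψ (Function.update (fun k => g.vl (w k) (hw k)) i a) := by
  by_contra hn
  push Not at hn
  obtain ⟨p, hp, h1⟩ := (g.truth (φ := .all i ψ.neg) hw).1 (fun a => hn a)
  obtain ⟨q, hq, x, h2⟩ := h
  obtain ⟨r, hr, h3, h4⟩ := g.dir p q hp hq
  exact h1 x r h3 (forces_mono h2 h4)

theorem elemD {ψ : Fm} {w : ℕ → S.H} (hw : ∀ k, w k ∈ g.T) {i : ℕ}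
    (h : ∃ p₀, p₀ ∈ g.G ∧ ∀ p, p ≤ p₀ → ∃ q, q ≤ p ∧ ∃ x : S.H,
      forces ψ (Function.update w i x) q) :
    ∃ a, Sat ψ (Function.update (fun k => g.vl (w k) (hw k)) i a) := by
  by_contra hn
  push Not at hn
  obtain ⟨p, hp, h1⟩ := (g.truth (φ := .all i ψ.neg) hw).1 (fun a => hn a)
  obtain ⟨q, hq, h2⟩ := h
  obtain ⟨r, hr, h3, h4⟩ := g.dir p q hp hq
  obtain ⟨s, hs, x, h5⟩ := h2 r h4
  exact h1 x s (hs.trans h3) h5

/-- The list of the values below a bound. -/
def lst (w : ℕ → S.H) (n : ℕ) : List S.H := (List.range n).map w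

omit [DecidableEq V] in
theorem lst_dummy : True := trivial

theorem lst_T {w : ℕ → S.H} (hw : ∀ k, w k ∈ g.T) (n : ℕ) : ∀ x ∈ lst w n, x ∈ g.T := by
  intro x hx
  obtain ⟨k, _, rfl⟩ := List.mem_map.1 hx
  exact hw k

theorem wl_lst (w : ℕ → S.H) {n k : ℕ} (hk : k < n) : wl (lst w n) k = w k := by
  simp [wl, lst, hk]

theorem upd_lst (w : ℕ → S.H) {φ : Fm} {i : ℕ} {x : S.H} {p : P} :
    forces φ (Function.update (wl (lst w φ.bd)) i x) p ↔
      forces φ (Function.update w i x) p := by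
  refine forces_bd fun k hk => ?_
  by_cases hki : k = i
  · subst hki
    simp
  · simp only [Function.update_of_ne hki]
    exact wl_lst w hk

theorem upd2_lst (w : ℕ → S.H) {φ : Fm} {i j : ℕ} {x y : S.H} {p : P} :
    forces φ (Function.update (Function.update (wl (lst w φ.bd)) i x) j y) p ↔
      forces φ (Function.update (Function.update w i x) j y) p := by
  refine forces_bd fun k hk => ?_
  by_cases hki : k = j
  · subst hki
    simp
  · simp only [Function.update_of_ne hki]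
    by_cases hki : k = i
    · subst hki
      simp
    · simp only [Function.update_of_ne hki]
      exact wl_lst w hk

end GenD

end

section

variable {P V : Type} [Preorder P] [OrderTop P] [DecidableEq V] {S : Sys P V}
variable {O J : Type} {op : O → List S.H → S.H} {pr : J → List S.H → P → Prop}

namespace GenD

variable (g : GenD S (zop op) pr)

theorem pairing (x y : g.N) : ∃ p, ∀ z, Mem z p ↔ z = x ∨ z = y := by
  obtain ⟨x, hx, rfl⟩ := g.exists_vl x
  obtain ⟨y, hy, rfl⟩ := g.exists_vl y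
  refine ⟨g.vl _ (g.T_pr hx hy), fun z => ?_⟩
  obtain ⟨z, hz, rfl⟩ := g.exists_vl z
  rw [mem_vl', vl_eq, vl_eq]
  constructor
  · rintro ⟨i, p, hp, _, h⟩
    cases i with
    | false => exact Or.inr ⟨p, hp, h⟩
    | true => exact Or.inl ⟨p, hp, h⟩
  · rintro (⟨p, hp, h⟩ | ⟨p, hp, h⟩)
    · exact ⟨true, p, hp, le_top, h⟩
    · exact ⟨false, p, hp, le_top, h⟩

theorem union' (x : g.N) : ∃ a, ∀ z, Mem z a ↔ ∃ y, Mem y x ∧ Mem z y := by
  obtain ⟨x, hx, rfl⟩ := g.exists_vl x
  refine ⟨g.vl _ (g.T_un hx), fun z => ?_⟩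
  obtain ⟨z, hz, rfl⟩ := g.exists_vl z
  constructor
  · rw [mem_vl']
    rintro ⟨⟨i, j, r, hr1, hr2⟩, p, hp, h1, h2⟩
    let w : ℕ → S.H := fun k => match k with
      | 1 => x
      | _ => z
    have hw : ∀ k, w k ∈ g.T := fun k => by
      match k with
      | 0 => exact hz
      | 1 => exact hx
      | k + 2 => exact hz
    have h3 := g.elem (ψ := (Fm.mem 0 1).and (.mem 2 0)) hw (i := 0) ⟨p, hp, x.el i, ?_⟩
    · obtain ⟨a, ha⟩ := h3
      rw [sat_and] at ha
      exact ⟨a, ha.1, ha.2⟩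
    · intro q hq h4
      refine h4 q le_rfl (fmem_self x.1 i ((hq.trans h1).trans hr1)) q le_rfl ?_
      exact fmem_of (y := x.1.A i) j ((hq.trans h1).trans hr2) (feq_mono h2 hq)
  · rintro ⟨y, h1, h2⟩
    obtain ⟨y, hy, rfl⟩ := g.exists_vl y
    obtain ⟨i, p, hp, h3, h4⟩ := g.mem_vl'.1 h1
    obtain ⟨q, hq, h5⟩ := g.mem_vl.1 h2
    obtain ⟨r, hr, h6, h7⟩ := g.dir p q hp hq
    refine g.mem_vl.2 ⟨r, hr, ?_⟩
    have h8 := fmem_congr_right (feq_mono h4 h6) (fmem_mono h5 h7)
    intro s hs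
    obtain ⟨t, ht, j, h9, h10⟩ := h8 s hs
    exact ⟨t, ht, ⟨i, j, t, (ht.trans hs).trans (h6.trans h3), h9⟩, le_rfl, h10⟩

theorem power' (x : g.N) : ∃ p, ∀ z, Mem z p ↔ ∀ w, Mem w z → Mem w x := by
  obtain ⟨x, hx, rfl⟩ := g.exists_vl x
  refine ⟨g.vl _ (g.T_pw hx), fun z => ?_⟩
  obtain ⟨z, hz, rfl⟩ := g.exists_vl z
  constructor
  · intro h a ha
    obtain ⟨a, haT, rfl⟩ := g.exists_vl a
    obtain ⟨c, p, hp, _, h1⟩ := g.mem_vl'.1 h
    obtain ⟨q, hq, h2⟩ := g.mem_vl.1 ha
    obtain ⟨r, hr, h3, h4⟩ := g.dir p q hp hq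
    exact g.mem_vl.2 ⟨r, hr, fsub_mem (sbN_sub _ _ _)
      (fmem_congr_right (feq_mono h1 h3) (fmem_mono h2 h4))⟩
  · intro h
    obtain ⟨p, hp, h1⟩ := g.nsub hz hx h
    exact g.mem_vl.2 ⟨p, hp, pwH_spec h1⟩

theorem mem_suc {x z : S.H} (hx : x ∈ g.T) (hs : sucH x ∈ g.T) (hz : z ∈ g.T) :
    Mem (g.vl z hz) (g.vl (sucH x) hs) ↔ Mem (g.vl z hz) (g.vl x hx) ∨ g.vl z hz = g.vl x hx := by
  rw [mem_vl', mem_vl', vl_eq]
  constructor
  · rintro ⟨i, p, hp, h1, h2⟩
    match i, h1, h2 with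
    | none, _, h2 => exact Or.inr ⟨p, hp, h2⟩
    | some i, h1, h2 => exact Or.inl ⟨i, p, hp, h1, h2⟩
  · rintro (⟨i, p, hp, h1, h2⟩ | ⟨p, hp, h⟩)
    · exact ⟨some i, p, hp, h1, h2⟩
    · exact ⟨none, p, hp, le_top, h⟩

theorem mem_om {z : S.H} (hz : z ∈ g.T) : Mem (g.vl z hz) (g.vl _ g.T_om) ↔
    ∃ n, g.vl z hz = g.vl _ (g.T_nn n) := by
  rw [mem_vl']
  constructor
  · rintro ⟨n, p, hp, _, h⟩
    exact ⟨n, g.vl_eq.2 ⟨p, hp, h⟩⟩
  · rintro ⟨n, h⟩
    obtain ⟨p, hp, h1⟩ := g.vl_eq.1 h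
    exact ⟨n, p, hp, le_top, h1⟩

theorem infinity' : ∃ i : g.N, (∃ e, Mem e i ∧ ∀ z, ¬ Mem z e) ∧
    ∀ n, Mem n i → ∃ s, Mem s i ∧ ∀ z, Mem z s ↔ Mem z n ∨ z = n := by
  refine ⟨g.vl _ g.T_om, ⟨g.vl _ (g.T_nn 0), (g.mem_om _).2 ⟨0, rfl⟩, fun z hz => ?_⟩,
    fun n hn => ?_⟩
  · obtain ⟨z, hzT, rfl⟩ := g.exists_vl z
    obtain ⟨i, _⟩ := g.mem_vl'.1 hz
    exact Empty.elim i
  · obtain ⟨z, hzT, rfl⟩ := g.exists_vl n
    obtain ⟨n, hn⟩ := (g.mem_om _).1 hn
    refine ⟨g.vl _ (g.T_nn (n + 1)), (g.mem_om _).2 ⟨n + 1, rfl⟩, fun z => ?_⟩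
    obtain ⟨z, hzT, rfl⟩ := g.exists_vl z
    rw [hn]
    exact g.mem_suc (g.T_nn n) (g.T_nn (n + 1)) hzT

theorem foundation' (x : g.N) (h : ∃ y, Mem y x) :
    ∃ y, Mem y x ∧ ∀ z, Mem z x → ¬ Mem z y := by
  obtain ⟨x, hx, rfl⟩ := g.exists_vl x
  obtain ⟨y, hy⟩ := h
  obtain ⟨y, hyT, rfl⟩ := g.exists_vl y
  obtain ⟨p₀, hp₀, h0⟩ := g.mem_vl.1 hy
  have key : ∀ (y : Nm P), S.HS y → ∀ p, fmem y x.1 p → ∃ q, q ≤ p ∧ ∃ y' : S.H,
      fmem y'.1 x.1 q ∧ ∀ (z : S.H) r, r ≤ q → ¬ (fmem z.1 x.1 r ∧ fmem z.1 y'.1 r) := by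
    intro y
    induction y with
    | mk ι A B ih =>
      intro hH p hp
      by_cases hc : ∃ i r, r ≤ p ∧ fmem (A i) x.1 r
      · obtain ⟨i, r, hr, h1⟩ := hc
        obtain ⟨q, hq, h2⟩ := ih i (hH.2 i) r h1
        exact ⟨q, hq.trans hr, h2⟩
      · refine ⟨p, le_rfl, ⟨_, hH⟩, hp, fun z r hr h1 => hc ?_⟩
        obtain ⟨s, hs, i, _, h3⟩ := h1.2 r le_rfl
        exact ⟨i, s, hs.trans hr, fmem_congr_left h3 (fmem_mono h1.1 hs)⟩
  let w : ℕ → S.H := fun _ => x
  have hw : ∀ k, w k ∈ g.T := fun _ => hx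
  have h9 := g.elemD (ψ := (Fm.mem 0 1).and (.all 2 (.imp (.mem 2 1) (Fm.mem 2 0).neg)))
    hw (i := 0) ⟨p₀, hp₀, fun p hp => by
      obtain ⟨q, hq, y', h1, h2⟩ := key y.1 y.2 p (fmem_mono h0 hp)
      refine ⟨q, hq, y', fun r hr h3 => ?_⟩
      refine h3 r le_rfl (fmem_mono h1 hr) r le_rfl ?_
      intro z s hs h4 t ht h5
      exact h2 z t (ht.trans (hs.trans hr)) ⟨fmem_mono h4 ht, h5⟩⟩
  obtain ⟨a, ha⟩ := h9
  rw [sat_and] at ha
  exact ⟨a, ha.1, fun z hz hz' => ha.2 z hz hz'⟩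

theorem sepSat (ψ : Fm) (i : ℕ) (W : ℕ → g.N) (x : g.N) :
    ∃ y, ∀ z, Mem z y ↔ Mem z x ∧ Sat ψ (Function.update W i z) := by
  obtain ⟨w, hw, rfl⟩ := g.exists_w W
  obtain ⟨x, hx, rfl⟩ := g.exists_vl x
  refine ⟨g.vl _ (g.T_se ψ i hx (g.lst_T hw ψ.bd)), fun z => ?_⟩
  obtain ⟨z, hz, rfl⟩ := g.exists_vl z
  rw [g.truth_upd hw hz i, mem_vl, mem_vl]
  constructor
  · rintro ⟨p, hp, h⟩
    rw [seH_spec, upd_lst] at h
    exact ⟨⟨p, hp, h.1⟩, p, hp, h.2⟩
  · rintro ⟨⟨p, hp, h⟩, q, hq, h'⟩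
    obtain ⟨r, hr, h1, h2⟩ := g.dir p q hp hq
    refine ⟨r, hr, ?_⟩
    rw [seH_spec, upd_lst]
    exact ⟨fmem_mono h h1, forces_mono h' h2⟩

theorem collSat (φ : Fm) (i j : ℕ) (hij : i ≠ j) (W : ℕ → g.N) (a : g.N)
    (h : ∀ x, Mem x a → ∃! y, Sat φ (Function.update (Function.update W i x) j y)) :
    ∃ b, ∀ x y, Mem x a → Sat φ (Function.update (Function.update W i x) j y) → Mem y b := by
  obtain ⟨w, hw, rfl⟩ := g.exists_w W
  obtain ⟨a, ha, rfl⟩ := g.exists_vl a
  refine ⟨g.vl _ (g.T_co φ i j ha (g.lst_T hw φ.bd)), fun x y hxa hxy => ?_⟩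
  obtain ⟨x, hx, rfl⟩ := g.exists_vl x
  obtain ⟨y, hy, rfl⟩ := g.exists_vl y
  obtain ⟨k, p1, hp1, h1, h2⟩ := g.mem_vl'.1 hxa
  -- `φ x y` is forced
  obtain ⟨hu, hu'⟩ := g.upd hw hx i
  have h3 : ∃ p, p ∈ g.G ∧ forces φ (Function.update (Function.update w i x) j y) p := by
    rw [← g.truth_upd hu hy j, hu']
    exact hxy
  obtain ⟨p2, hp2, h3⟩ := h3
  -- uniqueness is forced
  let m := φ.bd + i + j + 1
  obtain ⟨hv, hv'⟩ := g.upd hw hy m
  obtain ⟨hv2, hv2'⟩ := g.upd hv hx i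
  have h4 : ∃ p, p ∈ g.G ∧ forces (.all j (.imp φ (.eq j m)))
      (Function.update (Function.update w m y) i x) p := by
    refine (g.truth hv2).1 ?_
    rw [hv2', hv']
    intro y' h5
    have h6 : Sat φ (Function.update (Function.update (fun k => g.vl (w k) (hw k)) i
        (g.vl x hx)) j y') := by
      refine (sat_bd fun k hk => ?_).1 h5
      have hkm : k ≠ m := by
        change k ≠ φ.bd + i + j + 1
        omega
      by_cases hkj : k = j
      · subst hkj
        simp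
      · simp only [Function.update_of_ne hkj]
        by_cases hki : k = i
        · subst hki
          simp
        · simp only [Function.update_of_ne hki, Function.update_of_ne hkm]
    have h7 := (h _ hxa).unique h6 hxy
    have hmj : m ≠ j := by
      change φ.bd + i + j + 1 ≠ j
      omega
    have hmi : m ≠ i := by
      change φ.bd + i + j + 1 ≠ i
      omega
    simp only [Sat, Function.update_self, Function.update_of_ne hmj, Function.update_of_ne hmi]
    exact h7
  obtain ⟨p3, hp3, h4⟩ := h4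
  obtain ⟨r1, hr1, h5, h6⟩ := g.dir p1 p2 hp1 hp2
  obtain ⟨r, hr, h7, h8⟩ := g.dir r1 p3 hr1 hp3
  refine g.mem_vl.2 ⟨r, hr, coH_spec (k := k) ?_⟩
  have hxk : feq x.1 (a.el k).1 r := feq_mono h2 (h7.trans h5)
  have h9 : forces φ (Function.update (Function.update (wl (lst w φ.bd)) i (a.el k)) j y) r := by
    rw [upd2_lst]
    refine forces_congr (fun n => ?_) (forces_mono h3 (h7.trans h6))
    by_cases hn : n = j
    · subst hn
      simp only [Function.update_self]
      exact feq_refl _ _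
    · simp only [Function.update_of_ne hn]
      by_cases hn : n = i
      · subst hn
        simp only [Function.update_self]
        exact hxk
      · simp only [Function.update_of_ne hn]
        exact feq_refl _ _
  have h10 := wit_spec h9
  rw [upd2_lst] at h10
  have hmj : m ≠ j := by
    change φ.bd + i + j + 1 ≠ j
    omega
  have hmi : m ≠ i := by
    change φ.bd + i + j + 1 ≠ i
    omega
  have h11 := h4 (wit φ i j (lst w φ.bd) a k r) r h8 (by
    refine forces_congr (fun n => ?_) ((forces_bd fun n hn => ?_).1 h10)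
      (w := Function.update (Function.update (Function.update w m y) i (a.el k)) j
        (wit φ i j (lst w φ.bd) a k r))
    · by_cases hn : n = j
      · subst hn
        simp only [Function.update_self]
        exact feq_refl _ _
      · simp only [Function.update_of_ne hn]
        by_cases hn : n = i
        · subst hn
          simp only [Function.update_self]
          exact feq_symm hxk
        · simp only [Function.update_of_ne hn]
          exact feq_refl _ _
    · have hnm : n ≠ m := by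
        change n ≠ φ.bd + i + j + 1
        omega
      by_cases hn : n = j
      · subst hn
        simp
      · simp only [Function.update_of_ne hn]
        by_cases hn : n = i
        · subst hn
          simp
        · simp only [Function.update_of_ne hn, Function.update_of_ne hnm])
  have h12 : feq (Function.update (Function.update (Function.update w m y) i x) j
    (wit φ i j (lst w φ.bd) a k r) j).1 (Function.update (Function.update
      (Function.update w m y) i x) j (wit φ i j (lst w φ.bd) a k r) m).1 r := h11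
  simp only [Function.update_self, Function.update_of_ne hmj, Function.update_of_ne hmi] at h12
  exact feq_symm h12

theorem countable_N : _root_.Countable g.N := by
  have h1 : _root_.Countable ↥g.T := Set.countable_coe_iff.2 g.cT
  exact @Quotient.countable _ h1 g.std

/-- A definable set is given by a formula. -/
theorem exists_fm {κ : Type} [_root_.Countable κ] {s : Set (κ → g.N)}
    (hs : (Set.univ : Set g.N).Definable LSet s) :
    ∃ (ψ : Fm) (W : ℕ → g.N) (e : κ → ℕ), Function.Injective e ∧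
      ∀ (v : κ → g.N) (w : ℕ → g.N), (∀ k, w (e k) = v k) → (∀ n, (∀ k, n ≠ e k) → w n = W n) →
        (v ∈ s ↔ Sat ψ w) := by
  obtain ⟨φ, hφ⟩ := (Set.definable_iff_exists_formula_sum).1 hs
  have hc := g.countable_N
  have h1 : _root_.Countable (↥(Set.univ : Set g.N) ⊕ κ) := inferInstance
  obtain ⟨enc, henc⟩ := h1.exists_injective_nat
  classical
  refine ⟨conv enc φ, fun n => if h : ∃ a : ↥(Set.univ : Set g.N), n = 2 * enc (Sum.inl a) then
    h.choose.1 else g.vl _ g.emp, fun k => 2 * enc (Sum.inr k), ?_, ?_⟩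
  · intro k k' h
    have h2 : 2 * enc (Sum.inr k) = 2 * enc (Sum.inr k') := h
    exact Sum.inr_injective (henc (by omega))
  · intro v w h2 h3
    rw [hφ]
    change φ.Realize _ ↔ _
    refine conv_spec enc φ _ _ w (fun a => ?_) (fun i => i.elim0)
    rcases a with a | k
    · have h4 : ∀ k, 2 * enc (Sum.inl a) ≠ 2 * enc (Sum.inr k) := by
        intro k h5
        have h6 := henc (show enc (Sum.inl a) = enc (Sum.inr k) by omega)
        cases h6
      rw [h3 _ h4]
      have h5 : ∃ b : ↥(Set.univ : Set g.N), 2 * enc (Sum.inl a) = 2 * enc (Sum.inl b) :=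
        ⟨a, rfl⟩
      beta_reduce
      rw [dif_pos h5]
      have h6 := h5.choose_spec
      have h7 : a = h5.choose := Sum.inl_injective (henc (by omega))
      change (h5.choose).1 = a.1
      rw [← h7]
    · exact h2 k

theorem zf : ZF g.N where
  ext x y h := g.ext' h
  pairing := g.pairing
  union := g.union'
  power := g.power'
  infinity := g.infinity'
  foundation := g.foundation'
  separation s hs x := by
    obtain ⟨ψ, W, e, he, h⟩ := g.exists_fm hs
    obtain ⟨y, hy⟩ := g.sepSat ψ (e 0) W x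
    refine ⟨y, fun z => (hy z).trans (and_congr_right fun _ => ?_)⟩
    refine (h (fun _ => z) _ (fun k => ?_) (fun n hn => ?_)).symm
    · rw [Subsingleton.elim k 0]
      simp
    · rw [Function.update_of_ne (hn 0)]
  replacement F hF a h := by
    obtain ⟨ψ, W, e, he, h'⟩ := g.exists_fm hF
    have hne : e 0 ≠ e 1 := fun h => absurd (he h) (by decide)
    have h1 : ∀ x y, (x, y) ∈ F ↔
        Sat ψ (Function.update (Function.update W (e 0) x) (e 1) y) := by
      intro x y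
      refine (h' ![x, y] _ (fun k => ?_) (fun n hn => ?_))
      · fin_cases k
        · simp [Function.update_of_ne hne]
        · simp
      · rw [Function.update_of_ne (hn 1), Function.update_of_ne (hn 0)]
    obtain ⟨b, hb⟩ := g.collSat ψ (e 0) (e 1) hne W a fun x hx => by
      obtain ⟨y, hy, hy'⟩ := h x hx
      exact ⟨y, (h1 x y).1 hy, fun y' h2 => hy' y' ((h1 x y').2 h2)⟩
    let m := ψ.bd + e 0 + e 1 + 1
    have hm0 : m ≠ e 0 := by
      change ψ.bd + e 0 + e 1 + 1 ≠ e 0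
      omega
    have hm1 : m ≠ e 1 := by
      change ψ.bd + e 0 + e 1 + 1 ≠ e 1
      omega
    obtain ⟨c, hc⟩ := g.sepSat (((Fm.mem (e 0) m).and ψ).ex (e 0)) (e 1)
      (Function.update W m a) b
    refine ⟨c, fun y => (hc y).trans ?_⟩
    rw [sat_ex]
    have h2 : ∀ x, Sat ((Fm.mem (e 0) m).and ψ) (Function.update (Function.update
        (Function.update W m a) (e 1) y) (e 0) x) ↔ Mem x a ∧ (x, y) ∈ F := by
      intro x
      rw [sat_and, h1]
      refine and_congr ?_ (sat_bd fun k hk => ?_)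
      · simp only [Sat, Function.update_self, Function.update_of_ne hm0, Function.update_of_ne hm1]
      · have hkm : k ≠ m := by
          change k ≠ ψ.bd + e 0 + e 1 + 1
          omega
        by_cases hk1 : k = e 1
        · subst hk1
          simp [Function.update_of_ne hne.symm]
        · by_cases hk0 : k = e 0
          · subst hk0
            simp [Function.update_of_ne hne]
          · simp only [Function.update_of_ne hk0, Function.update_of_ne hk1,
              Function.update_of_ne hkm]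
    simp only [h2]
    constructor
    · exact fun h3 => h3.2
    · rintro ⟨x, hx, hxy⟩
      exact ⟨hb x y hx ((h1 x y).1 hxy), x, hx, hxy⟩

end GenD

end

end Pool.Agent.H839R3.Nas
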